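import Mathlib
import Pool.Agent.SWz.Main

/-! MP_13664e_an, block E: the prime number theorem in arithmetic progressions in short
multiplicative intervals `(x, (1 + η) x]`. -/

namespace Pool.Agent.S7e

open Finset Filter Topology ArithmeticFunction

/-- The primes in `(x, y]`. -/
noncomputable def primesIn (x y : ℝ) : Finset ℕ := (Ioc ⌊x⌋₊ ⌊y⌋₊).filter Nat.Prime

theorem mem_primesIn {x y : ℝ} (hx : 0 ≤ x) (hy : 0 ≤ y) {p : ℕ} :
    p ∈ primesIn x y ↔ x < p ∧ (p : ℝ) ≤ y ∧ p.Prime := by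
  rw [primesIn, mem_filter, mem_Ioc, Nat.floor_lt hx, Nat.le_floor_iff hy, and_assoc]

/-- Chebyshev's theta function in a residue class. -/
noncomputable def thetaAP (q : ℕ) (a : ZMod q) (y : ℝ) : ℝ :=
  ∑ p ∈ (Ioc 0 ⌊y⌋₊).filter (fun p : ℕ => p.Prime ∧ (p : ZMod q) = a), Real.log p

/-- Chebyshev's psi function in a residue class. -/
noncomputable def psiAP (q : ℕ) (a : ZMod q) (y : ℝ) : ℝ :=
  ∑ n ∈ (Ioc 0 ⌊y⌋₊).filter (fun n : ℕ => (n : ZMod q) = a), vonMangoldt n

theorem theta_le_psiAP (q : ℕ) (a : ZMod q) (y : ℝ) :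
    0 ≤ psiAP q a y - thetaAP q a y ∧
      psiAP q a y - thetaAP q a y ≤ Chebyshev.psi y - Chebyshev.theta y := by
  have h1 : psiAP q a y - thetaAP q a y =
      ∑ n ∈ (Ioc 0 ⌊y⌋₊).filter (fun n : ℕ => ¬ n.Prime ∧ (n : ZMod q) = a), vonMangoldt n := by
    rw [psiAP, thetaAP, sum_filter, sum_filter, sum_filter, ← sum_sub_distrib]
    refine sum_congr rfl fun n _ => ?_
    by_cases hp : n.Prime <;> by_cases hc : (n : ZMod q) = a <;>
      simp [hp, hc, vonMangoldt_apply_prime]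
  rw [h1, Chebyshev.psi_sub_theta_eq_sum_not_prime]
  refine ⟨sum_nonneg fun _ _ => vonMangoldt_nonneg, ?_⟩
  refine sum_le_sum_of_subset_of_nonneg ?_ fun _ _ _ => vonMangoldt_nonneg
  intro n hn
  rw [mem_filter] at hn ⊢
  exact ⟨hn.1, hn.2.1⟩

theorem psiAP_bound (q : ℕ) [NeZero q] (a : ZMod q) (ha : IsUnit a) :
    ∃ C : ℝ, 0 ≤ C ∧ ∀ y : ℝ, 2 ≤ y →
      |psiAP q a y - y / (q.totient : ℝ)| ≤ C * y / Real.log y := by
  obtain ⟨C, hC⟩ := Pool.Agent.SWz.swlam 1
  refine ⟨max C 0, le_max_right _ _, fun y hy => ?_⟩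
  have hq1 : 1 ≤ q := Nat.one_le_iff_ne_zero.mpr (NeZero.ne q)
  have hcop : IsCoprime (a.val : ℤ) (q : ℤ) := by
    rw [Nat.isCoprime_iff_coprime]
    have h := (ZMod.isUnit_iff_coprime a.val q).mp (by rwa [ZMod.natCast_zmod_val])
    exact h
  have h := hC y hy q (a.val : ℤ) hq1 hcop
  have e : (∑ n ∈ Icc 1 ⌊y⌋₊, if (q : ℤ) ∣ (n : ℤ) - (a.val : ℤ) then vonMangoldt n else 0)
      = psiAP q a y := by
    rw [psiAP, sum_filter]
    refine sum_congr (by rfl) fun n _ => ?_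
    have : ((q : ℤ) ∣ (n : ℤ) - (a.val : ℤ)) ↔ (n : ZMod q) = a := by
      have h2 := ZMod.intCast_eq_intCast_iff_dvd_sub (a.val : ℤ) (n : ℤ) q
      rw [← h2]
      push_cast
      rw [ZMod.natCast_zmod_val]
      exact eq_comm
    simp only [this]
  rw [e, pow_one] at h
  refine h.trans ?_
  have hlog : 0 < Real.log y := Real.log_pos (by linarith)
  gcongr
  exact le_max_left _ _

/-- The prime number theorem in a residue class, for theta. -/
theorem theta_ap (q : ℕ) [NeZero q] (a : ZMod q) (ha : IsUnit a) :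
    Tendsto (fun y : ℝ => thetaAP q a y / y) atTop (𝓝 (1 / (q.totient : ℝ))) := by
  obtain ⟨C, hC0, hC⟩ := psiAP_bound q a ha
  rw [tendsto_iff_norm_sub_tendsto_zero]
  have hl : Tendsto (fun y : ℝ => C / Real.log y + 2 * Real.log y / √y) atTop (𝓝 (0 + 0)) := by
    refine Tendsto.add (Tendsto.div_atTop tendsto_const_nhds Real.tendsto_log_atTop) ?_
    have h := (isLittleO_log_rpow_atTop (r := 1 / 2) (by norm_num)).tendsto_div_nhds_zero
    have h2 : Tendsto (fun y : ℝ => 2 * (Real.log y / y ^ (1 / 2 : ℝ))) atTop (𝓝 (2 * 0)) :=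
      h.const_mul 2
    rw [mul_zero] at h2
    refine h2.congr fun y => ?_
    rw [Real.sqrt_eq_rpow]
    ring
  rw [add_zero] at hl
  refine squeeze_zero' (Eventually.of_forall fun _ => norm_nonneg _) ?_ hl
  filter_upwards [eventually_ge_atTop (2 : ℝ)] with y hy
  have hy0 : 0 < y := by linarith
  have hlog : 0 < Real.log y := Real.log_pos (by linarith)
  have h1 := hC y hy
  have h2 := theta_le_psiAP q a y
  have h3 := Chebyshev.psi_sub_theta_le (x := y) (by linarith)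
  have hs : √y * √y = y := Real.mul_self_sqrt hy0.le
  have hs0 : 0 < √y := Real.sqrt_pos.mpr hy0
  have h4 : |thetaAP q a y - y / (q.totient : ℝ)| ≤ C * y / Real.log y + 2 * √y * Real.log y := by
    rw [abs_le] at h1 ⊢
    constructor <;> nlinarith [h1.1, h1.2, h2.1, h2.2]
  have h5 : thetaAP q a y / y - 1 / (q.totient : ℝ) = (thetaAP q a y - y / (q.totient : ℝ)) / y := by
    field_simp
  rw [h5, Real.norm_eq_abs, abs_div, abs_of_pos hy0, div_le_iff₀ hy0]
  refine h4.trans (le_of_eq ?_)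
  have e1 : C * y / Real.log y = C / Real.log y * y := by ring
  have e2 : 2 * √y * Real.log y = 2 * Real.log y / √y * y := by
    have hne := hs0.ne'
    rw [div_mul_eq_mul_div, eq_div_iff hne]
    calc 2 * √y * Real.log y * √y = 2 * Real.log y * (√y * √y) := by ring
      _ = 2 * Real.log y * y := by rw [hs]
  rw [e1, e2]
  ring

/-- Scaling. -/
theorem theta_ap_scale (q : ℕ) [NeZero q] (a : ZMod q) (ha : IsUnit a) (c : ℝ) (hc : 0 < c) :
    Tendsto (fun x : ℝ => thetaAP q a (c * x) / x) atTop (𝓝 (c / (q.totient : ℝ))) := by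
  have h := ((theta_ap q a ha).comp (tendsto_id.const_mul_atTop hc)).const_mul c
  have e : c * (1 / (q.totient : ℝ)) = c / (q.totient : ℝ) := by ring
  rw [e] at h
  refine h.congr' ?_
  filter_upwards [eventually_gt_atTop (0 : ℝ)] with x hx
  simp only [Function.comp_apply, id]
  field_simp

/-- Weighted form in `(x, (1 + η) x]`. -/
theorem theta_short (q : ℕ) [NeZero q] (a : ZMod q) (ha : IsUnit a) (η : ℝ) (hη : 0 < η) :
    Tendsto (fun x : ℝ => (∑ p ∈ (primesIn x ((1 + η) * x)).filter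
      (fun p : ℕ => (p : ZMod q) = a), Real.log p) / x) atTop (𝓝 (η / (q.totient : ℝ))) := by
  have h1 := theta_ap_scale q a ha (1 + η) (by linarith)
  have h2 := theta_ap_scale q a ha 1 one_pos
  have h3 := h1.sub h2
  have e : (1 + η) / (q.totient : ℝ) - 1 / (q.totient : ℝ) = η / (q.totient : ℝ) := by ring
  rw [e] at h3
  refine h3.congr' ?_
  filter_upwards [eventually_gt_atTop (0 : ℝ)] with x hx
  rw [← sub_div, one_mul]
  congr 1
  have hle : ⌊x⌋₊ ≤ ⌊(1 + η) * x⌋₊ := Nat.floor_mono (by nlinarith)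
  rw [thetaAP, thetaAP, primesIn, filter_filter, sub_eq_iff_eq_add]
  rw [← sum_union]
  · refine sum_congr ?_ fun _ _ => rfl
    ext p
    simp only [mem_filter, mem_union, mem_Ioc]
    constructor
    · rintro ⟨⟨h, h'⟩, h''⟩
      rcases le_or_gt p ⌊x⌋₊ with hp | hp
      · exact Or.inr ⟨⟨h, hp⟩, h''⟩
      · exact Or.inl ⟨⟨hp, h'⟩, h''⟩
    · rintro (⟨⟨h, h'⟩, h''⟩ | ⟨⟨h, h'⟩, h''⟩)
      · exact ⟨⟨by omega, h'⟩, h''⟩
      · exact ⟨⟨h, h'.trans hle⟩, h''⟩
  · rw [disjoint_left]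
    intro p hp hp'
    simp only [mem_filter, mem_Ioc] at hp hp'
    omega

/-- Number of primes in a residue class in `(x, (1 + η) x]`. -/
theorem count_short (q : ℕ) [NeZero q] (a : ZMod q) (ha : IsUnit a) (η : ℝ) (hη : 0 < η) :
    Tendsto (fun x : ℝ => Real.log x / x * (((primesIn x ((1 + η) * x)).filter
      (fun p : ℕ => (p : ZMod q) = a)).card : ℝ)) atTop (𝓝 (η / (q.totient : ℝ))) := by
  have h := theta_short q a ha η hη
  have hl : Tendsto (fun x : ℝ => Real.log x / Real.log ((1 + η) * x)) atTop (𝓝 1) := by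
    have h1 : Tendsto (fun x : ℝ => Real.log (1 + η) / Real.log x + 1) atTop (𝓝 (0 + 1)) :=
      (Tendsto.div_atTop tendsto_const_nhds Real.tendsto_log_atTop).add tendsto_const_nhds
    rw [zero_add] at h1
    have h2 := h1.inv₀ one_ne_zero
    rw [inv_one] at h2
    refine h2.congr' ?_
    filter_upwards [eventually_gt_atTop (1 : ℝ)] with x hx
    have hlog : 0 < Real.log x := Real.log_pos hx
    have hx0 : x ≠ 0 := by linarith
    have he : (1 + η) ≠ 0 := by linarith
    rw [Real.log_mul he hx0]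
    field_simp
  have hlow : Tendsto (fun x : ℝ => Real.log x / Real.log ((1 + η) * x) *
      ((∑ p ∈ (primesIn x ((1 + η) * x)).filter
      (fun p : ℕ => (p : ZMod q) = a), Real.log p) / x)) atTop (𝓝 (η / (q.totient : ℝ))) := by
    have := hl.mul h
    rwa [one_mul] at this
  refine tendsto_of_tendsto_of_tendsto_of_le_of_le' hlow h ?_ ?_
  · filter_upwards [eventually_gt_atTop (1 : ℝ)] with x hx
    have hlog : 0 < Real.log x := Real.log_pos hx
    have hx0 : 0 < x := by linarith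
    have hlog2 : 0 < Real.log ((1 + η) * x) := Real.log_pos (by nlinarith)
    have hs : (∑ p ∈ (primesIn x ((1 + η) * x)).filter (fun p : ℕ => (p : ZMod q) = a),
        Real.log p) ≤ (((primesIn x ((1 + η) * x)).filter
        (fun p : ℕ => (p : ZMod q) = a)).card : ℝ) * Real.log ((1 + η) * x) := by
      rw [← nsmul_eq_mul]
      refine sum_le_card_nsmul _ _ _ fun p hp => ?_
      have hp := (mem_primesIn hx0.le (by nlinarith)).mp (mem_filter.mp hp).1
      exact Real.log_le_log (by exact_mod_cast hp.2.2.pos) hp.2.1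
    calc _ ≤ Real.log x / Real.log ((1 + η) * x) * ((((primesIn x ((1 + η) * x)).filter
        (fun p : ℕ => (p : ZMod q) = a)).card : ℝ) * Real.log ((1 + η) * x) / x) := by gcongr
      _ = _ := by field_simp
  · filter_upwards [eventually_gt_atTop (1 : ℝ)] with x hx
    have hlog : 0 < Real.log x := Real.log_pos hx
    have hx0 : 0 < x := by linarith
    have hs : (((primesIn x ((1 + η) * x)).filter
        (fun p : ℕ => (p : ZMod q) = a)).card : ℝ) * Real.log x ≤
        (∑ p ∈ (primesIn x ((1 + η) * x)).filter (fun p : ℕ => (p : ZMod q) = a),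
        Real.log p) := by
      rw [← nsmul_eq_mul]
      refine card_nsmul_le_sum _ _ _ fun p hp => ?_
      have hp := (mem_primesIn hx0.le (by nlinarith)).mp (mem_filter.mp hp).1
      exact Real.log_le_log hx0 hp.1.le
    rw [div_mul_eq_mul_div, mul_comm]
    gcongr

/-- Equidistribution of the primes of `(x, (1 + η) x]` in the reduced residue classes. -/
theorem equi_short {E : Type*} [NormedAddCommGroup E] [NormedSpace ℝ E] (q : ℕ) [NeZero q]
    (f : ZMod q → E) (η : ℝ) (hη : 0 < η) :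
    Tendsto (fun x : ℝ => (Real.log x / x) • ∑ p ∈ primesIn x ((1 + η) * x), f (p : ZMod q))
      atTop (𝓝 ((η / (q.totient : ℝ)) • ∑ u : (ZMod q)ˣ, f u)) := by
  have h : Tendsto (fun x : ℝ => ∑ u : (ZMod q)ˣ, (Real.log x / x *
      (((primesIn x ((1 + η) * x)).filter (fun p : ℕ => (p : ZMod q) = u)).card : ℝ)) • f u)
      atTop (𝓝 (∑ u : (ZMod q)ˣ, (η / (q.totient : ℝ)) • f u)) := by
    refine tendsto_finsetSum _ fun u _ => ?_
    exact (count_short q u u.isUnit η hη).smul_const _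
  rw [← Finset.smul_sum] at h
  refine h.congr' ?_
  filter_upwards [eventually_gt_atTop ((q : ℝ))] with x hx
  have hx0 : 0 < x := lt_of_le_of_lt (Nat.cast_nonneg q) hx
  simp only [mul_smul]
  rw [← Finset.smul_sum]
  congr 1
  have h1 : ∀ p ∈ primesIn x ((1 + η) * x), IsUnit (p : ZMod q) := by
    intro p hp
    rw [mem_primesIn hx0.le (by nlinarith)] at hp
    rw [ZMod.isUnit_iff_coprime]
    have hqp : q < p := by
      have := hx.trans hp.1
      exact_mod_cast this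
    exact (Nat.Prime.coprime_iff_not_dvd hp.2.2).mpr fun h =>
      absurd (Nat.le_of_dvd (Nat.pos_of_ne_zero (NeZero.ne q)) h) (by omega)
  have h2 : ∑ p ∈ primesIn x ((1 + η) * x), f (p : ZMod q) =
      ∑ a : ZMod q, (((primesIn x ((1 + η) * x)).filter
        (fun p : ℕ => (p : ZMod q) = a)).card : ℝ) • f a := by
    rw [← Finset.sum_fiberwise (primesIn x ((1 + η) * x)) (fun p : ℕ => (p : ZMod q))]
    refine sum_congr rfl fun a _ => ?_
    rw [Nat.cast_smul_eq_nsmul, ← sum_const]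
    exact sum_congr rfl fun p hp => by rw [(mem_filter.mp hp).2]
  rw [h2]
  have h3 : ∑ u : (ZMod q)ˣ, (((primesIn x ((1 + η) * x)).filter
        (fun p : ℕ => (p : ZMod q) = (u : ZMod q))).card : ℝ) • f (u : ZMod q) =
      ∑ a ∈ (univ : Finset (ZMod q)ˣ).map ⟨Units.val, Units.val_injective⟩,
        (((primesIn x ((1 + η) * x)).filter (fun p : ℕ => (p : ZMod q) = a)).card : ℝ) • f a := by
    rw [sum_map]
    rfl
  rw [h3]
  refine sum_subset (subset_univ _) fun a _ ha => ?_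
  have h4 : (primesIn x ((1 + η) * x)).filter (fun p : ℕ => (p : ZMod q) = a) = ∅ := by
    rw [filter_eq_empty_iff]
    intro p hp hpa
    apply ha
    rw [Finset.mem_map]
    exact ⟨(h1 p hp).unit, mem_univ _, by rw [← hpa]; rfl⟩
  rw [h4]
  simp

/-- Lower bound for the sum of `1/p` over the primes of `(x, (1 + η) x]` in a residue class. -/
theorem inv_sum_short (Q : ℕ) [NeZero Q] (a : ZMod Q) (ha : IsUnit a) (η : ℝ) (hη : 0 < η) :
    ∃ c : ℝ, 0 < c ∧ ∃ x0 : ℝ, 1 < x0 ∧ ∀ x : ℝ, x0 ≤ x →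
      c / Real.log x ≤ ∑ p ∈ (primesIn x ((1 + η) * x)).filter (fun p : ℕ => (p : ZMod Q) = a),
        (1 : ℝ) / p := by
  have h := count_short Q a ha η hη
  have hφ : (0 : ℝ) < Q.totient := by exact_mod_cast Nat.totient_pos.mpr (Nat.pos_of_ne_zero (NeZero.ne Q))
  have hpos : 0 < η / (Q.totient : ℝ) := by positivity
  have h1 := h.eventually (lt_mem_nhds (half_lt_self hpos))
  obtain ⟨x1, hx1⟩ := eventually_atTop.mp h1
  refine ⟨η / (Q.totient : ℝ) / 2 / (1 + η), by positivity, max x1 2,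
    lt_of_lt_of_le one_lt_two (le_max_right _ _), fun x hx => ?_⟩
  have hx2 : 2 ≤ x := (le_max_right _ _).trans hx
  have hx0 : 0 < x := by linarith
  have hlog : 0 < Real.log x := Real.log_pos (by linarith)
  have h2 := hx1 x ((le_max_left _ _).trans hx)
  have h3 : (((primesIn x ((1 + η) * x)).filter (fun p : ℕ => (p : ZMod Q) = a)).card : ℝ) *
      (1 / ((1 + η) * x)) ≤
      ∑ p ∈ (primesIn x ((1 + η) * x)).filter (fun p : ℕ => (p : ZMod Q) = a), (1 : ℝ) / p := by
    rw [← nsmul_eq_mul]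
    refine card_nsmul_le_sum _ _ _ fun p hp => ?_
    have hp := (mem_primesIn hx0.le (by nlinarith)).mp (mem_filter.mp hp).1
    exact one_div_le_one_div_of_le (by exact_mod_cast hp.2.2.pos) hp.2.1
  refine le_trans ?_ h3
  have h4 : η / (Q.totient : ℝ) / 2 * (x / Real.log x) ≤
      (((primesIn x ((1 + η) * x)).filter (fun p : ℕ => (p : ZMod Q) = a)).card : ℝ) := by
    have := mul_le_mul_of_nonneg_right h2.le (show 0 ≤ x / Real.log x by positivity)
    refine this.trans (le_of_eq ?_)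
    field_simp
  calc _ = η / (Q.totient : ℝ) / 2 * (x / Real.log x) * (1 / ((1 + η) * x)) := by field_simp
    _ ≤ _ := by gcongr

/-- Module K7 / E4: supply of primes `≡ 1 mod Q` outside a thin set, in the intervals
`[P (1 + η) ^ (2 i), P (1 + η) ^ (2 i + 1)]`. -/
theorem prime_supply (Q : ℕ) (hQ : 1 ≤ Q) (η : ℝ) (hη : 0 < η) (B : Set ℕ)
    (hB : ∃ C : ℝ, ∀ F : Finset ℕ, (∀ q ∈ F, q ∈ B) → ∑ q ∈ F, (1 : ℝ) / q ≤ C)
    (R : ℕ) (P0 : ℝ) :
    ∃ P : ℝ, P0 ≤ P ∧ 1 ≤ P ∧ ∃ q : ℕ → ℕ, ∀ i ≤ R, (q i).Prime ∧ q i ∉ B ∧ q i ≡ 1 [MOD Q] ∧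
      P * (1 + η) ^ (2 * i) ≤ (q i : ℝ) ∧ (q i : ℝ) ≤ P * (1 + η) ^ (2 * i + 1) := by
  have : NeZero Q := ⟨by omega⟩
  obtain ⟨C, hC⟩ := hB
  obtain ⟨c, hc, x0, hx0, hx⟩ := inv_sum_short Q 1 isUnit_one η hη
  have h1η : (1 : ℝ) < 1 + η := by linarith
  set L : ℝ := Real.log (1 + η) with hL
  have hLpos : 0 < L := Real.log_pos h1η
  -- the blocks
  set blkj : ℕ → Finset ℕ := fun j => (primesIn ((1 + η) ^ j) ((1 + η) * (1 + η) ^ j)).filter
    (fun p : ℕ => (p : ZMod Q) = 1) with hblkj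
  have hmem : ∀ j p, p ∈ blkj j → (1 + η) ^ j < (p : ℝ) ∧ (p : ℝ) ≤ (1 + η) ^ (j + 1) ∧ p.Prime ∧
      p ≡ 1 [MOD Q] := by
    intro j p hp
    rw [hblkj, mem_filter, mem_primesIn (by positivity) (by positivity)] at hp
    refine ⟨hp.1.1, by rw [pow_succ']; exact hp.1.2.1, hp.1.2.2, ?_⟩
    rw [← ZMod.natCast_eq_natCast_iff]
    simpa using hp.2
  obtain ⟨k0, hk0⟩ : ∃ k0 : ℕ, max (max P0 1) x0 ≤ (1 + η) ^ k0 := by
    obtain ⟨n, hn⟩ := pow_unbounded_of_one_lt (max (max P0 1) x0) h1η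
    exact ⟨n, hn.le⟩
  by_contra hcon
  have hno : ∀ k, k0 ≤ k → ∃ i ≤ R, ∀ p ∈ blkj (k + 2 * i), p ∈ B := by
    intro k hk
    by_contra hneg
    push Not at hneg
    apply hcon
    have hmono : (1 + η) ^ k0 ≤ (1 + η) ^ k := pow_le_pow_right₀ h1η.le hk
    refine ⟨(1 + η) ^ k, ((le_max_left _ _).trans (le_max_left _ _)).trans (hk0.trans hmono),
      ((le_max_right _ _).trans (le_max_left _ _)).trans (hk0.trans hmono), ?_⟩
    have hch : ∀ i, ∃ p : ℕ, i ≤ R → p ∈ blkj (k + 2 * i) ∧ p ∉ B := by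
      intro i
      by_cases hi : i ≤ R
      · obtain ⟨p, hp, hp'⟩ := hneg i hi
        exact ⟨p, fun _ => ⟨hp, hp'⟩⟩
      · exact ⟨0, fun h => absurd h hi⟩
    choose q hq using hch
    refine ⟨q, fun i hi => ?_⟩
    obtain ⟨h1, h2⟩ := hq i hi
    obtain ⟨h3, h4, h5, h6⟩ := hmem _ _ h1
    refine ⟨h5, h2, h6, ?_, ?_⟩
    · rw [← pow_add]
      exact h3.le
    · rw [← pow_add]
      exact h4
  choose! ι hι1 hι2 using hno
  -- the chosen blocks
  set j : ℕ → ℕ := fun n => (k0 + n * (2 * R + 1)) + 2 * ι (k0 + n * (2 * R + 1)) with hj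
  have hkn : ∀ n, k0 ≤ k0 + n * (2 * R + 1) := fun n => Nat.le_add_right _ _
  have hj1 : ∀ n, k0 + n * (2 * R + 1) ≤ j n := fun n => Nat.le_add_right _ _
  have hj2 : ∀ n, j n < k0 + (n + 1) * (2 * R + 1) := by
    intro n
    have := hι1 _ (hkn n)
    simp only [hj]
    nlinarith
  have hdisj : ∀ n n', n < n' → j n + 1 ≤ j n' := by
    intro n n' hn
    have h1 := hj1 n'
    have h2 := hj2 n
    have h3 : (n + 1) * (2 * R + 1) ≤ n' * (2 * R + 1) := Nat.mul_le_mul_right _ hn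
    omega
  have hpd : ∀ N : ℕ, Set.PairwiseDisjoint (↑(range N)) (fun n => blkj (j n)) := by
    intro N n _ n' _ hne
    rw [Function.onFun, disjoint_left]
    intro p hp hp'
    rcases lt_or_gt_of_ne hne with h | h
    · have h1 := (hmem _ _ hp).2.1
      have h2 := (hmem _ _ hp').1
      have h3 : (1 + η) ^ (j n + 1) ≤ (1 + η) ^ (j n') := pow_le_pow_right₀ h1η.le (hdisj _ _ h)
      linarith
    · have h1 := (hmem _ _ hp').2.1
      have h2 := (hmem _ _ hp).1
      have h3 : (1 + η) ^ (j n' + 1) ≤ (1 + η) ^ (j n) := pow_le_pow_right₀ h1η.le (hdisj _ _ h)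
      linarith
  have hk0pos : 1 ≤ k0 := by
    by_contra h
    have : k0 = 0 := by omega
    rw [this, pow_zero] at hk0
    have := (le_max_right (max P0 1) x0).trans hk0
    linarith
  have hlow : ∀ n : ℕ, c / L / ((k0 + 2 * R + 1 : ℕ) : ℝ) * (1 / ((n : ℝ) + 1)) ≤
      ∑ p ∈ blkj (j n), (1 : ℝ) / p := by
    intro n
    have h1 : x0 ≤ (1 + η) ^ (j n) :=
      ((le_max_right _ _).trans hk0).trans (pow_le_pow_right₀ h1η.le ((hkn n).trans (hj1 n)))
    have h2 := hx _ h1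
    refine le_trans ?_ h2
    rw [Real.log_pow, ← hL]
    have hjpos : (0 : ℝ) < j n := by
      have := (hk0pos.trans (hkn n)).trans (hj1 n)
      exact_mod_cast this
    have h3 : (j n : ℝ) ≤ ((k0 + 2 * R + 1 : ℕ) : ℝ) * ((n : ℝ) + 1) := by
      have h4 := (hj2 n).le
      have h5 : k0 + (n + 1) * (2 * R + 1) ≤ (k0 + 2 * R + 1) * (n + 1) := by nlinarith
      exact_mod_cast h4.trans h5
    calc _ = c / L / (((k0 + 2 * R + 1 : ℕ) : ℝ) * ((n : ℝ) + 1)) := by
          field_simp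
      _ ≤ c / L / (j n : ℝ) := by gcongr
      _ = _ := by field_simp
  have hsum : ∀ N : ℕ, c / L / ((k0 + 2 * R + 1 : ℕ) : ℝ) *
      ∑ n ∈ range N, (1 / ((n : ℝ) + 1)) ≤ C := by
    intro N
    have h1 := hC ((range N).biUnion fun n => blkj (j n)) (by
      intro q hq
      rw [mem_biUnion] at hq
      obtain ⟨n, _, hn⟩ := hq
      exact hι2 _ (hkn n) q hn)
    rw [sum_biUnion (hpd N)] at h1
    rw [mul_sum]
    exact (sum_le_sum fun n _ => hlow n).trans h1
  have hdiv := Real.tendsto_sum_range_one_div_nat_succ_atTop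
  have hcc : 0 < c / L / ((k0 + 2 * R + 1 : ℕ) : ℝ) := by positivity
  obtain ⟨N, hN⟩ := (hdiv.eventually (eventually_gt_atTop
    (C / (c / L / ((k0 + 2 * R + 1 : ℕ) : ℝ))))).exists
  have h1 := hsum N
  rw [div_lt_iff₀ hcc] at hN
  linarith

end Pool.Agent.S7e
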