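import Pool.Agent.S7e.Lio

/-!
S7e Log: the logarithmic form of short interval smallness.
-/

set_option autoImplicit false

namespace Pool.Agent.S7e

open Finset Filter Topology Pool.Agent.Mrd

/-- the windows `[m, m + H)` -/
theorem si_win (f : ℕ → ℂ) (hf : ∀ n, ‖f n‖ ≤ 1) (h : SI f) (w : ℂ) (hw : ‖w‖ = 1) (ε : ℝ)
    (hε : 0 < ε) : ∃ H₀ : ℕ, ∀ H : ℕ, H₀ ≤ H → ∃ N₀ : ℕ, ∀ N : ℕ, N₀ ≤ N →
      ∑ m ∈ range N, ‖∑ h ∈ range H, w ^ h * f (m + h)‖ ≤ ε * N * H := by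
  obtain ⟨H₀, hH₀⟩ := h w hw (ε / 2) (by positivity)
  refine ⟨H₀, fun H hH => ?_⟩
  obtain ⟨N₀, hN₀⟩ := hH₀ H hH
  refine ⟨N₀ + 1 + ⌈2 / ε⌉₊, fun N hN => ?_⟩
  obtain ⟨N', rfl⟩ : ∃ N', N = N' + 1 := ⟨N - 1, by omega⟩
  have h1 := hN₀ N' (by omega)
  have hε2 : 2 ≤ ε * ((N' + 1 : ℕ) : ℝ) := by
    have h2 : 2 / ε ≤ ((N' + 1 : ℕ) : ℝ) :=
      (Nat.le_ceil _).trans (by exact_mod_cast (by omega : ⌈2 / ε⌉₊ ≤ N' + 1))
    rw [div_le_iff₀ hε] at h2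
    linarith
  have hw0 : w ≠ 0 := by
    rintro rfl
    simp at hw
  have hterm : ∀ m, ‖∑ h ∈ range H, w ^ h * f (m + 1 + h)‖ = ‖∑ n ∈ Ioc m (m + H), w ^ n * f n‖ := by
    intro m
    rw [Cor_ioc]
    have : ∑ j ∈ range H, w ^ (m + j + 1) * f (m + j + 1) =
        w ^ (m + 1) * ∑ j ∈ range H, w ^ j * f (m + 1 + j) := by
      rw [Finset.mul_sum]
      refine Finset.sum_congr rfl fun j _ => ?_
      rw [show m + 1 + j = m + j + 1 by omega]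
      ring
    rw [this, norm_mul, norm_pow, hw, one_pow, one_mul]
  rw [Finset.sum_range_succ']
  have h0 : ‖∑ h ∈ range H, w ^ h * f (0 + h)‖ ≤ H := by
    refine (norm_sum_le _ _).trans ?_
    calc ∑ h ∈ range H, ‖w ^ h * f (0 + h)‖ ≤ ∑ h ∈ range H, (1 : ℝ) :=
          Finset.sum_le_sum fun n _ => by
            rw [norm_mul, norm_pow, hw, one_pow, one_mul]; exact hf _
      _ = H := by simp
  rw [Finset.sum_congr rfl (fun m _ => hterm m)]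
  have hH0 : (0 : ℝ) ≤ H := Nat.cast_nonneg _
  have h3 : (H : ℝ) ≤ ε / 2 * ((N' + 1 : ℕ) : ℝ) * H := by
    have := mul_le_mul_of_nonneg_right hε2 hH0
    linarith
  have h4 : ε / 2 * (N' : ℝ) * H ≤ ε / 2 * ((N' + 1 : ℕ) : ℝ) * H := by
    have : (N' : ℝ) ≤ ((N' + 1 : ℕ) : ℝ) := by push_cast; linarith
    exact mul_le_mul_of_nonneg_right (mul_le_mul_of_nonneg_left this (by positivity)) hH0
  linarith

/-- logarithmic form on `[N e^{-A}, N e^A]` -/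
theorem si_log (f : ℕ → ℂ) (hf : ∀ n, ‖f n‖ ≤ 1) (h : SI f) (w : ℂ) (hw : ‖w‖ = 1) (A ε : ℝ)
    (hε : 0 < ε) : ∃ H₀ : ℕ, ∀ H : ℕ, H₀ ≤ H → ∃ N₀ : ℕ, ∀ N : ℕ, N₀ ≤ N → ∀ I : Finset ℕ,
      (∀ n ∈ I, (N : ℝ) * Real.exp (-A) ≤ n ∧ (n : ℝ) ≤ N * Real.exp A) →
      ∑ n ∈ I, (n : ℝ)⁻¹ * ‖(H : ℂ)⁻¹ * ∑ h ∈ range H, w ^ h * f (n + h)‖ ^ 2 ≤ ε := by
  have hA : 0 < Real.exp A := Real.exp_pos _
  set δ : ℝ := ε / (Real.exp A * (2 * Real.exp A)) with hδ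
  have hδ0 : 0 < δ := by positivity
  obtain ⟨H₀, hH₀⟩ := si_win f hf h w hw δ hδ0
  refine ⟨H₀ + 1, fun H hH => ?_⟩
  have hH1 : 1 ≤ H := by omega
  have hHr : (0 : ℝ) < H := by exact_mod_cast hH1
  obtain ⟨N₁, hN₁⟩ := hH₀ H (by omega)
  refine ⟨⌈((N₁ + 1 : ℕ) : ℝ) / Real.exp A⌉₊ + 1, fun N hN I hI => ?_⟩
  have hN1 : 1 ≤ N := by omega
  have hNr : (0 : ℝ) < N := by exact_mod_cast hN1
  have hNA : ((N₁ + 1 : ℕ) : ℝ) ≤ N * Real.exp A := by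
    have h1 : ((N₁ + 1 : ℕ) : ℝ) / Real.exp A ≤ N :=
      (Nat.le_ceil _).trans (by exact_mod_cast (by omega : _ ≤ N))
    rwa [div_le_iff₀ hA] at h1
  set X : ℕ := ⌊(N : ℝ) * Real.exp A⌋₊ + 1 with hX
  have hXN : N₁ ≤ X := by
    have : N₁ + 1 ≤ ⌊(N : ℝ) * Real.exp A⌋₊ := Nat.le_floor hNA
    omega
  have hXle : (X : ℝ) ≤ 2 * (N * Real.exp A) := by
    have h1 : ((⌊(N : ℝ) * Real.exp A⌋₊ : ℕ) : ℝ) ≤ N * Real.exp A := Nat.floor_le (by positivity)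
    have h2 : (1 : ℝ) ≤ N * Real.exp A := by
      refine le_trans ?_ hNA
      push_cast
      linarith [Nat.cast_nonneg (α := ℝ) N₁]
    rw [hX]; push_cast; linarith
  have hIX : I ⊆ range X := by
    intro n hn
    rw [Finset.mem_range, hX]
    have := Nat.le_floor (hI n hn).2
    omega
  have hb : ∀ n : ℕ, ‖∑ h ∈ range H, w ^ h * f (n + h)‖ ≤ H := by
    intro n
    refine (norm_sum_le _ _).trans ?_
    calc ∑ h ∈ range H, ‖w ^ h * f (n + h)‖ ≤ ∑ h ∈ range H, (1 : ℝ) :=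
          Finset.sum_le_sum fun n _ => by
            rw [norm_mul, norm_pow, hw, one_pow, one_mul]; exact hf _
      _ = H := by simp
  calc ∑ n ∈ I, (n : ℝ)⁻¹ * ‖(H : ℂ)⁻¹ * ∑ h ∈ range H, w ^ h * f (n + h)‖ ^ 2
      ≤ ∑ n ∈ I, (Real.exp A / N) * ((H : ℝ)⁻¹ * ‖∑ h ∈ range H, w ^ h * f (n + h)‖) := by
        refine Finset.sum_le_sum fun n hn => ?_
        have hn1 := (hI n hn).1
        have hnpos : (0 : ℝ) < n := lt_of_lt_of_le (by positivity) hn1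
        have h1 : (n : ℝ)⁻¹ ≤ Real.exp A / N := by
          rw [inv_eq_one_div, div_le_div_iff₀ hnpos hNr, one_mul]
          have : Real.exp A * ((N : ℝ) * Real.exp (-A)) = N := by
            rw [mul_comm (N : ℝ), ← mul_assoc, ← Real.exp_add, add_neg_cancel, Real.exp_zero, one_mul]
          calc (N : ℝ) = Real.exp A * ((N : ℝ) * Real.exp (-A)) := this.symm
            _ ≤ Real.exp A * n := mul_le_mul_of_nonneg_left hn1 hA.le
        have h2 : ‖(H : ℂ)⁻¹ * ∑ h ∈ range H, w ^ h * f (n + h)‖ =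
            (H : ℝ)⁻¹ * ‖∑ h ∈ range H, w ^ h * f (n + h)‖ := by
          rw [norm_mul, norm_inv, Complex.norm_natCast]
        have h3 : (H : ℝ)⁻¹ * ‖∑ h ∈ range H, w ^ h * f (n + h)‖ ≤ 1 := by
          rw [inv_mul_le_iff₀ hHr, mul_one]
          exact hb n
        have h4 : 0 ≤ (H : ℝ)⁻¹ * ‖∑ h ∈ range H, w ^ h * f (n + h)‖ := by positivity
        rw [h2]
        refine mul_le_mul h1 ?_ (sq_nonneg _) (by positivity)
        rw [sq]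
        exact mul_le_of_le_one_left h4 h3
    _ ≤ ∑ n ∈ range X, (Real.exp A / N) * ((H : ℝ)⁻¹ * ‖∑ h ∈ range H, w ^ h * f (n + h)‖) :=
        Finset.sum_le_sum_of_subset_of_nonneg hIX fun _ _ _ => by positivity
    _ = (Real.exp A / N) * ((H : ℝ)⁻¹ * ∑ n ∈ range X, ‖∑ h ∈ range H, w ^ h * f (n + h)‖) := by
        rw [Finset.mul_sum, Finset.mul_sum]
    _ ≤ (Real.exp A / N) * ((H : ℝ)⁻¹ * (δ * X * H)) := by
        refine mul_le_mul_of_nonneg_left (mul_le_mul_of_nonneg_left (hN₁ X hXN) ?_) ?_ <;> positivity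
    _ = (Real.exp A / N) * (δ * X) := by field_simp
    _ ≤ (Real.exp A / N) * (δ * (2 * (N * Real.exp A))) := by
        refine mul_le_mul_of_nonneg_left (mul_le_mul_of_nonneg_left hXle hδ0.le) ?_
        positivity
    _ = ε := by rw [hδ]; field_simp

end Pool.Agent.S7e
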