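import Pool.Agent.S7e.Nrg
import Pool.Agent.Sar.N1
import Pool.Agent.SWz.Main

/-!
E3 of the S7 page (MP_13664e_an): additive energy of the primes of a dyadic block, and its use
for the torsion case of D4.
-/

set_option autoImplicit false

namespace Pool.Agent.S7e

open Finset Filter Topology Pool.Agent.Sar

/-- number of pairs of primes of the block `m` with difference `h` -/
def rm (m : ℕ) (h : ℤ) : ℕ := ((blk m ×ˢ blk m).filter fun x => (x.2 : ℤ) - (x.1 : ℤ) = h).card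

private lemma mem_blk' {m p : ℕ} : p ∈ blk m ↔ (2 ^ m ≤ p ∧ p < 2 ^ (m + 1)) ∧ p.Prime := by
  rw [blk, mem_filter, mem_Ico]

private lemma blk_sub_PP {m : ℕ} (hm : 2 ≤ m) : blk m ⊆ PP (2 ^ m) := by
  intro p hp
  rw [mem_blk'] at hp
  rw [mem_PP]
  obtain ⟨⟨h1, h2⟩, h3⟩ := hp
  refine ⟨⟨lt_of_le_of_ne h1 ?_, ?_⟩, h3⟩
  · intro h
    rw [← h] at h3
    have h4 := (Nat.Prime.eq_one_of_pow h3)
    omega
  · rw [pow_succ] at h2
    omega

private lemma rm_le_sq (m : ℕ) (S : Finset ℤ) : ∑ h ∈ S, (rm m h : ℝ) ^ 2 ≤ pib m ^ 4 := by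
  have h1 : ∀ h ∈ S, (rm m h : ℝ) ≤ pib m ^ 2 := by
    intro h _
    have : rm m h ≤ (blk m ×ˢ blk m).card := card_filter_le _ _
    rw [card_product] at this
    have h2 : (rm m h : ℝ) ≤ ((blk m).card * (blk m).card : ℕ) := by exact_mod_cast this
    rw [pib, sq]
    push_cast at h2
    exact h2
  have h2 : ∑ h ∈ S, (rm m h : ℝ) ≤ pib m ^ 2 := by
    have h3 : ∑ h ∈ S, rm m h ≤ (blk m ×ˢ blk m).card := by
      unfold rm
      rw [← card_biUnion]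
      · exact card_le_card fun x hx => by
          rw [mem_biUnion] at hx
          obtain ⟨h, _, hx⟩ := hx
          exact (mem_filter.1 hx).1
      · intro a _ b _ hab
        rw [Function.onFun, disjoint_left]
        intro x hx hy
        exact hab ((mem_filter.1 hx).2.symm.trans (mem_filter.1 hy).2)
    rw [card_product] at h3
    have h4 : ((∑ h ∈ S, rm m h : ℕ) : ℝ) ≤ ((blk m).card * (blk m).card : ℕ) := by
      exact_mod_cast h3
    rw [pib, sq]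
    push_cast at h4
    exact h4
  calc ∑ h ∈ S, (rm m h : ℝ) ^ 2 ≤ ∑ h ∈ S, pib m ^ 2 * (rm m h : ℝ) := by
        refine sum_le_sum fun h hh => ?_
        rw [sq]
        exact mul_le_mul_of_nonneg_right (h1 h hh) (Nat.cast_nonneg _)
    _ = pib m ^ 2 * ∑ h ∈ S, (rm m h : ℝ) := by rw [mul_sum]
    _ ≤ pib m ^ 2 * pib m ^ 2 := mul_le_mul_of_nonneg_left h2 (by positivity)
    _ = pib m ^ 4 := by ring

private lemma rm_zero (m : ℕ) : (rm m 0 : ℝ) ≤ pib m := by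
  unfold rm pib
  refine Nat.cast_le.2 (card_le_card_of_injOn (fun x => x.1) ?_ ?_)
  · intro x hx
    exact (mem_product.1 (mem_filter.1 hx).1).1
  · intro x hx y hy hxy
    have h1 := (mem_filter.1 hx).2
    have h2 := (mem_filter.1 hy).2
    simp only at hxy
    ext
    · exact hxy
    · rw [hxy] at h1
      have : (x.2 : ℤ) = y.2 := by linarith
      exact_mod_cast this

private lemma rm_pos {m k : ℕ} (hm : 2 ≤ m) : rm m (k : ℤ) ≤ rr (2 ^ m) k := by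
  unfold rm rr
  refine card_le_card_of_injOn (fun x => x.1) ?_ ?_
  · intro x hx
    have hx' := mem_filter.1 hx
    have hp := mem_product.1 hx'.1
    have h1 : x.1 + k = x.2 := by
      have := hx'.2
      have h3 : ((x.1 + k : ℕ) : ℤ) = (x.2 : ℤ) := by push_cast; linarith
      exact_mod_cast h3
    rw [mem_coe, mem_filter]
    refine ⟨blk_sub_PP hm hp.1, ?_⟩
    rw [h1]
    exact blk_sub_PP hm hp.2
  · intro x hx y hy hxy
    have h1 := (mem_filter.1 hx).2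
    have h2 := (mem_filter.1 hy).2
    simp only at hxy
    ext
    · exact hxy
    · rw [hxy] at h1
      have : (x.2 : ℤ) = y.2 := by linarith
      exact_mod_cast this

private lemma rm_neg (m : ℕ) (h : ℤ) : rm m (-h) = rm m h := by
  unfold rm
  refine card_bij (fun x _ => (x.2, x.1)) ?_ ?_ ?_
  · intro x hx
    rw [mem_filter, mem_product] at hx ⊢
    refine ⟨⟨hx.1.2, hx.1.1⟩, ?_⟩
    have := hx.2
    simp only
    linarith
  · intro x _ y _ hxy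
    rw [Prod.mk.injEq] at hxy
    exact Prod.ext hxy.2 hxy.1
  · intro x hx
    rw [mem_filter, mem_product] at hx
    refine ⟨(x.2, x.1), ?_, rfl⟩
    rw [mem_filter, mem_product]
    refine ⟨⟨hx.1.2, hx.1.1⟩, ?_⟩
    have := hx.2
    simp only
    linarith

private lemma Icc_sum (F : ℤ → ℝ) (P : ℕ) :
    ∑ h ∈ Icc (-(P : ℤ)) P, F h = F 0 + ∑ k ∈ Icc 1 P, (F (k : ℤ) + F (-(k : ℤ))) := by
  induction P with
  | zero => simp
  | succ P ih =>
    have h1 : Icc (-((P + 1 : ℕ) : ℤ)) ((P + 1 : ℕ) : ℤ) =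
        insert ((P + 1 : ℕ) : ℤ) (insert (-((P + 1 : ℕ) : ℤ)) (Icc (-(P : ℤ)) P)) := by
      ext z
      simp only [mem_Icc, mem_insert]
      push_cast
      omega
    rw [h1, sum_insert, sum_insert, ih, sum_Icc_succ_top (by omega : 1 ≤ P + 1)]
    · ring
    · simp only [mem_Icc]
      push_cast
      omega
    · simp only [mem_insert, mem_Icc]
      push_cast
      omega

/-- **E3**: the additive energy of the primes of a dyadic block -/
theorem E3 : ∃ C : ℝ, 0 < C ∧ ∀ m : ℕ,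
    ∑ h ∈ Icc (-((2 ^ m : ℕ) : ℤ)) ((2 ^ m : ℕ) : ℤ), (rm m h : ℝ) ^ 2 ≤
      C * pib m ^ 4 / 2 ^ m := by
  obtain ⟨C, hC, hE⟩ := energy
  obtain ⟨c, hc, hlow⟩ := pib_lower Pool.Agent.SWz.swlam
  -- `2 ^ m ≥ m ^ 2 / c ^ 2` eventually
  have hev : ∀ᶠ m : ℕ in atTop, (m : ℝ) ^ 2 ≤ c ^ 2 * 2 ^ m := by
    have h1 : Tendsto (fun m : ℕ => (m : ℝ) ^ 2 / (2 : ℝ) ^ m) atTop (𝓝 0) :=
      tendsto_pow_const_div_const_pow_of_one_lt 2 (by norm_num)
    filter_upwards [h1.eventually_le_const (show (0 : ℝ) < c ^ 2 by positivity)] with m hm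
    rwa [div_le_iff₀ (by positivity)] at hm
  obtain ⟨m0, hm0⟩ := eventually_atTop.1 (hlow.and (hev.and (eventually_ge_atTop 2)))
  have hl2 : 0 < Real.log 2 := Real.log_pos (by norm_num)
  refine ⟨2 ^ m0 + 1 + 2 * C / (c ^ 4 * (Real.log 2) ^ 4), by positivity, fun m => ?_⟩
  have hpib : 0 ≤ pib m := by unfold pib; positivity
  have hD : 0 ≤ 2 * C / (c ^ 4 * (Real.log 2) ^ 4) := by positivity
  rcases lt_or_ge m m0 with hm | hm
  · refine (rm_le_sq m _).trans ?_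
    rw [le_div_iff₀ (by positivity)]
    have h1 : (2 : ℝ) ^ m ≤ 2 ^ m0 := pow_le_pow_right₀ (by norm_num) hm.le
    have h2 : (0 : ℝ) ≤ pib m ^ 4 := by positivity
    nlinarith
  · obtain ⟨h1, h2, h3⟩ := hm0 m hm
    have hmr : (0 : ℝ) < m := by exact_mod_cast (by omega : 0 < m)
    have h2m : (0 : ℝ) < 2 ^ m := by positivity
    have hP : 2 ≤ 2 ^ m := by
      calc 2 = 2 ^ 1 := by norm_num
        _ ≤ 2 ^ m := Nat.pow_le_pow_right (by norm_num) (by omega)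
    rw [Icc_sum]
    have hA : (rm m 0 : ℝ) ^ 2 ≤ pib m ^ 2 := pow_le_pow_left₀ (Nat.cast_nonneg _) (rm_zero m) 2
    have hB : ∑ k ∈ Icc (1 : ℕ) (2 ^ m), ((rm m ((k : ℕ) : ℤ) : ℝ) ^ 2 + (rm m (-((k : ℕ) : ℤ)) : ℝ) ^ 2) ≤
        2 * (C * ((2 : ℝ) ^ m) ^ 3 / (m * Real.log 2) ^ 4) := by
      have h4 := hE (2 ^ m) hP
      have h5 : Real.log ((2 ^ m : ℕ) : ℝ) = m * Real.log 2 := by
        push_cast
        rw [Real.log_pow]
      rw [h5] at h4
      push_cast at h4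
      have h4' : 2 * ∑ k ∈ Icc 1 (2 ^ m), (rr (2 ^ m) k : ℝ) ^ 2 ≤
          2 * (C * ((2 : ℝ) ^ m) ^ 3 / (m * Real.log 2) ^ 4) := by linarith
      refine le_trans ?_ h4'
      rw [mul_sum]
      refine sum_le_sum fun k _ => ?_
      rw [rm_neg]
      have h6 : (rm m (k : ℤ) : ℝ) ≤ (rr (2 ^ m) k : ℝ) := by exact_mod_cast rm_pos h3
      have h7 : (rm m (k : ℤ) : ℝ) ^ 2 ≤ (rr (2 ^ m) k : ℝ) ^ 2 :=
        pow_le_pow_left₀ (Nat.cast_nonneg _) h6 2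
      linarith
    -- pib ^ 2 ≤ pib ^ 4 / 2 ^ m
    have hlow' : c * 2 ^ m / m ≤ pib m := h1
    have h8 : (2 : ℝ) ^ m ≤ pib m ^ 2 := by
      have h9 : (c * 2 ^ m / m) ^ 2 ≤ pib m ^ 2 := pow_le_pow_left₀ (by positivity) hlow' 2
      refine le_trans ?_ h9
      rw [div_pow, le_div_iff₀ (by positivity)]
      nlinarith [mul_le_mul_of_nonneg_left h2 h2m.le]
    have h10 : pib m ^ 2 ≤ pib m ^ 4 / 2 ^ m := by
      rw [le_div_iff₀ h2m]
      nlinarith [mul_le_mul_of_nonneg_left h8 (sq_nonneg (pib m))]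
    have h11 : ((2 : ℝ) ^ m) ^ 3 / (m * Real.log 2) ^ 4 ≤
        (1 / (c ^ 4 * (Real.log 2) ^ 4)) * (pib m ^ 4 / 2 ^ m) := by
      have h9 : (c * 2 ^ m / m) ^ 4 ≤ pib m ^ 4 := pow_le_pow_left₀ (by positivity) hlow' 4
      have h12 : ((2 : ℝ) ^ m) ^ 3 / (m * Real.log 2) ^ 4 =
          (1 / (c ^ 4 * (Real.log 2) ^ 4)) * ((c * 2 ^ m / m) ^ 4 / 2 ^ m) := by
        field_simp
      rw [h12]
      gcongr
    have h13 : 0 ≤ pib m ^ 4 / 2 ^ m := by positivity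
    refine (add_le_add (hA.trans h10) hB).trans ?_
    calc pib m ^ 4 / 2 ^ m + 2 * (C * ((2 : ℝ) ^ m) ^ 3 / (m * Real.log 2) ^ 4)
        = pib m ^ 4 / 2 ^ m + 2 * C * (((2 : ℝ) ^ m) ^ 3 / (m * Real.log 2) ^ 4) := by ring
      _ ≤ pib m ^ 4 / 2 ^ m +
          2 * C * ((1 / (c ^ 4 * (Real.log 2) ^ 4)) * (pib m ^ 4 / 2 ^ m)) := by
          gcongr
      _ = (1 + 2 * C / (c ^ 4 * (Real.log 2) ^ 4)) * (pib m ^ 4 / 2 ^ m) := by ring
      _ ≤ (2 ^ m0 + 1 + 2 * C / (c ^ 4 * (Real.log 2) ^ 4)) * (pib m ^ 4 / 2 ^ m) := by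
          refine mul_le_mul_of_nonneg_right ?_ h13
          have : (0 : ℝ) < 2 ^ m0 := by positivity
          linarith
      _ = (2 ^ m0 + 1 + 2 * C / (c ^ 4 * (Real.log 2) ^ 4)) * pib m ^ 4 / 2 ^ m := by ring

/-- **use of E3** (D4, torsion case): if the squares of `ρ` have mean zero, their averages over
the differences of the primes of a dyadic block, dilated by `e`, tend to zero. -/
theorem E3_use (ρ : ℤ → ℝ) (B : ℝ) (hB : ∀ k, |ρ k| ≤ B) (hs : ∀ k, ρ (-k) ^ 2 = ρ k ^ 2)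
    (hW : Tendsto (fun P : ℕ => (∑ n ∈ range P, ρ (n : ℤ) ^ 2) / P) atTop (𝓝 0))
    (e : ℕ) (he : 1 ≤ e) :
    Tendsto (fun m : ℕ => (∑ q ∈ blk m, ∑ q' ∈ blk m, ρ (((q' : ℤ) - (q : ℤ)) * e) ^ 2) /
      pib m ^ 2) atTop (𝓝 0) := by
  obtain ⟨C, hC, hU⟩ := use
  obtain ⟨c, hc, hlow⟩ := pib_lower Pool.Agent.SWz.swlam
  obtain ⟨B', hB'⟩ : ∃ B', B' = B + 1 := ⟨_, rfl⟩
  have hB0 : 0 ≤ B := (abs_nonneg _).trans (hB 0)
  have hB'0 : 0 < B' := by rw [hB']; linarith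
  have hl2 : 0 < Real.log 2 := Real.log_pos (by norm_num)
  -- the averages along multiples of `e`
  obtain ⟨T, hT⟩ : ∃ T : ℕ → ℝ, T = fun P : ℕ => (∑ n ∈ range P, ρ (n : ℤ) ^ 2) / P := ⟨_, rfl⟩
  rw [← hT] at hW
  have hT0 : ∀ P, 0 ≤ T P := fun P => by
    rw [hT]
    positivity
  have hF : ∀ P : ℕ, 1 ≤ P → (∑ k ∈ Icc (-(P : ℤ)) P, ((ρ (-k * e) / B') ^ 2) ^ 2) / P ≤
      4 * e / B' ^ 2 * T (e * P + 1) := by
    intro P hP
    have hP0 : (0 : ℝ) < P := by exact_mod_cast hP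
    have he0 : (0 : ℝ) < e := by exact_mod_cast he
    have h1 : ∀ k : ℤ, ((ρ (-k * e) / B') ^ 2) ^ 2 ≤ ρ (-k * e) ^ 2 / B' ^ 2 := by
      intro k
      have h2 : ρ (-k * e) ^ 2 ≤ B' ^ 2 := by
        rw [← sq_abs]
        exact pow_le_pow_left₀ (abs_nonneg _) ((hB _).trans (by rw [hB']; linarith)) 2
      rw [div_pow, sq (ρ (-k * e) ^ 2 / B' ^ 2)]
      have h3 : ρ (-k * e) ^ 2 / B' ^ 2 ≤ 1 := by
        rw [div_le_one (by positivity)]
        exact h2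
      have h4 : 0 ≤ ρ (-k * e) ^ 2 / B' ^ 2 := by positivity
      nlinarith
    have h2 : ∑ k ∈ Icc (-(P : ℤ)) P, ((ρ (-k * e) / B') ^ 2) ^ 2 ≤
        ∑ k ∈ Icc (-(P : ℤ)) P, ρ (-k * e) ^ 2 / B' ^ 2 := sum_le_sum fun k _ => h1 k
    rw [Icc_sum (fun k => ρ (-k * e) ^ 2 / B' ^ 2)] at h2
    have h3 : ∑ k ∈ Icc 1 P, (ρ (-(k : ℤ) * e) ^ 2 / B' ^ 2 + ρ (- -(k : ℤ) * e) ^ 2 / B' ^ 2) =
        2 / B' ^ 2 * ∑ k ∈ Icc 1 P, ρ ((k * e : ℕ) : ℤ) ^ 2 := by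
      rw [mul_sum]
      refine sum_congr rfl fun k _ => ?_
      rw [neg_neg, neg_mul, hs]
      push_cast
      ring
    have h4 : ρ 0 ^ 2 + ∑ k ∈ Icc 1 P, ρ ((k * e : ℕ) : ℤ) ^ 2 ≤
        ∑ n ∈ range (e * P + 1), ρ (n : ℤ) ^ 2 := by
      have h5 : ρ 0 ^ 2 + ∑ k ∈ Icc 1 P, ρ ((k * e : ℕ) : ℤ) ^ 2 =
          ∑ k ∈ range (P + 1), ρ ((k * e : ℕ) : ℤ) ^ 2 := by
        rw [range_eq_Ico, sum_eq_sum_Ico_succ_bot (by omega)]
        simp only [zero_mul, Nat.cast_zero, zero_add]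
        rfl
      rw [h5]
      have h6 : ∑ k ∈ range (P + 1), ρ ((k * e : ℕ) : ℤ) ^ 2 =
          ∑ n ∈ (range (P + 1)).image (fun k => k * e), ρ (n : ℤ) ^ 2 := by
        rw [sum_image]
        intro a _ b _ hab
        exact Nat.eq_of_mul_eq_mul_right (by omega) hab
      rw [h6]
      refine sum_le_sum_of_subset_of_nonneg ?_ fun _ _ _ => sq_nonneg _
      intro n hn
      rw [mem_image] at hn
      obtain ⟨k, hk, rfl⟩ := hn
      rw [mem_range] at hk ⊢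
      have : k * e ≤ e * P := by
        rw [mul_comm]
        exact Nat.mul_le_mul_left _ (by omega)
      omega
    have h7 : ∑ n ∈ range (e * P + 1), ρ (n : ℤ) ^ 2 = T (e * P + 1) * ((e * P + 1 : ℕ) : ℝ) := by
      rw [hT]
      field_simp
    have h8 : ((e * P + 1 : ℕ) : ℝ) ≤ 2 * e * P := by
      push_cast
      have h9 : (1 : ℝ) ≤ e * P := by
        have : 1 ≤ e * P := Nat.mul_pos (by omega) (by omega)
        exact_mod_cast this
      linarith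
    rw [div_le_iff₀ hP0]
    have hρ0 : 0 ≤ ρ 0 ^ 2 := sq_nonneg _
    calc ∑ k ∈ Icc (-(P : ℤ)) P, ((ρ (-k * e) / B') ^ 2) ^ 2
        ≤ ρ 0 ^ 2 / B' ^ 2 + 2 / B' ^ 2 * ∑ k ∈ Icc 1 P, ρ ((k * e : ℕ) : ℤ) ^ 2 := by
          refine h2.trans (le_of_eq ?_)
          rw [h3, neg_zero, zero_mul]
      _ ≤ 2 / B' ^ 2 * (ρ 0 ^ 2 + ∑ k ∈ Icc 1 P, ρ ((k * e : ℕ) : ℤ) ^ 2) := by
          rw [mul_add]
          have : ρ 0 ^ 2 / B' ^ 2 ≤ 2 / B' ^ 2 * ρ 0 ^ 2 := by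
            rw [div_mul_eq_mul_div]
            gcongr
            linarith
          linarith
      _ ≤ 2 / B' ^ 2 * (T (e * P + 1) * (2 * e * P)) := by
          refine mul_le_mul_of_nonneg_left ?_ (by positivity)
          refine h4.trans ?_
          rw [h7]
          exact mul_le_mul_of_nonneg_left h8 (hT0 _)
      _ = 4 * e / B' ^ 2 * T (e * P + 1) * P := by ring
  -- the main bound
  have hmain : ∀ᶠ m : ℕ in atTop,
      (∑ q ∈ blk m, ∑ q' ∈ blk m, ρ (((q' : ℤ) - (q : ℤ)) * e) ^ 2) / pib m ^ 2 ≤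
        B' ^ 2 * (C / (c ^ 2 * Real.log 2) * ((m : ℝ) / 2 ^ m) +
          C / (c ^ 2 * Real.log 2 ^ 2) * Real.sqrt (4 * e / B' ^ 2 * T (e * 2 ^ m + 1))) := by
    filter_upwards [hlow, eventually_ge_atTop 2] with m hm hm2
    have hmr : (0 : ℝ) < m := by exact_mod_cast (by omega : 0 < m)
    have h2m : (0 : ℝ) < 2 ^ m := by positivity
    have hP : 2 ≤ 2 ^ m := by
      calc 2 = 2 ^ 1 := by norm_num
        _ ≤ 2 ^ m := Nat.pow_le_pow_right (by norm_num) (by omega)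
    have hlow2 : (c * 2 ^ m / m) ^ 2 ≤ pib m ^ 2 := pow_le_pow_left₀ (by positivity) hm 2
    have hpos : 0 < (c * 2 ^ m / (m : ℝ)) ^ 2 := by positivity
    have h1 := hU (2 ^ m) hP (blk m) (blk_sub_PP hm2) (fun k => (ρ (-k * e) / B') ^ 2)
      (fun k => sq_nonneg _) (fun k => by
        rw [div_pow, div_le_one (by positivity), ← sq_abs]
        exact pow_le_pow_left₀ (abs_nonneg _) ((hB _).trans (by rw [hB']; linarith)) 2)
    have h5 : Real.log ((2 ^ m : ℕ) : ℝ) = m * Real.log 2 := by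
      push_cast
      rw [Real.log_pow]
    rw [h5] at h1
    have h6 := hF (2 ^ m) (by omega)
    have h7 : ∑ q ∈ blk m, ∑ q' ∈ blk m, ρ (((q' : ℤ) - (q : ℤ)) * e) ^ 2 =
        B' ^ 2 * ∑ p ∈ blk m, ∑ q ∈ blk m, (ρ (-((p : ℤ) - q) * e) / B') ^ 2 := by
      rw [mul_sum]
      refine sum_congr rfl fun p _ => ?_
      rw [mul_sum]
      refine sum_congr rfl fun q _ => ?_
      rw [div_pow, neg_sub]
      field_simp
    have h8 : Real.sqrt ((∑ k ∈ Icc (-((2 ^ m : ℕ) : ℤ)) ((2 ^ m : ℕ) : ℤ),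
        ((ρ (-k * e) / B') ^ 2) ^ 2) / ((2 ^ m : ℕ) : ℝ)) ≤
          Real.sqrt (4 * e / B' ^ 2 * T (e * 2 ^ m + 1)) := Real.sqrt_le_sqrt h6
    rw [div_le_iff₀ (lt_of_lt_of_le hpos hlow2), h7, mul_assoc]
    refine mul_le_mul_of_nonneg_left ?_ (by positivity)
    refine h1.trans ?_
    obtain ⟨s, hsd⟩ : ∃ s, s = Real.sqrt (4 * e / B' ^ 2 * T (e * 2 ^ m + 1)) := ⟨_, rfl⟩
    rw [← hsd] at h8 ⊢
    have hs0 : 0 ≤ s := by rw [hsd]; exact Real.sqrt_nonneg _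
    push_cast at h8 ⊢
    calc C * (2 ^ m / (m * Real.log 2)) + C * ((2 ^ m) ^ 2 / (m * Real.log 2) ^ 2) *
          Real.sqrt ((∑ k ∈ Icc (-(2 ^ m : ℤ)) (2 ^ m : ℤ),
            ((ρ (-k * e) / B') ^ 2) ^ 2) / 2 ^ m)
        ≤ C * (2 ^ m / (m * Real.log 2)) + C * ((2 ^ m) ^ 2 / (m * Real.log 2) ^ 2) * s := by
          gcongr
      _ = (C / (c ^ 2 * Real.log 2) * ((m : ℝ) / 2 ^ m) + C / (c ^ 2 * Real.log 2 ^ 2) * s) *
          (c * 2 ^ m / m) ^ 2 := by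
          field_simp
      _ ≤ (C / (c ^ 2 * Real.log 2) * ((m : ℝ) / 2 ^ m) + C / (c ^ 2 * Real.log 2 ^ 2) * s) *
          pib m ^ 2 := by
          refine mul_le_mul_of_nonneg_left hlow2 ?_
          positivity
  have hlim : Tendsto (fun m : ℕ => B' ^ 2 * (C / (c ^ 2 * Real.log 2) * ((m : ℝ) / 2 ^ m) +
      C / (c ^ 2 * Real.log 2 ^ 2) * Real.sqrt (4 * e / B' ^ 2 * T (e * 2 ^ m + 1)))) atTop
      (𝓝 0) := by
    have h1 : Tendsto (fun m : ℕ => (m : ℝ) / 2 ^ m) atTop (𝓝 0) := by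
      have := tendsto_pow_const_div_const_pow_of_one_lt 1 (by norm_num : (1 : ℝ) < 2)
      simpa using this
    have h2 : Tendsto (fun m : ℕ => e * 2 ^ m + 1) atTop atTop := by
      refine tendsto_atTop_mono (fun m => ?_) tendsto_id
      have : m < 2 ^ m := Nat.lt_two_pow_self
      have h3 : 2 ^ m ≤ e * 2 ^ m := Nat.le_mul_of_pos_left _ (by omega)
      simp only [id]
      omega
    have h3 := (hW.comp h2).const_mul (4 * (e : ℝ) / B' ^ 2)
    have h4 := (h3.sqrt).const_mul (C / (c ^ 2 * Real.log 2 ^ 2))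
    have h5 := ((h1.const_mul (C / (c ^ 2 * Real.log 2))).add h4).const_mul (B' ^ 2)
    simpa using h5
  exact squeeze_zero' (Eventually.of_forall fun m => by positivity) hmain hlim

end Pool.Agent.S7e
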