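import Pool.Agent.S7e.Kvn

/-!
S7e KvnM: the measure theoretic form of `kvn`.
-/

set_option autoImplicit false

namespace Pool.Agent.S7e

open Finset Filter Topology MeasureTheory
open scoped ComplexConjugate

/-- Wiener / Koopman - von Neumann for a measure preserving map (complex form) -/
theorem kvn_meas {Z : Type*} [MeasurableSpace Z] (μ : Measure Z) [IsFiniteMeasure μ] (S : Z → Z)
    (hS : MeasurePreserving S μ μ) (l : Z → ℂ) (hl : Measurable l) (C : ℝ) (hC : ∀ z, ‖l z‖ ≤ C)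
    (h : ∀ w : ℂ, ‖w‖ = 1 → Tendsto (fun H : ℕ =>
      ∫ z, ‖(H : ℂ)⁻¹ * ∑ h ∈ range H, w ^ h * l (S^[h] z)‖ ^ 2 ∂μ) atTop (𝓝 0)) :
    Tendsto (fun P : ℕ => (P : ℝ)⁻¹ * ∑ n ∈ range P, ‖∫ z, conj (l z) * l (S^[n] z) ∂μ‖ ^ 2)
      atTop (𝓝 0) := by
  have hSn : ∀ n : ℕ, Measurable (S^[n]) := fun n => hS.measurable.iterate n
  have hm : ∀ n : ℕ, MemLp (fun z => l (S^[n] z)) 2 μ := fun n =>
    MemLp.of_bound (hl.comp (hSn n)).aestronglyMeasurable C (Eventually.of_forall fun z => hC _)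
  set v : ℕ → Lp ℂ 2 μ := fun n => (hm n).toLp _ with hv
  have hinner : ∀ m n : ℕ, inner ℂ (v m) (v n) = ∫ z, conj (l (S^[m] z)) * l (S^[n] z) ∂μ := by
    intro m n
    rw [L2.inner_def]
    refine integral_congr_ae ?_
    filter_upwards [(hm m).coeFn_toLp, (hm n).coeFn_toLp] with z h1 h2
    rw [hv]
    simp only
    rw [h1, h2, RCLike.inner_apply, mul_comm]
  have hst : Sta v := by
    intro m n
    rw [hinner, hinner]
    have h1 : ∫ z, conj (l (S^[m + 1] z)) * l (S^[n + 1] z) ∂μ =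
        ∫ z, (fun y => conj (l (S^[m] y)) * l (S^[n] y)) (S z) ∂μ := by
      refine integral_congr_ae (Eventually.of_forall fun z => ?_)
      simp only [Function.iterate_succ_apply]
    rw [h1]
    have h2 : Measurable (fun y => conj (l (S^[m] y)) * l (S^[n] y)) :=
      (Complex.continuous_conj.measurable.comp (hl.comp (hSn m))).mul (hl.comp (hSn n))
    have h3 := integral_map (μ := μ) hS.measurable.aemeasurable
      (f := fun y => conj (l (S^[m] y)) * l (S^[n] y)) h2.aestronglyMeasurable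
    rw [hS.map_eq] at h3
    exact h3.symm
  have hnorm : ∀ (w : ℂ) (H : ℕ), ‖(H : ℂ)⁻¹ • ∑ h ∈ range H, w ^ h • v h‖ ^ 2 =
      ∫ z, ‖(H : ℂ)⁻¹ * ∑ h ∈ range H, w ^ h * l (S^[h] z)‖ ^ 2 ∂μ := by
    intro w H
    have h1 : ((‖(H : ℂ)⁻¹ • ∑ h ∈ range H, w ^ h • v h‖ ^ 2 : ℝ) : ℂ) =
        ((∫ z, ‖(H : ℂ)⁻¹ * ∑ h ∈ range H, w ^ h * l (S^[h] z)‖ ^ 2 ∂μ : ℝ) : ℂ) := by
      have h2 : ((‖(H : ℂ)⁻¹ • ∑ h ∈ range H, w ^ h • v h‖ ^ 2 : ℝ) : ℂ) =
          inner ℂ ((H : ℂ)⁻¹ • ∑ h ∈ range H, w ^ h • v h) ((H : ℂ)⁻¹ • ∑ h ∈ range H, w ^ h • v h) := by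
        rw [inner_self_eq_norm_sq_to_K]; push_cast; rfl
      rw [h2, L2.inner_def, ← integral_complex_ofReal]
      refine integral_congr_ae ?_
      have hae : ∀ᵐ z ∂μ, ∀ h ∈ range H, (v h : Z → ℂ) z = l (S^[h] z) :=
        (Filter.eventually_all_finset _).2 fun h _ => (hm h).coeFn_toLp
      have hsum : ∀ᵐ z ∂μ, (∑ h ∈ range H, w ^ h • v h : Lp ℂ 2 μ) z =
          ∑ h ∈ range H, w ^ h * l (S^[h] z) := by
        have h3 := Lp.coeFn_finsetSum (range H) (fun h => w ^ h • v h)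
        have h4 : ∀ᵐ z ∂μ, ∀ h ∈ range H, ((w ^ h • v h : Lp ℂ 2 μ) : Z → ℂ) z = w ^ h • (v h : Z → ℂ) z :=
          (Filter.eventually_all_finset _).2 fun h _ => Lp.coeFn_smul _ _
        filter_upwards [h3, h4, hae] with z a b c
        rw [a, Finset.sum_apply]
        refine Finset.sum_congr rfl fun h hh => ?_
        rw [b h hh, c h hh, smul_eq_mul]
      filter_upwards [hsum, Lp.coeFn_smul ((H : ℂ)⁻¹) (∑ h ∈ range H, w ^ h • v h)] with z a b
      rw [b, Pi.smul_apply, a, smul_eq_mul, inner_self_eq_norm_sq_to_K]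
      push_cast
      rfl
    exact_mod_cast h1
  have hmain := kvn hst (fun w hw => by
    have h1 := h w hw
    have h2 : Tendsto (fun H : ℕ => Real.sqrt (‖(H : ℂ)⁻¹ • ∑ h ∈ range H, w ^ h • v h‖ ^ 2))
        atTop (𝓝 (Real.sqrt 0)) := by
      refine (Real.continuous_sqrt.tendsto 0).comp ?_
      simp_rw [hnorm]
      exact h1
    rw [Real.sqrt_zero] at h2
    refine h2.congr fun H => ?_
    rw [Real.sqrt_sq (norm_nonneg _)])
  refine hmain.congr fun P => ?_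
  congr 1
  refine Finset.sum_congr rfl fun n _ => ?_
  rw [hinner]
  rfl

/-- real form -/
theorem kvn_real {Z : Type*} [MeasurableSpace Z] (μ : Measure Z) [IsFiniteMeasure μ] (S : Z → Z)
    (hS : MeasurePreserving S μ μ) (l : Z → ℝ) (hl : Measurable l) (C : ℝ) (hC : ∀ z, |l z| ≤ C)
    (h : ∀ w : ℂ, ‖w‖ = 1 → Tendsto (fun H : ℕ =>
      ∫ z, ‖(H : ℂ)⁻¹ * ∑ h ∈ range H, w ^ h * (l (S^[h] z) : ℂ)‖ ^ 2 ∂μ) atTop (𝓝 0)) :
    Tendsto (fun P : ℕ => (P : ℝ)⁻¹ * ∑ n ∈ range P, (∫ z, l z * l (S^[n] z) ∂μ) ^ 2)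
      atTop (𝓝 0) := by
  have h1 := kvn_meas μ S hS (fun z => (l z : ℂ)) (Complex.measurable_ofReal.comp hl) C
    (fun z => by rw [Complex.norm_real]; exact hC z) h
  refine h1.congr fun P => ?_
  congr 1
  refine Finset.sum_congr rfl fun n _ => ?_
  have h2 : ∫ z, conj ((l z : ℝ) : ℂ) * ((l (S^[n] z) : ℝ) : ℂ) ∂μ =
      ((∫ z, l z * l (S^[n] z) ∂μ : ℝ) : ℂ) := by
    rw [← integral_complex_ofReal]
    refine integral_congr_ae (Eventually.of_forall fun z => ?_)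
    simp only [Complex.conj_ofReal]
    push_cast
    rfl
  rw [h2, Complex.norm_real, Real.norm_eq_abs, sq_abs]

end Pool.Agent.S7e
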