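import Pool.Agent.S7e.Core
import Pool.Agent.Sar.N1
import Pool.Agent.SWz.Main

/-! MP_13664e_an, block D3: the entropy decrement, final abstract form. -/

namespace Pool.Agent.S7e

open MeasureTheory Filter Topology Pool.Agent.Half Pool.Agent.Sar

section signs

variable {Ω : Type*}

/-- the word of signs of length `L` -/
noncomputable def wd (S : Ω → Ω) (l : Ω → ℝ) (L : ℕ) (w : Ω) : Fin L → Bool :=
  fun j => decide (l (S^[j] w) = 1)

/-- sign of a letter -/
noncomputable def sg {L : ℕ} (x : Fin L → Bool) (j : ℕ) : ℂ :=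
  if h : j < L then (if x ⟨j, h⟩ then 1 else -1) else 0

theorem sg_wd (S : Ω → Ω) {l : Ω → ℝ} (hl : ∀ w, l w = 1 ∨ l w = -1) {L j : ℕ} (hj : j < L)
    (w : Ω) : sg (wd S l L w) j = (l (S^[j] w) : ℂ) := by
  unfold sg wd
  rw [dif_pos hj]
  rcases hl (S^[j] w) with h | h
  · simp [h]
  · rw [h]
    norm_num

theorem sg_norm {L : ℕ} (x : Fin L → Bool) (j : ℕ) : ‖sg x j‖ ≤ 1 := by
  unfold sg
  split_ifs <;> simp

/-- the functions `F_q` -/
noncomputable def Gq (m e : ℕ) (q : ℕ) (z : ℂ) {L : ℕ} (x : Fin L → Bool) (s : ZMod q) : ℂ :=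
  ((2 : ℂ) ^ m)⁻¹ * ∑ j ∈ Finset.range (2 ^ m),
    ((if s + (j : ZMod q) = 0 then (q : ℂ) else 0) - 1) * (z ^ j * (sg x j * sg x (j + q * e)))

theorem Gq_norm {m e q : ℕ} (h1 : 2 ^ m ≤ q) (h2 : q < 2 ^ (m + 1)) {z : ℂ} (hz : ‖z‖ = 1)
    {L : ℕ} (x : Fin L → Bool) (s : ZMod q) : ‖Gq m e q z x s‖ ≤ 3 := by
  have hm : (0 : ℝ) < 2 ^ m := by positivity
  have hcard : ((Finset.range (2 ^ m)).filter (fun j : ℕ => s + (j : ZMod q) = 0)).card ≤ 1 := by
    rw [Finset.card_le_one]
    intro a ha b hb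
    rw [Finset.mem_filter, Finset.mem_range] at ha hb
    have h3 : (a : ZMod q) = (b : ZMod q) := by
      have := ha.2.trans hb.2.symm
      exact add_left_cancel this
    rw [ZMod.natCast_eq_natCast_iff] at h3
    exact Nat.ModEq.eq_of_lt_of_lt h3 (ha.1.trans_le h1) (hb.1.trans_le h1)
  have hterm : ∀ j ∈ Finset.range (2 ^ m),
      ‖((if s + (j : ZMod q) = 0 then (q : ℂ) else 0) - 1) * (z ^ j * (sg x j * sg x (j + q * e)))‖
      ≤ (if s + (j : ZMod q) = 0 then (q : ℝ) else 0) + 1 := by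
    intro j _
    have h3 : ‖z ^ j * (sg x j * sg x (j + q * e))‖ ≤ 1 := by
      rw [norm_mul, norm_mul, norm_pow, hz, one_pow, one_mul]
      exact mul_le_one₀ (sg_norm x j) (norm_nonneg _) (sg_norm x _)
    rw [norm_mul]
    have h4 : ‖(if s + (j : ZMod q) = 0 then (q : ℂ) else 0) - 1‖ ≤
        (if s + (j : ZMod q) = 0 then (q : ℝ) else 0) + 1 := by
      refine (norm_sub_le _ _).trans ?_
      rw [norm_one]
      split_ifs <;> simp
    calc _ ≤ ((if s + (j : ZMod q) = 0 then (q : ℝ) else 0) + 1) * 1 :=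
          mul_le_mul h4 h3 (norm_nonneg _) (by split_ifs <;> positivity)
      _ = _ := mul_one _
  unfold Gq
  rw [norm_mul, norm_inv, norm_pow]
  have h5 := (norm_sum_le (Finset.range (2 ^ m)) fun j =>
    ((if s + (j : ZMod q) = 0 then (q : ℂ) else 0) - 1) *
      (z ^ j * (sg x j * sg x (j + q * e)))).trans (Finset.sum_le_sum hterm)
  rw [Finset.sum_add_distrib, ← Finset.sum_filter, Finset.sum_const, Finset.sum_const,
    Finset.card_range, nsmul_eq_mul, nsmul_eq_mul, mul_one] at h5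
  have h6 : (((Finset.range (2 ^ m)).filter (fun j : ℕ => s + (j : ZMod q) = 0)).card : ℝ) * q ≤
      2 * 2 ^ m := by
    have h7 : (((Finset.range (2 ^ m)).filter
      (fun j : ℕ => s + (j : ZMod q) = 0)).card : ℝ) ≤ 1 := by exact_mod_cast hcard
    have h8 : (q : ℝ) ≤ 2 * 2 ^ m := by
      have : q ≤ 2 * 2 ^ m := by rw [pow_succ] at h2; omega
      exact_mod_cast this
    calc _ ≤ 1 * (2 * 2 ^ m : ℝ) := mul_le_mul h7 h8 (Nat.cast_nonneg _) zero_le_one
      _ = _ := one_mul _
  push_cast at h5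
  have h9 : ‖(2 : ℂ)‖ = 2 := by simp
  rw [h9, inv_mul_le_iff₀ hm]
  linarith

theorem Gq_sum {m e q : ℕ} [NeZero q] (z : ℂ) {L : ℕ} (x : Fin L → Bool) :
    ∑ s : ZMod q, Gq m e q z x s = 0 := by
  unfold Gq
  rw [← Finset.mul_sum, Finset.sum_comm]
  rw [Finset.sum_eq_zero, mul_zero]
  intro j _
  rw [← Finset.sum_mul, Finset.sum_sub_distrib]
  have h1 : ∑ s : ZMod q, (if s + (j : ZMod q) = 0 then (q : ℂ) else 0) = q := by
    have h2 : ∀ s : ZMod q, (s + (j : ZMod q) = 0) ↔ (s = -(j : ZMod q)) := fun s =>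
      eq_neg_iff_add_eq_zero.symm
    simp only [h2, Finset.sum_ite_eq', Finset.mem_univ, if_true]
  rw [h1]
  simp [ZMod.card]

end signs

section main

variable {Ω : Type*} {A : MeasurableSpace Ω} [mΩ : MeasurableSpace Ω]
  (μ : Measure Ω) [IsProbabilityMeasure μ]

theorem FM_wd {S : Ω → Ω} (hS : Measurable S) {l : Ω → ℝ} (hl : Measurable l) (L : ℕ) :
    FM (wd S l L) := by
  refine FM_pi mΩ (Q := fun (j : Fin L) w => decide (l (S^[j] w) = 1)) fun j b => ?_
  have hm : Measurable fun w => l (S^[j] w) := hl.comp (hS.iterate j)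
  have h1 : MeasurableSet {w | l (S^[j] w) = 1} := hm (measurableSet_singleton 1)
  cases b with
  | true =>
    convert h1 using 1
    ext w
    simp
  | false =>
    convert h1.compl using 1
    ext w
    simp

/-- the integral as an integral of `ψ G` -/
theorem int_Gq {S : Ω → Ω} (hS : MeasurePreserving S μ μ) {l : Ω → ℝ} (hlm : Measurable l)
    (hl : ∀ w, l w = 1 ∨ l w = -1) {q m e L : ℕ} [NeZero q] (hL : L = (2 * e + 1) * 2 ^ m)
    (h2 : q < 2 ^ (m + 1)) {r : Ω → ZMod q} (hr : FM r) (hrS : ∀ w, r (S w) = r w + 1)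
    {ψ : Ω → ℂ} (hψ : Measurable ψ) (hψ1 : ∀ w, ‖ψ w‖ ≤ 1) {z : ℂ}
    (hψS : ∀ w, ψ (S w) = z * ψ w) :
    ∫ w, ((if r w = 0 then (q : ℂ) else 0) - 1) * ψ w * (l w : ℂ) * (l (S^[q * e] w) : ℂ) ∂μ =
      ∫ w, ψ w * Gq m e q z (wd S l L w) (r w) ∂μ := by
  set f : Ω → ℂ := fun w => ((if r w = 0 then (q : ℂ) else 0) - 1) * ψ w * (l w : ℂ) *
    (l (S^[q * e] w) : ℂ) with hf
  have hrS' : ∀ j w, r (S^[j] w) = r w + (j : ZMod q) := by
    intro j
    induction j with
    | zero => intro w; simp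
    | succ j ih =>
      intro w
      rw [Function.iterate_succ_apply', hrS, ih]
      push_cast
      ring
  have hψS' : ∀ j w, ψ (S^[j] w) = z ^ j * ψ w := by
    intro j
    induction j with
    | zero => intro w; simp
    | succ j ih =>
      intro w
      rw [Function.iterate_succ_apply', hψS, ih]
      ring
  have hfm : Measurable f := by
    have h1 : Measurable fun w => ((if r w = 0 then (q : ℂ) else 0) - 1) :=
      meas_fin hr (fun s => ((if s = 0 then (q : ℂ) else 0) - 1))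
    have h2 : Measurable fun w => (l w : ℂ) := Complex.measurable_ofReal.comp hlm
    have h3 : Measurable fun w => (l (S^[q * e] w) : ℂ) :=
      Complex.measurable_ofReal.comp (hlm.comp (hS.measurable.iterate _))
    exact ((h1.mul hψ).mul h2).mul h3
  have hfb : ∀ w, ‖f w‖ ≤ q + 1 := by
    intro w
    have hl1 : ∀ w, ‖(l w : ℂ)‖ = 1 := by
      intro w
      rcases hl w with h | h <;> simp [h]
    simp only [hf]
    rw [norm_mul, norm_mul, norm_mul, hl1, hl1, mul_one, mul_one]
    have h4 : ‖(if r w = 0 then (q : ℂ) else 0) - 1‖ ≤ q + 1 := by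
      refine (norm_sub_le _ _).trans ?_
      rw [norm_one]
      split_ifs <;> simp
    calc _ ≤ ((q : ℝ) + 1) * 1 := mul_le_mul h4 (hψ1 w) (norm_nonneg _) (by positivity)
      _ = _ := mul_one _
  have hfi : Integrable f μ := Integrable.of_bound hfm.aestronglyMeasurable _
    (Eventually.of_forall hfb)
  have hshift : ∀ j, ∫ w, f (S^[j] w) ∂μ = ∫ w, f w ∂μ := by
    intro j
    have h := hS.iterate j
    have h1 := integral_map (μ := μ) h.measurable.aemeasurable (f := f)
      hfm.aestronglyMeasurable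
    rw [h.map_eq] at h1
    exact h1.symm
  have hfji : ∀ j, Integrable (fun w => f (S^[j] w)) μ := fun j =>
    Integrable.of_bound (hfm.comp (hS.measurable.iterate j)).aestronglyMeasurable _
      (Eventually.of_forall fun w => hfb _)
  have hpt : ∀ w, ψ w * Gq m e q z (wd S l L w) (r w) =
      ((2 : ℂ) ^ m)⁻¹ * ∑ j ∈ Finset.range (2 ^ m), f (S^[j] w) := by
    intro w
    unfold Gq
    rw [mul_left_comm, Finset.mul_sum]
    congr 1
    refine Finset.sum_congr rfl fun j hj => ?_
    rw [Finset.mem_range] at hj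
    have hpos : 1 ≤ 2 ^ m := Nat.one_le_two_pow
    have hj1 : j < L := by
      rw [hL]
      nlinarith [Nat.zero_le (2 * e * 2 ^ m)]
    have hj2 : j + q * e < L := by
      rw [hL]
      have h3 : q * e ≤ 2 ^ (m + 1) * e := Nat.mul_le_mul_right _ h2.le
      have h4 : (2 * e + 1) * 2 ^ m = 2 ^ (m + 1) * e + 2 ^ m := by ring
      omega
    rw [sg_wd S hl hj1, sg_wd S hl hj2]
    simp only [hf]
    rw [hrS', hψS', ← Function.iterate_add_apply, add_comm (q * e) j]
    ring
  rw [integral_congr_ae (Eventually.of_forall hpt), integral_const_mul, integral_finsetSum]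
  · simp only [hshift]
    rw [Finset.sum_const, Finset.card_range, nsmul_eq_mul]
    push_cast
    rw [inv_mul_cancel_left₀]
    exact pow_ne_zero _ two_ne_zero
  · intro j _
    exact hfji j

end main

theorem mem_bl {q0 m : ℕ} (i : {q : ℕ // q.Prime ∧ q0 ≤ q}) :
    i ∈ Finset.subtype (fun q : ℕ => q.Prime ∧ q0 ≤ q) (blk m) ↔
      2 ^ m ≤ (i : ℕ) ∧ (i : ℕ) < 2 ^ (m + 1) := by
  rw [Finset.mem_subtype, blk, Finset.mem_filter, Finset.mem_Ico]
  exact ⟨fun h => h.1, fun h => ⟨h, i.2.1⟩⟩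

/-- **D3: decoupling by the entropy decrement.** -/
theorem D3 {Ω : Type*} {A : MeasurableSpace Ω} [mΩ : MeasurableSpace Ω]
    (μ : Measure Ω) [IsProbabilityMeasure μ] (hA : A ≤ mΩ) {S : Ω → Ω}
    (hS : MeasurePreserving S μ μ) (hSA : @Measurable Ω Ω A A S) {l : Ω → ℝ} (hlm : Measurable l)
    (hl : ∀ w, l w = 1 ∨ l w = -1) (q0 : ℕ) (r : (q : ℕ) → Ω → ZMod q)
    (hr : ∀ q, q.Prime → q0 ≤ q → ∀ a, MeasurableSet (r q ⁻¹' {a}))
    (hrS : ∀ q, q.Prime → q0 ≤ q → ∀ w, r q (S w) = r q w + 1)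
    (hI : ∀ (P : Finset ℕ) (a : (q : ℕ) → ZMod q) (B : Set Ω),
      (∀ q ∈ P, q.Prime ∧ q0 ≤ q) → @MeasurableSet Ω A B →
      μ.real (B ∩ {w | ∀ q ∈ P, r q w = a q}) = μ.real B / ∏ q ∈ P, (q : ℝ))
    (ψ : ℕ → Ω → ℂ) (z : ℕ → ℂ)
    (hψ : ∀ q, q.Prime → q0 ≤ q → @Measurable Ω ℂ A _ (ψ q))
    (hψ1 : ∀ q, q.Prime → q0 ≤ q → ∀ w, ‖ψ q w‖ ≤ 1)
    (hz : ∀ q, q.Prime → q0 ≤ q → ‖z q‖ = 1)
    (hψS : ∀ q, q.Prime → q0 ≤ q → ∀ w, ψ q (S w) = z q * ψ q w) (e : ℕ) {ε : ℝ} (hε : 0 < ε) :
    ∃ Bad : Set ℕ, (∃ C : ℝ, ∀ F : Finset ℕ, (∀ m ∈ F, 1 ≤ m ∧ m ∈ Bad) →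
        ∑ m ∈ F, (1 : ℝ) / m ≤ C) ∧
      ∀ m, m ∉ Bad → q0 ≤ 2 ^ m →
        ∑ q ∈ blk m, ‖∫ w, ((if r q w = 0 then (q : ℂ) else 0) - 1) * ψ q w * (l w : ℂ) *
          (l (S^[q * e] w) : ℂ) ∂μ‖ ≤ ε * pib m := by
  classical
  -- the index type
  let ι := {q : ℕ // q.Prime ∧ q0 ≤ q}
  have hNZ : ∀ i : ι, NeZero (i : ℕ) := fun i => ⟨i.2.1.ne_zero⟩
  set R : (i : ι) → Ω → ZMod (i : ℕ) := fun i => r i with hR
  have hRm : ∀ i : ι, FM (R i) := fun i a => hr i i.2.1 i.2.2 a
  have hIND : IND A μ R := by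
    intro P a s hs
    set P' : Finset ℕ := P.map (Function.Embedding.subtype _) with hP'
    have h := hI P' (fun q => if h : q.Prime ∧ q0 ≤ q then a ⟨q, h⟩ else 0) s (by
      intro q hq
      rw [hP', Finset.mem_map] at hq
      obtain ⟨i, _, rfl⟩ := hq
      exact i.2) hs
    have e1 : {w | ∀ q ∈ P', r q w = (if h : q.Prime ∧ q0 ≤ q then a ⟨q, h⟩ else 0)} =
        {w | ∀ i ∈ P, R i w = a i} := by
      ext w
      simp only [Set.mem_ofPred_eq]
      constructor
      · intro h1 i hi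
        have h2 := h1 i (by rw [hP', Finset.mem_map]; exact ⟨i, hi, rfl⟩)
        rw [dif_pos i.2] at h2
        exact h2
      · intro h1 q hq
        rw [hP', Finset.mem_map] at hq
        obtain ⟨i, hi, rfl⟩ := hq
        have h2 := h1 i hi
        simp only [Function.Embedding.subtype_apply]
        rw [dif_pos i.2]
        exact h2
    rw [e1] at h
    rw [h, hP', Finset.prod_map]
    congr 1
    refine Finset.prod_congr rfl fun i _ => ?_
    simp [ZMod.card]
  -- the blocks
  set bl : ℕ → Finset ι := fun m => (blk m).subtype (fun q => q.Prime ∧ q0 ≤ q) with hbl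
  set Lo : ℕ → Finset ι := fun m => (Finset.range m).biUnion bl with hLo
  set L : ℕ → ℕ := fun m => (2 * e + 1) * 2 ^ m with hL
  have hLpos : ∀ m, (0 : ℝ) < L m := by
    intro m
    have : 0 < L m := by simp only [hL]; positivity
    exact_mod_cast this
  have hL2 : ∀ m, L (m + 1) = L m + L m := by
    intro m
    simp only [hL]
    ring
  set X : ∀ m, Ω → (Fin (L m) → Bool) := fun m => wd S l (L m) with hX
  have hXm : ∀ m, FM (X m) := fun m => FM_wd hS.measurable hlm (L m)
  have hdisj : ∀ m, Disjoint (bl m) (Lo m) := by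
    intro m
    rw [Finset.disjoint_left]
    intro i hi hi'
    obtain ⟨k, hk, hk2⟩ := Finset.mem_biUnion.mp hi'
    have h1 : 2 ^ (k + 1) ≤ 2 ^ m := Nat.pow_le_pow_right (by norm_num) (Finset.mem_range.mp hk)
    have h2 := (mem_bl i).mp hi
    have h3 := (mem_bl i).mp hk2
    omega
  have hYm : ∀ P : Finset ι, FM (YP R P) := fun P => FM_YP R hRm P
  set H : ℕ → ℝ := fun m => hst A μ (X m) (YP R (Lo m)) with hH
  set H' : ℕ → ℝ := fun m => hst A μ (X m) (fun w => (YP R (Lo m) w, YP R (bl m) w)) with hH'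
  set I : ℕ → ℝ := fun m => H m - H' m with hIdef
  have hI0 : ∀ m, 0 ≤ I m := by
    intro m
    simp only [hIdef, hH, hH', sub_nonneg]
    exact hst_anti μ hA (hXm m) (hYm _) ((hYm _).pair (hYm _)) fun x y h => (Prod.ext_iff.mp h).1
  have hRS : ∀ (i : ι) (j : ℕ) w, R i (S^[j] w) = R i w + (j : ZMod (i : ℕ)) := by
    intro i j
    induction j with
    | zero => intro w; simp
    | succ j ih =>
      intro w
      rw [Function.iterate_succ_apply']
      have := hrS i i.2.1 i.2.2 (S^[j] w)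
      simp only [hR] at ih ⊢
      rw [this, ih]
      push_cast
      ring
  have hstep : ∀ m, 0 ≤ m → H (m + 1) ≤ 2 * (H m - I m) := by
    intro m _
    have e1 : H m - I m = H' m := by simp only [hIdef]; ring
    rw [e1]
    have h1 : H (m + 1) ≤ 2 * hst A μ (X m) (YP R (Lo (m + 1))) := by
      simp only [hH]
      refine hst_double μ hA (hXm m) (hXm (m + 1)) (hYm _) (hS.iterate (L m)) ?_ ?_ ?_
      · exact @Measurable.iterate Ω A S hSA (L m)
      · intro x y h2 h3
        simp only [hX] at h2 h3 ⊢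
        funext j
        have hj := j.2
        by_cases hj1 : (j : ℕ) < L m
        · have := congrFun h2 ⟨j, hj1⟩
          simpa [wd] using this
        · have hj2 : (j : ℕ) - L m < L m := by
            have := hL2 m
            omega
          have := congrFun h3 ⟨j - L m, hj2⟩
          simp only [wd] at this ⊢
          rw [← Function.iterate_add_apply, ← Function.iterate_add_apply,
            Nat.sub_add_cancel (by omega)] at this
          exact this
      · intro x y h2
        funext i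
        have := congrFun h2 i
        simp only [YP] at this ⊢
        rw [hRS, hRS, this]
    have h2 : hst A μ (X m) (YP R (Lo (m + 1))) ≤ H' m := by
      simp only [hH']
      refine hst_anti μ hA (hXm m) ((hYm _).pair (hYm _)) (hYm _) fun x y h => ?_
      have hsub1 : Lo m ⊆ Lo (m + 1) := by
        simp only [hLo]
        exact Finset.biUnion_subset_biUnion_of_subset_left _
          (Finset.range_subset_range.mpr (Nat.le_succ m))
      have hsub2 : bl m ⊆ Lo (m + 1) := by
        simp only [hLo]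
        exact Finset.subset_biUnion_of_mem bl (Finset.mem_range.mpr (Nat.lt_succ_self m))
      simp only [Prod.mk.injEq]
      constructor
      · funext i
        exact congrFun h ⟨i, hsub1 i.2⟩
      · funext i
        exact congrFun h ⟨i, hsub2 i.2⟩
    linarith
  have hH0 : ∀ m, 0 ≤ H m := fun m => hst_nonneg μ hA (hXm m) (hYm _)
  have hbase : H 0 ≤ Real.log 2 * L 0 := by
    simp only [hH]
    refine (hst_le_log μ hA (hXm 0) (hYm _)).trans (le_of_eq ?_)
    rw [Fintype.card_fun, Fintype.card_bool, Fintype.card_fin]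
    push_cast
    rw [Real.log_pow, mul_comm]
  have hdecr := decr H I (fun m => (L m : ℝ)) 0 (Real.log 2) hLpos (by
    intro m
    simp only [hL]
    push_cast
    ring) hH0 hstep hbase
  -- the parameters
  set ε1 : ℝ := min (ε / 14) (1 / 3) with hε1
  have hε1pos : 0 < ε1 := lt_min (by positivity) (by norm_num)
  have hε1a : ε1 ≤ ε / 14 := min_le_left _ _
  have hε1b : ε1 * 3 ≤ 1 := by
    have := min_le_right (ε / 14) (1 / 3 : ℝ)
    rw [← hε1] at this
    linarith
  refine ⟨{m | ε1 ^ 2 * pib m < I m}, ?_, ?_⟩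
  · -- thinness
    obtain ⟨c, hc, hev⟩ := pib_lower Pool.Agent.SWz.swlam
    obtain ⟨i0, hi0⟩ := eventually_atTop.mp hev
    set D : ℝ := (2 * e + 1) / (ε1 ^ 2 * c) with hD
    have hDpos : 0 < D := by positivity
    refine ⟨i0 + D * Real.log 2, fun F hF => ?_⟩
    have h1 : ∀ m ∈ F, (1 : ℝ) / m ≤ (if m < i0 then 1 else 0) + D * (I m / L m) := by
      intro m hm
      obtain ⟨hm1, hmB⟩ := hF m hm
      have hm0 : (0 : ℝ) < m := by exact_mod_cast hm1
      have hnn : 0 ≤ D * (I m / L m) := mul_nonneg hDpos.le (div_nonneg (hI0 m) (hLpos m).le)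
      by_cases h : m < i0
      · rw [if_pos h]
        have : (1 : ℝ) / m ≤ 1 := by
          rw [div_le_one hm0]
          exact_mod_cast hm1
        linarith
      · rw [if_neg h, zero_add]
        have h2 := hi0 m (by omega)
        have h3 : ε1 ^ 2 * (c * 2 ^ m / m) < I m := by
          refine lt_of_le_of_lt ?_ hmB
          gcongr
        have h4 : ε1 ^ 2 * (c * 2 ^ m / m) / L m ≤ I m / L m := by
          have := hLpos m
          gcongr
        have h5 : D * (ε1 ^ 2 * (c * 2 ^ m / m) / L m) = 1 / m := by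
          simp only [hD, hL]
          push_cast
          field_simp
        rw [← h5]
        gcongr
    refine (Finset.sum_le_sum h1).trans ?_
    rw [Finset.sum_add_distrib, ← Finset.mul_sum]
    have h2 : ∑ m ∈ F, (if m < i0 then (1 : ℝ) else 0) ≤ i0 := by
      rw [← Finset.sum_filter, Finset.sum_const, nsmul_eq_mul, mul_one]
      have h3 : (F.filter fun m => m < i0).card ≤ (Finset.range i0).card := by
        refine Finset.card_le_card fun m hm => ?_
        rw [Finset.mem_filter] at hm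
        exact Finset.mem_range.mpr hm.2
      rw [Finset.card_range] at h3
      exact_mod_cast h3
    have h3 : ∑ m ∈ F, I m / L m ≤ Real.log 2 := by
      obtain ⟨N, hN⟩ : ∃ N, F ⊆ Finset.Ico 0 N := by
        refine ⟨F.sup id + 1, fun m hm => ?_⟩
        have := Finset.le_sup (f := id) hm
        simp only [id] at this
        rw [Finset.mem_Ico]
        omega
      exact (Finset.sum_le_sum_of_subset_of_nonneg hN fun m _ _ =>
        div_nonneg (hI0 m) (hLpos m).le).trans (hdecr N)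
    have h4 := mul_le_mul_of_nonneg_left h3 hDpos.le
    linarith
  · -- the estimate
    intro m hm hq0
    have hm' : I m ≤ ε1 ^ 2 * pib m := not_lt.mp hm
    have hcore := core_one μ hA hRm hIND (hXm m) (hdisj m) 3 ε1 (by norm_num) hε1pos hε1b (I m)
      (le_of_eq rfl) (fun i x s => Gq m e i (z i) x s) (fun i => ψ i) (by
        intro i hi x b
        have hi := (mem_bl i).mp hi
        exact Gq_norm hi.1 hi.2 (hz i i.2.1 i.2.2) x b) (by
        intro i _ x
        exact Gq_sum (z i) x)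
      (fun i _ => hψ i i.2.1 i.2.2) (fun i _ => hψ1 i i.2.1 i.2.2)
    have hsum : ∑ q ∈ blk m, ‖∫ w, ((if r q w = 0 then (q : ℂ) else 0) - 1) * ψ q w * (l w : ℂ) *
          (l (S^[q * e] w) : ℂ) ∂μ‖ =
        ∑ i ∈ bl m, ‖∫ w, ψ i w * Gq m e i (z i) (X m w) (R i w) ∂μ‖ := by
      have h1 : ∀ q ∈ blk m, q.Prime ∧ q0 ≤ q := by
        intro q hq
        rw [blk, Finset.mem_filter, Finset.mem_Ico] at hq
        exact ⟨hq.2, hq0.trans hq.1.1⟩
      have h2 : blk m = (bl m).map (Function.Embedding.subtype _) := by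
        simp only [hbl]
        rw [Finset.subtype_map, Finset.filter_true_of_mem h1]
      rw [h2, Finset.sum_map]
      refine Finset.sum_congr rfl fun i hi => ?_
      congr 1
      have hi := (mem_bl i).mp hi
      exact int_Gq μ hS hlm hl rfl hi.2 (hRm i) (hrS i i.2.1 i.2.2)
        ((hψ i i.2.1 i.2.2).mono hA le_rfl) (hψ1 i i.2.1 i.2.2) (hψS i i.2.1 i.2.2)
    rw [hsum]
    refine hcore.trans ?_
    have hcard : ((bl m).card : ℝ) ≤ pib m := by
      unfold pib
      have : (bl m).card ≤ (blk m).card := by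
        simp only [hbl]
        rw [Finset.card_subtype]
        exact Finset.card_filter_le _ _
      exact_mod_cast this
    have hpib : 0 ≤ pib m := Nat.cast_nonneg _
    have h1 : I m / ε1 ≤ ε1 * pib m := by
      rw [div_le_iff₀ hε1pos]
      calc I m ≤ ε1 ^ 2 * pib m := hm'
        _ = _ := by ring
    have h2 : ε1 * (1 + 3 + 3 ^ 2) * ((bl m).card : ℝ) ≤ ε1 * (1 + 3 + 3 ^ 2) * pib m := by
      gcongr
    calc _ ≤ ε1 * pib m + ε1 * (1 + 3 + 3 ^ 2) * pib m := add_le_add h1 h2
      _ = 14 * ε1 * pib m := by ring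
      _ ≤ ε * pib m := by
        refine mul_le_mul_of_nonneg_right ?_ hpib
        linarith

end Pool.Agent.S7e
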