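import Pool.Agent.S7e.Dec

/-! MP_13664e_an, block D3: the core inequality. -/

namespace Pool.Agent.S7e

open MeasureTheory Filter Topology Pool.Agent.Half

section approx

variable {Ω : Type*}

/-- a finite partition on the atoms of which a bounded function oscillates little -/
theorem exists_osc (A : MeasurableSpace Ω) {ψ : Ω → ℂ} (hψ : @Measurable Ω ℂ A _ ψ)
    (h1 : ∀ w, ‖ψ w‖ ≤ 1) {ε : ℝ} (hε : 0 < ε) :
    ∃ (κ : Type) (_ : Fintype κ) (Q : Ω → κ), @FM Ω A κ Q ∧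
      ∀ w w', Q w = Q w' → ‖ψ w - ψ w'‖ ≤ ε := by
  classical
  obtain ⟨t, -, htf, ht⟩ := (isCompact_closedBall (0 : ℂ) 1).finite_cover_balls
    (e := ε / 2) (half_pos hε)
  have : Fintype t := htf.fintype
  refine ⟨t → Bool, inferInstance, fun w c => decide (ψ w ∈ Metric.ball (c : ℂ) (ε / 2)), ?_, ?_⟩
  · intro a
    have e : (fun w (c : t) => decide (ψ w ∈ Metric.ball (c : ℂ) (ε / 2))) ⁻¹' {a} =
        ⋂ c : t, {w | decide (ψ w ∈ Metric.ball (c : ℂ) (ε / 2)) = a c} := by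
      ext w
      simp only [Set.mem_preimage, Set.mem_singleton_iff, Set.mem_iInter, funext_iff]
      rfl
    rw [e]
    refine @MeasurableSet.iInter Ω t A _ _ fun c => ?_
    have hb : @MeasurableSet Ω A (ψ ⁻¹' Metric.ball (c : ℂ) (ε / 2)) := hψ measurableSet_ball
    cases a c with
    | true =>
      have : {w | decide (ψ w ∈ Metric.ball (c : ℂ) (ε / 2)) = true} =
          ψ ⁻¹' Metric.ball (c : ℂ) (ε / 2) := by
        ext w
        simp
      rw [this]
      exact hb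
    | false =>
      have : {w | decide (ψ w ∈ Metric.ball (c : ℂ) (ε / 2)) = false} =
          (ψ ⁻¹' Metric.ball (c : ℂ) (ε / 2))ᶜ := by
        ext w
        simp
      rw [this]
      exact @MeasurableSet.compl Ω _ A hb
  · intro w w' h
    have hw : ψ w ∈ Metric.closedBall (0 : ℂ) 1 := by simpa using h1 w
    obtain ⟨c, hc, hwc⟩ := Set.mem_iUnion₂.mp (ht hw)
    have h2 := congrFun h ⟨c, hc⟩
    simp only [hwc, decide_true] at h2
    have h3 : ψ w' ∈ Metric.ball c (ε / 2) := by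
      have := h2.symm
      simpa using this
    rw [Metric.mem_ball, dist_eq_norm] at hwc h3
    calc ‖ψ w - ψ w'‖ = ‖(ψ w - c) - (ψ w' - c)‖ := by ring_nf
      _ ≤ ‖ψ w - c‖ + ‖ψ w' - c‖ := norm_sub_le _ _
      _ ≤ ε := by linarith

theorem FM_pi (A : MeasurableSpace Ω) {ι : Type*} [Fintype ι] {κ : ι → Type*}
    {Q : ∀ i, Ω → κ i} (hQ : ∀ i, @FM Ω A (κ i) (Q i)) :
    @FM Ω A (∀ i, κ i) (fun w i => Q i w) := by
  intro a
  have e : (fun w i => Q i w) ⁻¹' {a} = ⋂ i, Q i ⁻¹' {a i} := by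
    ext w
    simp only [Set.mem_preimage, Set.mem_singleton_iff, Set.mem_iInter, funext_iff]
  rw [e]
  exact @MeasurableSet.iInter Ω ι A _ _ fun i => hQ i (a i)

end approx

section core

variable {Ω : Type*} (A : MeasurableSpace Ω) [mΩ : MeasurableSpace Ω]
  (μ : Measure Ω) [IsProbabilityMeasure μ] (hA : A ≤ mΩ)
  {ι : Type*} [DecidableEq ι] {β : ι → Type*} [∀ i, Fintype (β i)] [∀ i, Nonempty (β i)]
  (r : ∀ i, Ω → β i)

/-- the joint residues -/
def YP (P : Finset ι) : Ω → (∀ i : P, β i) := fun w i => r i w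

omit [∀ i, Fintype (β i)] [∀ i, Nonempty (β i)] in
theorem FM_YP (hr : ∀ i, FM (r i)) (P : Finset ι) : FM (YP r P) :=
  FM_pi mΩ fun i : P => hr i

/-- residues are uniform and independent from `A` -/
def IND : Prop := ∀ (P : Finset ι) (a : ∀ i, β i) (s : Set Ω), @MeasurableSet Ω A s →
  μ.real (s ∩ {w | ∀ i ∈ P, r i w = a i}) = μ.real s / ∏ i ∈ P, (Fintype.card (β i) : ℝ)

variable {A r}

include hA in
omit hA in
theorem uind (hI : IND A μ r) {P P' : Finset ι} (hd : Disjoint P P') {κ : Type} [Fintype κ]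
    {Q : Ω → κ} (hQ : @FM Ω A κ Q) :
    UInd μ (YP r P) (fun w => (YP r P' w, Q w)) := by
  classical
  rintro b ⟨c, k⟩
  set a : ∀ i, β i := fun i => if h : i ∈ P then b ⟨i, h⟩ else if h' : i ∈ P' then c ⟨i, h'⟩
    else Classical.arbitrary _ with ha
  have e1 : YP r P ⁻¹' {b} ∩ (fun w => (YP r P' w, Q w)) ⁻¹' {(c, k)} =
      Q ⁻¹' {k} ∩ {w | ∀ i ∈ P ∪ P', r i w = a i} := by
    ext w
    simp only [Set.mem_inter_iff, Set.mem_preimage, Set.mem_singleton_iff, Prod.mk.injEq,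
      Set.mem_ofPred_eq, Finset.mem_union]
    constructor
    · rintro ⟨h1, h2, h3⟩
      refine ⟨h3, fun i hi => ?_⟩
      by_cases h : i ∈ P
      · have := congrFun h1 ⟨i, h⟩
        simpa [ha, h, YP] using this
      · have h' : i ∈ P' := by tauto
        have := congrFun h2 ⟨i, h'⟩
        simpa [ha, h, h', YP] using this
    · rintro ⟨h3, h⟩
      refine ⟨?_, ?_, h3⟩
      · funext i
        have := h i (Or.inl i.2)
        simpa [ha, YP] using this
      · funext i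
        have h1 := h i (Or.inr i.2)
        have h2 : (i : ι) ∉ P := fun h3 => Finset.disjoint_left.mp hd h3 i.2
        simpa [ha, h2, YP] using h1
  have e2 : (fun w => (YP r P' w, Q w)) ⁻¹' {(c, k)} =
      Q ⁻¹' {k} ∩ {w | ∀ i ∈ P', r i w = a i} := by
    ext w
    simp only [Set.mem_inter_iff, Set.mem_preimage, Set.mem_singleton_iff, Prod.mk.injEq,
      Set.mem_ofPred_eq]
    constructor
    · rintro ⟨h2, h3⟩
      refine ⟨h3, fun i h' => ?_⟩
      have h : i ∉ P := fun h3 => Finset.disjoint_left.mp hd h3 h'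
      have := congrFun h2 ⟨i, h'⟩
      simpa [ha, h, h', YP] using this
    · rintro ⟨h3, h⟩
      refine ⟨?_, h3⟩
      funext i
      have h1 := h i i.2
      have h2 : (i : ι) ∉ P := fun h3 => Finset.disjoint_left.mp hd h3 i.2
      simpa [ha, h2, YP] using h1
  rw [e1, e2, hI _ a _ (hQ k), hI _ a _ (hQ k), Finset.prod_union hd]
  have e3 : (Fintype.card (∀ i : P, β i) : ℝ) = ∏ i ∈ P, (Fintype.card (β i) : ℝ) := by
    rw [Fintype.card_pi]
    push_cast
    exact Finset.prod_coe_sort P (fun i => (Fintype.card (β i) : ℝ))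
  rw [e3, div_div, mul_comm]

theorem meas_fin {α : Type*} [Fintype α] {W : Ω → α} (hW : FM W) {E : Type*} [MeasurableSpace E]
    (g : α → E) : Measurable fun w => g (W w) := fun s _ => EQ_meas hW (g ⁻¹' s)

theorem integrable_bdd {f : Ω → ℂ} (hf : Measurable f) {C : ℝ} (hC : ∀ w, ‖f w‖ ≤ C) :
    Integrable f μ :=
  Integrable.of_bound hf.aestronglyMeasurable C (Eventually.of_forall hC)

omit [DecidableEq ι] [∀ i, Fintype (β i)] [∀ i, Nonempty (β i)] in
/-- a good finite partition -/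
theorem exists_Q (hA : A ≤ mΩ) {α γ : Type*} [Fintype α] [Fintype γ]
    {X : Ω → α} {Y' : Ω → γ} (hX : FM X) (hY' : FM Y') (P : Finset ι) {δ ε : ℝ} (hδ : 0 < δ)
    (hε : 0 < ε) (ψ : ι → Ω → ℂ)
    (hψ : ∀ i ∈ P, @Measurable Ω ℂ A _ (ψ i)) (hψ1 : ∀ i ∈ P, ∀ w, ‖ψ i w‖ ≤ 1) :
    ∃ (κ : Type) (_ : Fintype κ) (Q : Ω → κ) (ψt : ι → κ → ℂ), @FM Ω A κ Q ∧
      cEnt μ X (fun w => (Y' w, Q w)) < hst A μ X Y' + δ ∧
      (∀ i k, ‖ψt i k‖ ≤ 1) ∧ (∀ i ∈ P, ∀ w, ‖ψ i w - ψt i (Q w)‖ ≤ ε) := by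
  classical
  obtain ⟨κ0, _, Q0, hQ0, hnear⟩ := hst_near (A := A) μ X Y' hδ
  have hex : ∀ P' : Finset ι, P' ⊆ P → ∃ (κ : Type) (_ : Fintype κ) (Q : Ω → κ), @FM Ω A κ Q ∧
      (∀ w w', Q w = Q w' → Q0 w = Q0 w') ∧
      (∀ i ∈ P', ∀ w w', Q w = Q w' → ‖ψ i w - ψ i w'‖ ≤ ε) := by
    intro P'
    induction P' using Finset.induction_on with
    | empty =>
      intro _
      exact ⟨κ0, inferInstance, Q0, hQ0, fun w w' h => h, fun i hi => by simp at hi⟩
    | insert i P' hi ih =>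
      intro hs
      obtain ⟨κ1, _, Q1, hQ1, h1, h2⟩ := ih (fun x hx => hs (Finset.mem_insert_of_mem hx))
      have hiP : i ∈ P := hs (Finset.mem_insert_self _ _)
      obtain ⟨κ2, _, Q2, hQ2, h3⟩ := exists_osc A (hψ i hiP) (hψ1 i hiP) hε
      refine ⟨κ1 × κ2, inferInstance, fun w => (Q1 w, Q2 w), ?_, ?_, ?_⟩
      · rintro ⟨a, b⟩
        have e : (fun w => (Q1 w, Q2 w)) ⁻¹' {(a, b)} = Q1 ⁻¹' {a} ∩ Q2 ⁻¹' {b} := by
          ext w
          simp [Prod.ext_iff]
        rw [e]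
        exact @MeasurableSet.inter Ω A _ _ (hQ1 a) (hQ2 b)
      · intro w w' h
        exact h1 w w' (Prod.ext_iff.mp h).1
      · intro j hj w w' h
        rcases Finset.mem_insert.mp hj with rfl | hj
        · exact h3 w w' (Prod.ext_iff.mp h).2
        · exact h2 j hj w w' (Prod.ext_iff.mp h).1
  obtain ⟨κ, _, Q, hQ, h1, h2⟩ := hex P (le_refl _)
  refine ⟨κ, inferInstance, Q, fun i k => if h : i ∈ P ∧ ∃ w, Q w = k then ψ i h.2.choose else 0,
    hQ, ?_, ?_, ?_⟩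
  · refine lt_of_le_of_lt ?_ hnear
    refine cEnt_anti μ hX (hY'.pair (hQ0.le hA)) (hY'.pair (hQ.le hA)) fun x y h => ?_
    simp only [Prod.mk.injEq] at h ⊢
    exact ⟨h.1, h1 _ _ h.2⟩
  · intro i k
    beta_reduce
    split_ifs with h
    · exact hψ1 i h.1 _
    · simp
  · intro i hi w
    have h : i ∈ P ∧ ∃ w', Q w' = Q w := ⟨hi, w, rfl⟩
    beta_reduce
    rw [dif_pos h]
    exact h2 i hi _ _ h.2.choose_spec.symm

/-- mutual information bound -/
theorem mutual_le (hA : A ≤ mΩ) {α γ δ' : Type*} [Fintype α] [Fintype γ] [Fintype δ'] [Nonempty δ']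
    {X : Ω → α} {Y' : Ω → γ} {Y : Ω → δ'} (hX : FM X) (hY' : FM Y') (hY : FM Y)
    {κ : Type} [Fintype κ] {Q : Ω → κ} (hQ : @FM Ω A κ Q)
    (hU : UInd μ Y (fun w => (Y' w, Q w))) {I δ : ℝ}
    (hIle : hst A μ X Y' - hst A μ X (fun w => (Y' w, Y w)) ≤ I)
    (hnear : cEnt μ X (fun w => (Y' w, Q w)) < hst A μ X Y' + δ) :
    Ent μ (fun w => (X w, (Y' w, Q w))) + Real.log (Fintype.card δ') -
      Ent μ (fun w => ((X w, (Y' w, Q w)), Y w)) ≤ I + δ := by
  have hQm : FM Q := hQ.le hA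
  have hYY : FM (fun w => (Y' w, Y w)) := hY'.pair hY
  have hZ : FM (fun w => (Y' w, Q w)) := hY'.pair hQm
  have hV : FM (fun w => (X w, (Y' w, Q w))) := hX.pair hZ
  have h2 : hst A μ X (fun w => (Y' w, Y w)) ≤ cEnt μ X (fun w => ((Y' w, Y w), Q w)) :=
    hst_le μ hA hX hYY hQ
  have e1 := ent_uind μ hZ hU
  have e2 : Ent μ (fun w => ((X w, (Y' w, Q w)), Y w)) =
      Ent μ (fun w => (X w, ((Y' w, Y w), Q w))) :=
    ent_eq_of μ _ _ (hX.pair (hYY.pair hQm)) (hV.pair hY) fun x y => by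
      simp only [Prod.mk.injEq]
      tauto
  have e3 : Ent μ (fun w => ((Y' w, Y w), Q w)) = Ent μ (fun w => (Y w, (Y' w, Q w))) :=
    ent_eq_of μ _ _ (hY.pair hZ) (hYY.pair hQm) fun x y => by
      simp only [Prod.mk.injEq]
      tauto
  have h4 : Ent μ (fun w => (X w, (Y' w, Q w))) + Real.log (Fintype.card δ') -
    Ent μ (fun w => ((X w, (Y' w, Q w)), Y w)) =
      cEnt μ X (fun w => (Y' w, Q w)) - cEnt μ X (fun w => ((Y' w, Y w), Q w)) := by
    unfold cEnt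
    rw [e2, e3]
    linarith
  rw [h4]
  linarith

/-- Donsker-Varadhan for one block -/
theorem dv_block (hr : ∀ i, FM (r i)) {γ : Type*} [Fintype γ] {V : Ω → γ} (hV : FM V)
    (P : Finset ι) (B ε : ℝ) (hε : 0 < ε) (hεB : ε * B ≤ 1) (g : γ → ∀ i : P, β i → ℝ)
    (hgB : ∀ v i b, |g v i b| ≤ B) (hg0 : ∀ v i, ∑ b, g v i b = 0) :
    ε * ∑ i : P, ∫ w, g (V w) i (r i w) ∂μ ≤
      Ent μ V + Real.log (Fintype.card (∀ i : P, β i)) - Ent μ (fun w => (V w, YP r P w)) +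
        ε ^ 2 * B ^ 2 * P.card := by
  have hDV := donsker μ hV (FM_YP r hr P) (fun v y => ε * ∑ i : P, g v i (y i))
    (ε ^ 2 * B ^ 2 * P.card) (by
      intro v
      have := expmom (fun i : P => β i) (g v) B ε (hgB v) hε.le hεB (hg0 v)
      rwa [Fintype.card_coe] at this)
  refine le_trans (le_of_eq ?_) hDV
  rw [integral_const_mul]
  congr 1
  rw [integral_finsetSum]
  · rfl
  · intro i _
    refine Integrable.of_bound ?_ B (Eventually.of_forall fun w => ?_)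
    · exact (meas_fin (hV.pair (hr i)) (fun x : γ × β i => g x.1 i x.2)).aestronglyMeasurable
    · exact hgB _ _ _

/-- the core inequality for one block -/
theorem core_one (hA : A ≤ mΩ) (hr : ∀ i, FM (r i)) (hI : IND A μ r) {α : Type*} [Fintype α]
    {X : Ω → α} (hX : FM X) {P P' : Finset ι} (hd : Disjoint P P') (B ε : ℝ) (hB0 : 0 ≤ B)
    (hε : 0 < ε) (hεB : ε * B ≤ 1) (I : ℝ)
    (hIle : hst A μ X (YP r P') - hst A μ X (fun w => (YP r P' w, YP r P w)) ≤ I)
    (G : ∀ i, α → β i → ℂ) (ψ : ι → Ω → ℂ)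
    (hG : ∀ i ∈ P, ∀ x b, ‖G i x b‖ ≤ B) (hG0 : ∀ i ∈ P, ∀ x, ∑ b, G i x b = 0)
    (hψ : ∀ i ∈ P, @Measurable Ω ℂ A _ (ψ i)) (hψ1 : ∀ i ∈ P, ∀ w, ‖ψ i w‖ ≤ 1) :
    ∑ i ∈ P, ‖∫ w, ψ i w * G i (X w) (r i w) ∂μ‖ ≤ I / ε + ε * (1 + B + B ^ 2) * P.card := by
  have hY : FM (YP r P) := FM_YP r hr P
  have hY' : FM (YP r P') := FM_YP r hr P'
  have hYY : FM (fun w => (YP r P' w, YP r P w)) := hY'.pair hY
  have hI0 : 0 ≤ I := by
    refine le_trans ?_ hIle
    rw [sub_nonneg]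
    exact hst_anti μ hA hX hY' hYY fun x y h => (Prod.ext_iff.mp h).1
  rcases P.eq_empty_or_nonempty with hP | hP
  · subst hP
    simp only [Finset.sum_empty, Finset.card_empty, Nat.cast_zero, mul_zero, add_zero]
    positivity
  have hc : (0 : ℝ) < P.card := by exact_mod_cast hP.card_pos
  obtain ⟨κ, _, Q, ψt, hQ, hnear, hψt1, hψt2⟩ := exists_Q (ι := ι) μ hA hX hY' P
    (show 0 < ε ^ 2 * P.card by positivity) hε ψ hψ hψ1
  have hQm : FM Q := hQ.le hA
  have hZ : FM (fun w => (YP r P' w, Q w)) := hY'.pair hQm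
  have hV : FM (fun w => (X w, (YP r P' w, Q w))) := hX.pair hZ
  have hU := uind μ hI hd hQ
  have h3 := mutual_le μ hA hX hY' hY hQ hU hIle hnear
  -- phases
  set z : ι → ℂ := fun i => ∫ w, ψ i w * G i (X w) (r i w) ∂μ with hz
  choose θ hθ1 hθ2 using fun i : ι => Complex.exists_norm_eq_mul_self (z i)
  have hb0 : ∀ i : P, ∀ k x b, ‖ψt i k * G i x b‖ ≤ B := by
    intro i k x b
    rw [norm_mul]
    calc _ ≤ 1 * B := mul_le_mul (hψt1 i _) (hG i i.2 _ _) (norm_nonneg _) zero_le_one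
      _ = B := one_mul B
  have h5 := dv_block μ hr hV P B ε hε hεB
    (fun v i b => (θ i * (ψt i v.2.2 * G i v.1 b)).re) (by
      intro v i b
      refine (Complex.abs_re_le_norm _).trans ?_
      rw [norm_mul, hθ1, one_mul]
      exact hb0 i _ _ _) (by
      intro v i
      rw [← Complex.re_sum, ← Finset.mul_sum, ← Finset.mul_sum, hG0 i i.2, mul_zero, mul_zero,
        Complex.zero_re])
  -- back to the integrals
  have hGm : ∀ i, Measurable fun w => G i (X w) (r i w) := fun i =>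
    meas_fin (hX.pair (hr i)) (fun x : α × β i => G i x.1 x.2)
  have hψtm : ∀ i, Measurable fun w => ψt i (Q w) := fun i => meas_fin hQm (ψt i)
  have hψm : ∀ i ∈ P, Measurable (ψ i) := fun i hi => (hψ i hi).mono hA le_rfl
  have hb2 : ∀ (i : P) w, ‖ψ i w * G i (X w) (r i w)‖ ≤ B := by
    intro i w
    rw [norm_mul]
    calc _ ≤ 1 * B := mul_le_mul (hψ1 i i.2 _) (hG i i.2 _ _) (norm_nonneg _) zero_le_one
      _ = B := one_mul B
  have hint1 : ∀ i : P, Integrable (fun w => ψt i (Q w) * G i (X w) (r i w)) μ := fun i =>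
    integrable_bdd μ ((hψtm i).mul (hGm i)) (fun w => hb0 i _ _ _)
  have hint2 : ∀ i : P, Integrable (fun w => ψ i w * G i (X w) (r i w)) μ := fun i =>
    integrable_bdd μ ((hψm i i.2).mul (hGm i)) (hb2 i)
  have h6 : ∀ i : P, ∫ w, (θ i * (ψt i (Q w) * G i (X w) (r i w))).re ∂μ =
      (θ i * ∫ w, ψt i (Q w) * G i (X w) (r i w) ∂μ).re := by
    intro i
    rw [← integral_const_mul]
    exact integral_re ((hint1 i).const_mul (θ i))
  have h7 : ∀ i : P, ‖z i‖ ≤ (θ i * ∫ w, ψt i (Q w) * G i (X w) (r i w) ∂μ).re + ε * B := by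
    intro i
    have h8 : ‖z i‖ = (θ i * z i).re := by
      rw [← hθ2 i]
      simp
    have h9 : ‖z i - ∫ w, ψt i (Q w) * G i (X w) (r i w) ∂μ‖ ≤ ε * B := by
      rw [hz]
      simp only
      rw [← integral_sub (hint2 i) (hint1 i)]
      have := norm_integral_le_of_norm_le_const (μ := μ) (C := ε * B)
        (f := fun w => ψ i w * G i (X w) (r i w) - ψt i (Q w) * G i (X w) (r i w))
        (Eventually.of_forall fun w => by
          rw [← sub_mul, norm_mul]
          exact mul_le_mul (hψt2 i i.2 w) (hG i i.2 _ _) (norm_nonneg _) hε.le)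
      simpa using this
    have h10 : (θ i * z i).re - (θ i * ∫ w, ψt i (Q w) * G i (X w) (r i w) ∂μ).re ≤ ε * B := by
      rw [← Complex.sub_re, ← mul_sub]
      refine (Complex.re_le_norm _).trans ?_
      rw [norm_mul, hθ1, one_mul]
      exact h9
    linarith
  have h11 : ∑ i ∈ P, ‖z i‖ = ∑ i : P, ‖z i‖ := (Finset.sum_coe_sort P (fun i => ‖z i‖)).symm
  rw [h11]
  have h12 := Finset.sum_le_sum fun i (_ : i ∈ (Finset.univ : Finset P)) => h7 i
  rw [Finset.sum_add_distrib, Finset.sum_const, Finset.card_univ, Fintype.card_coe,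
    nsmul_eq_mul] at h12
  rw [Finset.sum_congr rfl fun i _ => h6 i] at h5
  have h13 : ∑ i : P, (θ i * ∫ w, ψt i (Q w) * G i (X w) (r i w) ∂μ).re ≤
      (I + ε ^ 2 * P.card + ε ^ 2 * B ^ 2 * P.card) / ε := by
    rw [le_div_iff₀ hε, mul_comm]
    linarith
  have h14 : (I + ε ^ 2 * P.card + ε ^ 2 * B ^ 2 * P.card) / ε =
      I / ε + ε * P.card + ε * B ^ 2 * P.card := by
    field_simp
  rw [h14] at h13
  calc _ ≤ _ := h12
    _ ≤ I / ε + ε * P.card + ε * B ^ 2 * P.card + P.card * (ε * B) := by linarith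
    _ = _ := by ring

end core

end Pool.Agent.S7e
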