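import Mathlib

/-!
S7e Corr: averaged two point correlations of a bounded sequence which is small in short intervals
against every character.
-/

set_option autoImplicit false

namespace Pool.Agent.S7e

open Finset Filter Topology

/-- short interval smallness against every character of `ℕ` -/
def SI (f : ℕ → ℂ) : Prop := ∀ l : ℂ, ‖l‖ = 1 → ∀ ε : ℝ, 0 < ε → ∃ H₀ : ℕ, ∀ H : ℕ, H₀ ≤ H →
  ∃ N₀ : ℕ, ∀ N : ℕ, N₀ ≤ N →
    ∑ m ∈ range N, ‖∑ n ∈ Ioc m (m + H), l ^ n * f n‖ ≤ ε * N * H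

theorem Cor_ioc {E : Type*} [AddCommMonoid E] (F : ℕ → E) (a H : ℕ) :
    ∑ n ∈ Ioc a (a + H), F n = ∑ j ∈ range H, F (a + j + 1) := by
  induction H with
  | zero => simp
  | succ H ih => rw [← add_assoc, Finset.sum_Ioc_succ_top (by omega), ih, Finset.sum_range_succ]

theorem Cor_shift1 (F : ℕ → ℂ) (B : ℝ) (hF : ∀ n, ‖F n‖ ≤ B) (a H i : ℕ) :
    ‖∑ j ∈ range H, F (a + i + j) - ∑ j ∈ range H, F (a + j)‖ ≤ 2 * i * B := by
  induction i with
  | zero => simp
  | succ i ih =>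
    have h1 : ∑ j ∈ range H, F (a + (i + 1) + j) =
        ∑ j ∈ range H, F (a + i + j) + (F (a + i + H) - F (a + i)) := by
      have h2 := Finset.sum_range_succ (fun j => F (a + i + j)) H
      have h3 := Finset.sum_range_succ' (fun j => F (a + i + j)) H
      have h4 : ∑ j ∈ range H, F (a + (i + 1) + j) = ∑ j ∈ range H, F (a + i + (j + 1)) :=
        Finset.sum_congr rfl fun j _ => by congr 1; omega
      rw [h4]
      rw [h2] at h3
      have h5 : F (a + i + 0) = F (a + i) := by rw [add_zero]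
      rw [h5] at h3
      linear_combination -h3
    have h6 : ‖F (a + i + H) - F (a + i)‖ ≤ 2 * B :=
      (norm_sub_le _ _).trans (by linarith [hF (a + i + H), hF (a + i)])
    have h7 : ∑ j ∈ range H, F (a + (i + 1) + j) - ∑ j ∈ range H, F (a + j) =
        (∑ j ∈ range H, F (a + i + j) - ∑ j ∈ range H, F (a + j)) + (F (a + i + H) - F (a + i)) := by
      rw [h1]; ring
    rw [h7]
    refine (norm_add_le _ _).trans ?_
    push_cast
    linarith

/-- a long window is an average of short ones -/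
theorem Cor_long (F : ℕ → ℂ) (hF : ∀ n, ‖F n‖ ≤ 1) (K H m : ℕ) :
    (K : ℝ) * ‖∑ n ∈ Ioc m (m + H), F n‖ ≤
      ∑ j ∈ range H, ‖∑ n ∈ Ioc (m + j) (m + j + K), F n‖ + 2 * K * K := by
  have h1 : ∑ i ∈ range K, ∑ j ∈ range H, F (m + 1 + i + j) =
      ∑ j ∈ range H, ∑ n ∈ Ioc (m + j) (m + j + K), F n := by
    rw [Finset.sum_comm]
    refine Finset.sum_congr rfl fun j _ => ?_
    rw [Cor_ioc]
    exact Finset.sum_congr rfl fun i _ => by congr 1; omega
  have h2 : (K : ℂ) * ∑ n ∈ Ioc m (m + H), F n =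
      ∑ i ∈ range K, ∑ j ∈ range H, F (m + 1 + i + j) -
        ∑ i ∈ range K, (∑ j ∈ range H, F (m + 1 + i + j) - ∑ j ∈ range H, F (m + 1 + j)) := by
    rw [← Finset.sum_sub_distrib, Cor_ioc]
    simp only [sub_sub_cancel]
    rw [Finset.sum_const, Finset.card_range, nsmul_eq_mul]
    congr 1
    exact Finset.sum_congr rfl fun j _ => by congr 1; omega
  have h3 : ‖∑ i ∈ range K, (∑ j ∈ range H, F (m + 1 + i + j) - ∑ j ∈ range H, F (m + 1 + j))‖ ≤
      2 * K * K := by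
    refine (norm_sum_le _ _).trans ?_
    calc ∑ i ∈ range K, ‖∑ j ∈ range H, F (m + 1 + i + j) - ∑ j ∈ range H, F (m + 1 + j)‖
        ≤ ∑ i ∈ range K, (2 * (K : ℝ)) := by
          refine Finset.sum_le_sum fun i hi => (Cor_shift1 F 1 hF (m + 1) H i).trans ?_
          have : (i : ℝ) ≤ K := by exact_mod_cast (Finset.mem_range.1 hi).le
          linarith
      _ = 2 * K * K := by rw [Finset.sum_const, Finset.card_range, nsmul_eq_mul]; ring
  calc (K : ℝ) * ‖∑ n ∈ Ioc m (m + H), F n‖ = ‖(K : ℂ) * ∑ n ∈ Ioc m (m + H), F n‖ := by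
        rw [norm_mul, Complex.norm_natCast]
    _ ≤ ‖∑ i ∈ range K, ∑ j ∈ range H, F (m + 1 + i + j)‖ + 2 * K * K := by
        rw [h2]; exact (norm_sub_le _ _).trans (by linarith)
    _ ≤ _ := by
        rw [h1]
        have := norm_sum_le (range H) fun j => ∑ n ∈ Ioc (m + j) (m + j + K), F n
        linarith

private theorem pow_sub_le (a b : ℂ) (ha : ‖a‖ = 1) (hb : ‖b‖ = 1) (n : ℕ) :
    ‖a ^ n - b ^ n‖ ≤ n * ‖a - b‖ := by
  induction n with
  | zero => simp
  | succ n ih =>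
    have h : a ^ (n + 1) - b ^ (n + 1) = a * (a ^ n - b ^ n) + (a - b) * b ^ n := by ring
    rw [h]
    refine (norm_add_le _ _).trans ?_
    rw [norm_mul, norm_mul, norm_pow, ha, hb, one_pow, one_mul, mul_one]
    push_cast
    linarith

private theorem norm_win (l : ℂ) (hl : ‖l‖ = 1) (f : ℕ → ℂ) (m H : ℕ) :
    ‖∑ n ∈ Ioc m (m + H), l ^ n * f n‖ = ‖∑ j ∈ range H, l ^ (j + 1) * f (m + j + 1)‖ := by
  rw [Cor_ioc]
  have : ∑ j ∈ range H, l ^ (m + j + 1) * f (m + j + 1) =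
      l ^ m * ∑ j ∈ range H, l ^ (j + 1) * f (m + j + 1) := by
    rw [Finset.mul_sum]
    exact Finset.sum_congr rfl fun j _ => by ring
  rw [this, norm_mul, norm_pow, hl, one_pow, one_mul]

/-- uniformity in the character -/
theorem si_unif (f : ℕ → ℂ) (hf : ∀ n, ‖f n‖ ≤ 1) (h : SI f) (ε : ℝ) (hε : 0 < ε) :
    ∃ H₀ : ℕ, ∀ H : ℕ, H₀ ≤ H → ∃ N₀ : ℕ, ∀ N : ℕ, N₀ ≤ N → ∀ l : ℂ, ‖l‖ = 1 →
      ∑ m ∈ range N, ‖∑ n ∈ Ioc m (m + H), l ^ n * f n‖ ≤ ε * N * H := by
  have key : ∀ l : ℂ, ∃ K N₀ : ℕ, 1 ≤ K ∧ (‖l‖ = 1 → ∀ N : ℕ, N₀ ≤ N →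
      ∑ m ∈ range N, ‖∑ n ∈ Ioc m (m + K), l ^ n * f n‖ ≤ ε / 4 * N * K) := by
    intro l
    by_cases hl : ‖l‖ = 1
    · obtain ⟨H₀, hH⟩ := h l hl (ε / 4) (by positivity)
      obtain ⟨N₀, hN⟩ := hH (H₀ + 1) (by omega)
      exact ⟨H₀ + 1, N₀, by omega, fun _ => hN⟩
    · exact ⟨1, 0, le_refl _, fun h => absurd h hl⟩
  choose K M hK1 hKM using key
  have hKpos : ∀ l, (0 : ℝ) < K l := fun l => by exact_mod_cast hK1 l
  obtain ⟨t, ht, hcov⟩ := (isCompact_sphere (0 : ℂ) 1).elim_nhds_subcover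
    (fun l => Metric.ball l (ε / (4 * K l))) (fun l _ => Metric.ball_mem_nhds _ (by
      have := hKpos l
      positivity))
  set A : ℕ := t.sup K with hA
  set B : ℕ := t.sup M with hB
  refine ⟨⌈8 * A / ε⌉₊, fun H hH => ⟨B + 2 * H, fun N hN l hl => ?_⟩⟩
  have hlmem : l ∈ Metric.sphere (0 : ℂ) 1 := by simpa using hl
  obtain ⟨l₀, hl₀t, hl₀⟩ : ∃ l₀ ∈ t, l ∈ Metric.ball l₀ (ε / (4 * K l₀)) := by
    have := hcov hlmem
    simpa using this
  have hl₀1 : ‖l₀‖ = 1 := by simpa using ht l₀ hl₀t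
  have hdist : ‖l - l₀‖ < ε / (4 * K l₀) := by
    rw [← dist_eq_norm]; exact hl₀
  have hKA : K l₀ ≤ A := Finset.le_sup hl₀t
  have hMB : M l₀ ≤ B := Finset.le_sup hl₀t
  set k := K l₀ with hk
  have hk1 : 1 ≤ k := hK1 l₀
  have hkr : (0 : ℝ) < k := by exact_mod_cast hk1
  -- short windows for l
  have hshort : ∀ N' : ℕ, M l₀ ≤ N' →
      ∑ m ∈ range N', ‖∑ n ∈ Ioc m (m + k), l ^ n * f n‖ ≤ ε / 2 * N' * k := by
    intro N' hN'
    have h1 : ∀ m : ℕ, ‖∑ n ∈ Ioc m (m + k), l ^ n * f n‖ ≤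
        ‖∑ n ∈ Ioc m (m + k), l₀ ^ n * f n‖ + ε / 4 * k := by
      intro m
      rw [norm_win l hl, norm_win l₀ hl₀1]
      have h2 : ∑ j ∈ range k, l ^ (j + 1) * f (m + j + 1) =
          ∑ j ∈ range k, l₀ ^ (j + 1) * f (m + j + 1) +
            ∑ j ∈ range k, (l ^ (j + 1) - l₀ ^ (j + 1)) * f (m + j + 1) := by
        rw [← Finset.sum_add_distrib]
        exact Finset.sum_congr rfl fun j _ => by ring
      rw [h2]
      refine (norm_add_le _ _).trans (add_le_add le_rfl ?_)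
      refine (norm_sum_le _ _).trans ?_
      calc ∑ j ∈ range k, ‖(l ^ (j + 1) - l₀ ^ (j + 1)) * f (m + j + 1)‖
          ≤ ∑ j ∈ range k, (ε / 4) := by
            refine Finset.sum_le_sum fun j hj => ?_
            rw [norm_mul]
            have h3 := pow_sub_le l l₀ hl hl₀1 (j + 1)
            have h4 : ((j + 1 : ℕ) : ℝ) ≤ k := by exact_mod_cast Finset.mem_range.1 hj
            have h5 : ‖l ^ (j + 1) - l₀ ^ (j + 1)‖ ≤ ε / 4 := by
              refine h3.trans ?_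
              calc ((j + 1 : ℕ) : ℝ) * ‖l - l₀‖ ≤ k * (ε / (4 * k)) :=
                    mul_le_mul h4 hdist.le (norm_nonneg _) hkr.le
                _ = ε / 4 := by field_simp
            calc ‖l ^ (j + 1) - l₀ ^ (j + 1)‖ * ‖f (m + j + 1)‖ ≤ ε / 4 * 1 :=
                  mul_le_mul h5 (hf _) (norm_nonneg _) (by positivity)
              _ = ε / 4 := mul_one _
        _ = ε / 4 * k := by rw [Finset.sum_const, Finset.card_range, nsmul_eq_mul]; ring
    calc ∑ m ∈ range N', ‖∑ n ∈ Ioc m (m + k), l ^ n * f n‖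
        ≤ ∑ m ∈ range N', (‖∑ n ∈ Ioc m (m + k), l₀ ^ n * f n‖ + ε / 4 * k) :=
          Finset.sum_le_sum fun m _ => h1 m
      _ = ∑ m ∈ range N', ‖∑ n ∈ Ioc m (m + k), l₀ ^ n * f n‖ + N' * (ε / 4 * k) := by
          rw [Finset.sum_add_distrib, Finset.sum_const, Finset.card_range, nsmul_eq_mul]
      _ ≤ ε / 4 * N' * k + N' * (ε / 4 * k) := by
          have := hKM l₀ hl₀1 N' hN'
          linarith
      _ = ε / 2 * N' * k := by ring
  -- long windows
  have hF : ∀ n, ‖l ^ n * f n‖ ≤ 1 := fun n => by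
    rw [norm_mul, norm_pow, hl, one_pow, one_mul]; exact hf n
  have h2 : (k : ℝ) * ∑ m ∈ range N, ‖∑ n ∈ Ioc m (m + H), l ^ n * f n‖ ≤
      H * (ε / 2 * ((N + H : ℕ) : ℝ) * k) + N * (2 * k * k) := by
    rw [Finset.mul_sum]
    calc ∑ m ∈ range N, (k : ℝ) * ‖∑ n ∈ Ioc m (m + H), l ^ n * f n‖
        ≤ ∑ m ∈ range N, (∑ j ∈ range H, ‖∑ n ∈ Ioc (m + j) (m + j + k), l ^ n * f n‖ +
            2 * k * k) := Finset.sum_le_sum fun m _ => Cor_long _ hF k H m
      _ = ∑ j ∈ range H, ∑ m ∈ range N, ‖∑ n ∈ Ioc (m + j) (m + j + k), l ^ n * f n‖ +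
            N * (2 * k * k) := by
          rw [Finset.sum_add_distrib, Finset.sum_const, Finset.card_range, nsmul_eq_mul,
            Finset.sum_comm]
      _ ≤ ∑ j ∈ range H, (ε / 2 * ((N + H : ℕ) : ℝ) * k) + N * (2 * k * k) := by
          refine add_le_add (Finset.sum_le_sum fun j hj => ?_) le_rfl
          have hj' := Finset.mem_range.1 hj
          refine le_trans ?_ (hshort (N + H) (by omega))
          have himg : ∑ m ∈ range N, ‖∑ n ∈ Ioc (m + j) (m + j + k), l ^ n * f n‖ =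
              ∑ m ∈ (range N).map (addRightEmbedding j), ‖∑ n ∈ Ioc m (m + k), l ^ n * f n‖ := by
            rw [Finset.sum_map]
            rfl
          rw [himg]
          refine Finset.sum_le_sum_of_subset_of_nonneg ?_ fun _ _ _ => norm_nonneg _
          intro x hx
          rw [Finset.mem_map] at hx
          obtain ⟨y, hy, rfl⟩ := hx
          rw [Finset.mem_range] at hy ⊢
          simp only [addRightEmbedding_apply]
          omega
      _ = _ := by rw [Finset.sum_const, Finset.card_range, nsmul_eq_mul]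
  have hHA : 8 * (A : ℝ) ≤ ε * H := by
    have h3 : 8 * (A : ℝ) / ε ≤ H := (Nat.le_ceil _).trans (by exact_mod_cast hH)
    rw [div_le_iff₀ hε] at h3
    linarith
  have hkA : (k : ℝ) ≤ A := by exact_mod_cast hKA
  have hNH : 2 * (H : ℝ) ≤ N := by
    have : 2 * H ≤ N := by omega
    exact_mod_cast this
  have hH0 : (0 : ℝ) ≤ H := Nat.cast_nonneg _
  have hN0 : (0 : ℝ) ≤ N := Nat.cast_nonneg _
  have h4 : (k : ℝ) * ∑ m ∈ range N, ‖∑ n ∈ Ioc m (m + H), l ^ n * f n‖ ≤ k * (ε * N * H) := by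
    refine h2.trans ?_
    push_cast
    have h5 : (H : ℝ) * (ε / 2 * (N + H) * k) + N * (2 * k * k) =
        k * (ε / 2 * N * H + ε / 2 * H * H + 2 * k * N) := by ring
    rw [h5]
    refine mul_le_mul_of_nonneg_left ?_ hkr.le
    have h6 : ε / 2 * H * H ≤ ε / 4 * N * H := by
      have : ε / 4 * H * (2 * H) ≤ ε / 4 * H * N :=
        mul_le_mul_of_nonneg_left hNH (by positivity)
      linarith
    have h7 : 2 * (k : ℝ) * N ≤ ε / 4 * N * H := by
      have : 8 * (k : ℝ) * N ≤ ε * H * N := mul_le_mul_of_nonneg_right (by linarith) hN0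
      linarith
    linarith
  exact le_of_mul_le_mul_left h4 hkr

end Pool.Agent.S7e
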