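import Pool.Agent.S7e.Corr

/-!
S7e Corr2: averaged two point correlations, the Fourier argument.
-/

set_option autoImplicit false

namespace Pool.Agent.S7e

open Finset Filter Topology
open scoped ComplexConjugate

/-- the `j`-th `Q`-th root of unity -/
noncomputable def zz (Q j : ℕ) : ℂ := Complex.exp (2 * Real.pi * Complex.I / Q) ^ j

theorem zz_norm (Q j : ℕ) : ‖zz Q j‖ = 1 := by
  unfold zz
  rw [norm_pow]
  have h : ‖Complex.exp (2 * Real.pi * Complex.I / Q)‖ = 1 := by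
    have h2 : (2 * Real.pi * Complex.I / Q : ℂ) = ((2 * Real.pi / Q : ℝ) : ℂ) * Complex.I := by
      push_cast; ring
    rw [h2, Complex.norm_exp_ofReal_mul_I]
  rw [h, one_pow]

theorem zz_geom (Q k : ℕ) (hk : 1 ≤ k) (hkQ : k < Q) : ∑ j ∈ range Q, zz Q j ^ k = 0 := by
  have hprim : IsPrimitiveRoot (Complex.exp (2 * Real.pi * Complex.I / Q)) Q :=
    Complex.isPrimitiveRoot_exp Q (by omega)
  set z := Complex.exp (2 * Real.pi * Complex.I / Q) with hz
  have h1 : z ^ k ≠ 1 := hprim.pow_ne_one_of_pos_of_lt (by omega) hkQ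
  have h2 : ∑ j ∈ range Q, zz Q j ^ k = ∑ j ∈ range Q, (z ^ k) ^ j := by
    refine Finset.sum_congr rfl fun j _ => ?_
    unfold zz
    rw [← hz, ← pow_mul, ← pow_mul, mul_comm]
  rw [h2, geom_sum_eq h1]
  have : (z ^ k) ^ Q = 1 := by rw [← pow_mul, mul_comm, pow_mul, hprim.pow_eq_one, one_pow]
  rw [this, sub_self, zero_div]

private theorem conj_mul_pow (z : ℂ) (hz : ‖z‖ = 1) (a b : ℕ) (h : b ≤ a) :
    z ^ a * conj (z ^ b) = z ^ (a - b) := by
  have h1 : z ^ b * conj (z ^ b) = 1 := by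
    rw [Complex.mul_conj, Complex.normSq_eq_norm_sq, norm_pow, hz]; simp
  calc z ^ a * conj (z ^ b) = z ^ (a - b) * (z ^ b * conj (z ^ b)) := by
        rw [← mul_assoc, ← pow_add, Nat.sub_add_cancel h]
    _ = _ := by rw [h1, mul_one]

/-- orthogonality -/
theorem orth (Q a b : ℕ) (h1 : a < b + Q) (h2 : b < a + Q) :
    ∑ j ∈ range Q, zz Q j ^ a * conj (zz Q j ^ b) = if a = b then (Q : ℂ) else 0 := by
  rcases lt_trichotomy a b with h | h | h
  · rw [if_neg h.ne]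
    have h3 : ∑ j ∈ range Q, zz Q j ^ a * conj (zz Q j ^ b) =
        conj (∑ j ∈ range Q, zz Q j ^ (b - a)) := by
      rw [map_sum]
      refine Finset.sum_congr rfl fun j _ => ?_
      rw [← conj_mul_pow _ (zz_norm Q j) b a h.le, map_mul, Complex.conj_conj, mul_comm]
    rw [h3, zz_geom Q (b - a) (by omega) (by omega), map_zero]
  · subst h
    rw [if_pos rfl]
    have : ∀ j ∈ range Q, zz Q j ^ a * conj (zz Q j ^ a) = 1 := fun j _ => by
      rw [conj_mul_pow _ (zz_norm Q j) a a le_rfl, Nat.sub_self, pow_zero]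
    rw [Finset.sum_congr rfl this, Finset.sum_const, Finset.card_range, nsmul_eq_mul, mul_one]
  · rw [if_neg h.ne']
    have h3 : ∑ j ∈ range Q, zz Q j ^ a * conj (zz Q j ^ b) = ∑ j ∈ range Q, zz Q j ^ (a - b) :=
      Finset.sum_congr rfl fun j _ => conj_mul_pow _ (zz_norm Q j) a b h.le
    rw [h3, zz_geom Q (a - b) (by omega) (by omega)]

/-- Parseval on a set of diameter less than `Q` -/
theorem pars (Q : ℕ) (I : Finset ℕ) (hI : ∀ a ∈ I, ∀ b ∈ I, a < b + Q) (c : ℕ → ℂ) :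
    ∑ j ∈ range Q, ‖∑ n ∈ I, c n * zz Q j ^ n‖ ^ 2 = Q * ∑ n ∈ I, ‖c n‖ ^ 2 := by
  have h1 : ((∑ j ∈ range Q, ‖∑ n ∈ I, c n * zz Q j ^ n‖ ^ 2 : ℝ) : ℂ) =
      ((Q * ∑ n ∈ I, ‖c n‖ ^ 2 : ℝ) : ℂ) := by
    push_cast
    have hsq : ∀ w : ℂ, ((‖w‖ : ℝ) : ℂ) ^ 2 = w * conj w := fun w => by
      rw [Complex.mul_conj, Complex.normSq_eq_norm_sq]; push_cast; rfl
    simp_rw [hsq]
    calc ∑ j ∈ range Q, (∑ n ∈ I, c n * zz Q j ^ n) * conj (∑ n ∈ I, c n * zz Q j ^ n)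
        = ∑ j ∈ range Q, ∑ a ∈ I, ∑ b ∈ I, c a * conj (c b) * (zz Q j ^ a * conj (zz Q j ^ b)) := by
          refine Finset.sum_congr rfl fun j _ => ?_
          rw [map_sum, Finset.sum_mul_sum]
          refine Finset.sum_congr rfl fun a _ => Finset.sum_congr rfl fun b _ => ?_
          rw [map_mul]; ring
      _ = ∑ a ∈ I, ∑ b ∈ I, c a * conj (c b) * ∑ j ∈ range Q, (zz Q j ^ a * conj (zz Q j ^ b)) := by
          rw [Finset.sum_comm]
          refine Finset.sum_congr rfl fun a _ => ?_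
          rw [Finset.sum_comm]
          refine Finset.sum_congr rfl fun b _ => ?_
          rw [Finset.mul_sum]
      _ = ∑ a ∈ I, ∑ b ∈ I, c a * conj (c b) * (if a = b then (Q : ℂ) else 0) := by
          refine Finset.sum_congr rfl fun a ha => Finset.sum_congr rfl fun b hb => ?_
          rw [orth Q a b (hI a ha b hb) (hI b hb a ha)]
      _ = (Q : ℂ) * ∑ a ∈ I, c a * conj (c a) := by
          rw [Finset.mul_sum]
          refine Finset.sum_congr rfl fun a ha => ?_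
          rw [Finset.sum_eq_single_of_mem a ha]
          · rw [if_pos rfl]; ring
          · intro b _ hb
            rw [if_neg (Ne.symm hb), mul_zero]
  exact_mod_cast h1

/-- the triple expansion on one window -/
private theorem triple (H m : ℕ) (u a b : ℕ → ℂ) :
    ((2 * H : ℕ) : ℂ) * ∑ n ∈ Ioc m (m + H), ∑ k ∈ range H, u k * a n * b (n + k) =
      ∑ j ∈ range (2 * H), (∑ k ∈ range H, u k * zz (2 * H) j ^ k) *
        (∑ n ∈ Ioc m (m + H), a n * zz (2 * H) j ^ n) *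
        conj (∑ n ∈ Ioc m (m + 2 * H), conj (b n) * zz (2 * H) j ^ n) := by
  have h1 : ∀ j, (∑ k ∈ range H, u k * zz (2 * H) j ^ k) *
        (∑ n ∈ Ioc m (m + H), a n * zz (2 * H) j ^ n) *
        conj (∑ n ∈ Ioc m (m + 2 * H), conj (b n) * zz (2 * H) j ^ n) =
      ∑ n ∈ Ioc m (m + H), ∑ k ∈ range H, ∑ n' ∈ Ioc m (m + 2 * H),
        u k * a n * b n' * (zz (2 * H) j ^ (n + k) * conj (zz (2 * H) j ^ n')) := by
    intro j
    rw [mul_comm (∑ k ∈ range H, u k * zz (2 * H) j ^ k), Finset.sum_mul_sum, Finset.sum_mul,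
      map_sum]
    refine Finset.sum_congr rfl fun n _ => ?_
    rw [Finset.sum_mul_sum]
    refine Finset.sum_congr rfl fun k _ => Finset.sum_congr rfl fun n' _ => ?_
    rw [map_mul, Complex.conj_conj, pow_add]
    ring
  simp_rw [h1]
  conv_rhs => rw [Finset.sum_comm]
  rw [Finset.mul_sum]
  refine Finset.sum_congr rfl fun n hn => ?_
  conv_rhs => rw [Finset.sum_comm]
  rw [Finset.mul_sum]
  refine Finset.sum_congr rfl fun k hk => ?_
  rw [Finset.sum_comm]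
  rw [Finset.mem_Ioc] at hn
  rw [Finset.mem_range] at hk
  have hmem : n + k ∈ Ioc m (m + 2 * H) := by
    rw [Finset.mem_Ioc]; omega
  rw [Finset.sum_eq_single_of_mem (n + k) hmem]
  · rw [← Finset.mul_sum, orth (2 * H) (n + k) (n + k) (by omega) (by omega), if_pos rfl]
    ring
  · intro n' hn' hne
    rw [Finset.mem_Ioc] at hn'
    rw [← Finset.mul_sum, orth (2 * H) (n + k) n' (by omega) (by omega), if_neg (Ne.symm hne),
      mul_zero]

/-- the bilinear bound: `A j`, `B j` bound the square means of the two transforms -/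
private theorem bilin (H N : ℕ) (hH : 1 ≤ H) (u a b : ℕ → ℂ) (hu : ∀ k, ‖u k‖ ≤ 1) :
    (((2 * H : ℕ) : ℝ) * ‖∑ m ∈ range N, ∑ n ∈ Ioc m (m + H), ∑ k ∈ range H,
        u k * a n * b (n + k)‖) ^ 2 ≤
      (2 * H * H) * ∑ j ∈ range (2 * H),
        (∑ m ∈ range N, ‖∑ n ∈ Ioc m (m + H), a n * zz (2 * H) j ^ n‖ ^ 2) *
        (∑ m ∈ range N, ‖∑ n ∈ Ioc m (m + 2 * H), conj (b n) * zz (2 * H) j ^ n‖ ^ 2) := by
  set U : ℕ → ℝ := fun j => ‖∑ k ∈ range H, u k * zz (2 * H) j ^ k‖ with hU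
  set A : ℕ → ℕ → ℝ := fun j m => ‖∑ n ∈ Ioc m (m + H), a n * zz (2 * H) j ^ n‖ with hA
  set B : ℕ → ℕ → ℝ := fun j m => ‖∑ n ∈ Ioc m (m + 2 * H), conj (b n) * zz (2 * H) j ^ n‖ with hB
  have h1 : ((2 * H : ℕ) : ℝ) * ‖∑ m ∈ range N, ∑ n ∈ Ioc m (m + H), ∑ k ∈ range H,
        u k * a n * b (n + k)‖ ≤ ∑ j ∈ range (2 * H), U j * ∑ m ∈ range N, A j m * B j m := by
    calc ((2 * H : ℕ) : ℝ) * ‖∑ m ∈ range N, ∑ n ∈ Ioc m (m + H), ∑ k ∈ range H,
          u k * a n * b (n + k)‖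
        = ‖∑ m ∈ range N, ((2 * H : ℕ) : ℂ) * ∑ n ∈ Ioc m (m + H), ∑ k ∈ range H,
          u k * a n * b (n + k)‖ := by
          rw [← Finset.mul_sum, norm_mul, Complex.norm_natCast]
      _ = ‖∑ j ∈ range (2 * H), ∑ m ∈ range N, (∑ k ∈ range H, u k * zz (2 * H) j ^ k) *
          (∑ n ∈ Ioc m (m + H), a n * zz (2 * H) j ^ n) *
          conj (∑ n ∈ Ioc m (m + 2 * H), conj (b n) * zz (2 * H) j ^ n)‖ := by
          congr 1
          conv_rhs => rw [Finset.sum_comm]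
          exact Finset.sum_congr rfl fun m _ => triple H m u a b
      _ ≤ ∑ j ∈ range (2 * H), ∑ m ∈ range N, U j * (A j m * B j m) := by
          refine (norm_sum_le _ _).trans (Finset.sum_le_sum fun j _ => ?_)
          refine (norm_sum_le _ _).trans (Finset.sum_le_sum fun m _ => ?_)
          rw [norm_mul, norm_mul, Complex.norm_conj]
          exact le_of_eq (by rw [mul_assoc])
      _ = _ := by
          refine Finset.sum_congr rfl fun j _ => ?_
          rw [Finset.mul_sum]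
  have hU2 : ∑ j ∈ range (2 * H), U j ^ 2 ≤ 2 * H * H := by
    rw [hU]
    rw [pars (2 * H) (range H) (fun a ha b hb => by
      rw [Finset.mem_range] at ha hb; omega) u]
    have : ∑ n ∈ range H, ‖u n‖ ^ 2 ≤ H := by
      calc ∑ n ∈ range H, ‖u n‖ ^ 2 ≤ ∑ n ∈ range H, (1 : ℝ) :=
            Finset.sum_le_sum fun n _ => by
              have := hu n
              have h0 := norm_nonneg (u n)
              nlinarith
        _ = H := by simp
    push_cast
    exact mul_le_mul_of_nonneg_left this (by positivity)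
  have hnn : 0 ≤ ((2 * H : ℕ) : ℝ) * ‖∑ m ∈ range N, ∑ n ∈ Ioc m (m + H), ∑ k ∈ range H,
        u k * a n * b (n + k)‖ := by positivity
  calc (((2 * H : ℕ) : ℝ) * ‖∑ m ∈ range N, ∑ n ∈ Ioc m (m + H), ∑ k ∈ range H,
        u k * a n * b (n + k)‖) ^ 2
      ≤ (∑ j ∈ range (2 * H), U j * ∑ m ∈ range N, A j m * B j m) ^ 2 :=
        pow_le_pow_left₀ hnn h1 2
    _ ≤ (∑ j ∈ range (2 * H), U j ^ 2) *
        ∑ j ∈ range (2 * H), (∑ m ∈ range N, A j m * B j m) ^ 2 :=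
        Finset.sum_mul_sq_le_sq_mul_sq _ _ _
    _ ≤ (2 * H * H) * ∑ j ∈ range (2 * H),
        (∑ m ∈ range N, A j m ^ 2) * (∑ m ∈ range N, B j m ^ 2) := by
        refine mul_le_mul hU2 (Finset.sum_le_sum fun j _ => Finset.sum_mul_sq_le_sq_mul_sq _ _ _)
          (Finset.sum_nonneg fun j _ => sq_nonneg _) (by positivity)

/-- mean square of a transform over all frequencies -/
private theorem meansq (Q N L : ℕ) (hL : L ≤ Q) (c : ℕ → ℂ) (hc : ∀ n, ‖c n‖ ≤ 1) :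
    ∑ j ∈ range Q, ∑ m ∈ range N, ‖∑ n ∈ Ioc m (m + L), c n * zz Q j ^ n‖ ^ 2 ≤
      (N : ℝ) * (Q * L) := by
  rw [Finset.sum_comm]
  calc ∑ m ∈ range N, ∑ j ∈ range Q, ‖∑ n ∈ Ioc m (m + L), c n * zz Q j ^ n‖ ^ 2
      ≤ ∑ m ∈ range N, ((Q : ℝ) * L) := by
        refine Finset.sum_le_sum fun m _ => ?_
        rw [pars Q (Ioc m (m + L)) (fun a ha b hb => by
          rw [Finset.mem_Ioc] at ha hb; omega) c]
        refine mul_le_mul_of_nonneg_left ?_ (Nat.cast_nonneg _)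
        calc ∑ n ∈ Ioc m (m + L), ‖c n‖ ^ 2 ≤ ∑ n ∈ Ioc m (m + L), (1 : ℝ) :=
              Finset.sum_le_sum fun n _ => by
                have := hc n
                have h0 := norm_nonneg (c n)
                nlinarith
          _ = L := by simp
    _ = _ := by rw [Finset.sum_const, Finset.card_range, nsmul_eq_mul]

private theorem sq_win (f : ℕ → ℂ) (hf : ∀ n, ‖f n‖ ≤ 1) (l : ℂ) (hl : ‖l‖ = 1) (L N : ℕ) (S : ℝ)
    (hS : ∑ m ∈ range N, ‖∑ n ∈ Ioc m (m + L), l ^ n * f n‖ ≤ S) :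
    ∑ m ∈ range N, ‖∑ n ∈ Ioc m (m + L), f n * l ^ n‖ ^ 2 ≤ L * S := by
  calc ∑ m ∈ range N, ‖∑ n ∈ Ioc m (m + L), f n * l ^ n‖ ^ 2
      ≤ ∑ m ∈ range N, (L : ℝ) * ‖∑ n ∈ Ioc m (m + L), l ^ n * f n‖ := by
        refine Finset.sum_le_sum fun m _ => ?_
        have h1 : ∑ n ∈ Ioc m (m + L), f n * l ^ n = ∑ n ∈ Ioc m (m + L), l ^ n * f n :=
          Finset.sum_congr rfl fun n _ => mul_comm _ _
        rw [h1, sq]
        refine mul_le_mul_of_nonneg_right ?_ (norm_nonneg _)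
        refine (norm_sum_le _ _).trans ?_
        calc ∑ n ∈ Ioc m (m + L), ‖l ^ n * f n‖ ≤ ∑ n ∈ Ioc m (m + L), (1 : ℝ) :=
              Finset.sum_le_sum fun n _ => by
                rw [norm_mul, norm_pow, hl, one_pow, one_mul]; exact hf n
          _ = L := by simp
    _ = L * ∑ m ∈ range N, ‖∑ n ∈ Ioc m (m + L), l ^ n * f n‖ := by rw [Finset.mul_sum]
    _ ≤ L * S := mul_le_mul_of_nonneg_left hS (Nat.cast_nonneg _)

/-- from the window sums to the correlations -/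
private theorem unwind (H N : ℕ) (a b : ℕ → ℂ) (ha : ∀ n, ‖a n‖ ≤ 1) (hb : ∀ n, ‖b n‖ ≤ 1) :
    ∃ u : ℕ → ℂ, (∀ k, ‖u k‖ ≤ 1) ∧
      (H : ℝ) * ∑ k ∈ range H, ‖∑ n ∈ range N, a n * b (n + k)‖ ≤
        ‖∑ m ∈ range N, ∑ n ∈ Ioc m (m + H), ∑ k ∈ range H, u k * a n * b (n + k)‖ +
          4 * H * H * H := by
  have hph : ∀ w : ℂ, ∃ v : ℂ, ‖v‖ ≤ 1 ∧ v * w = (‖w‖ : ℂ) := by
    intro w
    rcases eq_or_ne w 0 with h | h
    · exact ⟨0, by simp, by simp [h]⟩
    · refine ⟨conj w / ‖w‖, ?_, ?_⟩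
      · rw [norm_div, Complex.norm_conj, Complex.norm_real, norm_norm]
        exact (div_self (norm_ne_zero_iff.2 h)).le
      · have h1 : (‖w‖ : ℂ) ≠ 0 := by
          rw [Ne, Complex.ofReal_eq_zero]; exact norm_ne_zero_iff.2 h
        have h2 : conj w * w = (‖w‖ : ℂ) * ‖w‖ := by
          rw [mul_comm, Complex.mul_conj, Complex.normSq_eq_norm_sq]
          push_cast; ring
        field_simp
        rw [h2]; ring
  choose v hv1 hv2 using hph
  set u : ℕ → ℂ := fun k => v (∑ n ∈ range N, a n * b (n + k)) with hu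
  refine ⟨u, fun k => hv1 _, ?_⟩
  set F : ℕ → ℂ := fun n => ∑ k ∈ range H, u k * a n * b (n + k) with hF
  have hFn : ∀ n, ‖F n‖ ≤ H := by
    intro n
    refine (norm_sum_le _ _).trans ?_
    calc ∑ k ∈ range H, ‖u k * a n * b (n + k)‖ ≤ ∑ k ∈ range H, (1 : ℝ) := by
          refine Finset.sum_le_sum fun k _ => ?_
          rw [norm_mul, norm_mul]
          calc ‖u k‖ * ‖a n‖ * ‖b (n + k)‖ ≤ 1 * 1 * 1 :=
                mul_le_mul (mul_le_mul (hv1 _) (ha n) (norm_nonneg _) zero_le_one) (hb _)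
                  (norm_nonneg _) (by norm_num)
            _ = 1 := by norm_num
      _ = H := by simp
  have hsum : ∑ n ∈ range N, F n = ((∑ k ∈ range H, ‖∑ n ∈ range N, a n * b (n + k)‖ : ℝ) : ℂ) := by
    rw [hF, Finset.sum_comm]
    push_cast
    refine Finset.sum_congr rfl fun k _ => ?_
    rw [← hv2, Finset.mul_sum]
    exact Finset.sum_congr rfl fun n _ => by rw [hu]; ring
  have hwin : ∑ m ∈ range N, ∑ n ∈ Ioc m (m + H), F n =
      (H : ℂ) * ∑ n ∈ range N, F n +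
        ∑ i ∈ range H, (∑ m ∈ range N, F (0 + (i + 1) + m) - ∑ m ∈ range N, F (0 + m)) := by
    rw [Finset.sum_sub_distrib, Finset.sum_const, Finset.card_range, nsmul_eq_mul]
    have h1 : ∑ m ∈ range N, ∑ n ∈ Ioc m (m + H), F n =
        ∑ i ∈ range H, ∑ m ∈ range N, F (0 + (i + 1) + m) := by
      rw [Finset.sum_comm]
      refine Finset.sum_congr rfl fun m _ => ?_
      rw [Cor_ioc]
      exact Finset.sum_congr rfl fun i _ => by congr 1; omega
    have h2 : ∑ m ∈ range N, F (0 + m) = ∑ n ∈ range N, F n :=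
      Finset.sum_congr rfl fun m _ => by rw [zero_add]
    rw [h1, h2]; ring
  have herr : ‖∑ i ∈ range H, (∑ m ∈ range N, F (0 + (i + 1) + m) - ∑ m ∈ range N, F (0 + m))‖ ≤
      4 * H * H * H := by
    refine (norm_sum_le _ _).trans ?_
    calc ∑ i ∈ range H, ‖∑ m ∈ range N, F (0 + (i + 1) + m) - ∑ m ∈ range N, F (0 + m)‖
        ≤ ∑ i ∈ range H, (4 * (H : ℝ) * H) := by
          refine Finset.sum_le_sum fun i hi => (Cor_shift1 F H hFn 0 N (i + 1)).trans ?_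
          have h3 : ((i + 1 : ℕ) : ℝ) ≤ H := by exact_mod_cast Finset.mem_range.1 hi
          have h0 : (0 : ℝ) ≤ H := Nat.cast_nonneg _
          nlinarith
      _ = 4 * H * H * H := by rw [Finset.sum_const, Finset.card_range, nsmul_eq_mul]; ring
  have hfin : ((H : ℝ) * ∑ k ∈ range H, ‖∑ n ∈ range N, a n * b (n + k)‖) =
      ‖(H : ℂ) * ∑ n ∈ range N, F n‖ := by
    rw [hsum, norm_mul, Complex.norm_natCast, Complex.norm_real, Real.norm_of_nonneg
      (Finset.sum_nonneg fun k _ => norm_nonneg _)]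
  rw [hfin]
  have h5 : (H : ℂ) * ∑ n ∈ range N, F n = ∑ m ∈ range N, ∑ n ∈ Ioc m (m + H), F n -
      ∑ i ∈ range H, (∑ m ∈ range N, F (0 + (i + 1) + m) - ∑ m ∈ range N, F (0 + m)) := by
    rw [hwin]; ring
  rw [h5]
  exact (norm_sub_le _ _).trans (by linarith)

private theorem closing (H N : ℕ) (δ ε X Y : ℝ) (hH : 1 ≤ H) (hε : 0 < ε)
    (hδε : 4 * δ ≤ ε ^ 2 / 4)
    (hN : 8 * (H : ℝ) ≤ ε * N) (h1 : (H : ℝ) * X ≤ Y + 4 * H * H * H)
    (h2 : (((2 * H : ℕ) : ℝ) * Y) ^ 2 ≤ (2 * H * H) * (δ * N * H * (2 * H) * (N * (2 * H * (2 * H))))) :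
    X ≤ ε * N * H := by
  have hHr : (0 : ℝ) < H := by exact_mod_cast hH
  have hNr : (0 : ℝ) ≤ N := Nat.cast_nonneg _
  have h3 : Y ^ 2 ≤ (4 * δ) * (N * H * H) ^ 2 := by
    have h4 : (4 * (H : ℝ) ^ 2) * Y ^ 2 ≤ (4 * (H : ℝ) ^ 2) * ((4 * δ) * (N * H * H) ^ 2) := by
      push_cast at h2
      nlinarith [h2]
    exact le_of_mul_le_mul_left h4 (by positivity)
  have h5 : Y ≤ ε / 2 * (N * H * H) := by
    have h6 : Y ^ 2 ≤ (ε / 2 * (N * H * H)) ^ 2 := by
      refine h3.trans ?_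
      have : (ε / 2 * (N * H * H)) ^ 2 = ε ^ 2 / 4 * ((N : ℝ) * H * H) ^ 2 := by ring
      rw [this]
      exact mul_le_mul_of_nonneg_right hδε (sq_nonneg _)
    exact abs_le_of_sq_le_sq' h6 (by positivity) |>.2
  have h7 : 4 * (H : ℝ) * H * H ≤ ε / 2 * (N * H * H) := by
    have : 8 * (H : ℝ) * (H * H) ≤ ε * N * (H * H) :=
      mul_le_mul_of_nonneg_right hN (by positivity)
    nlinarith
  have h8 : (H : ℝ) * X ≤ H * (ε * N * H) := by
    refine h1.trans ?_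
    have : (H : ℝ) * (ε * N * H) = ε / 2 * (N * H * H) + ε / 2 * (N * H * H) := by ring
    rw [this]
    linarith
  exact le_of_mul_le_mul_left h8 hHr

/-- averaged correlations of a small sequence `f` with an arbitrary bounded sequence `g`,
uniformly in `g` -/
theorem corr (f : ℕ → ℂ) (hf : ∀ n, ‖f n‖ ≤ 1) (h : SI f) (ε : ℝ) (hε : 0 < ε) :
    ∃ H₀ : ℕ, ∀ H : ℕ, H₀ ≤ H → ∃ N₀ : ℕ, ∀ N : ℕ, N₀ ≤ N → ∀ g : ℕ → ℂ, (∀ n, ‖g n‖ ≤ 1) →
      ∑ k ∈ range H, ‖∑ n ∈ range N, f n * g (n + k)‖ ≤ ε * N * H ∧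
      ∑ k ∈ range H, ‖∑ n ∈ range N, g n * f (n + k)‖ ≤ ε * N * H := by
  set δ : ℝ := ε ^ 2 / 16 with hδ
  have hδ0 : 0 < δ := by positivity
  obtain ⟨H₀, hH₀⟩ := si_unif f hf h (δ / 2) (by positivity)
  refine ⟨H₀ + 1, fun H hH => ?_⟩
  have hH1 : 1 ≤ H := by omega
  have hHr : (0 : ℝ) < H := by exact_mod_cast hH1
  obtain ⟨N₁, hN₁⟩ := hH₀ H (by omega)
  obtain ⟨N₂, hN₂⟩ := hH₀ (2 * H) (by omega)
  refine ⟨max (max N₁ N₂) ⌈8 * (H : ℝ) / ε⌉₊, fun N hN g hg => ?_⟩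
  have hNN1 : N₁ ≤ N := (le_max_left _ _).trans ((le_max_left _ _).trans hN)
  have hNN2 : N₂ ≤ N := (le_max_right _ _).trans ((le_max_left _ _).trans hN)
  have hN8 : 8 * (H : ℝ) ≤ ε * N := by
    have h1 : 8 * (H : ℝ) / ε ≤ N :=
      (Nat.le_ceil _).trans (by exact_mod_cast (le_max_right _ _).trans hN)
    rw [div_le_iff₀ hε] at h1
    linarith
  have hNr : (0 : ℝ) ≤ N := Nat.cast_nonneg _
  have hδε : 4 * δ ≤ ε ^ 2 / 4 := by rw [hδ]; linarith
  constructor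
  · obtain ⟨u, hu, hun⟩ := unwind H N f g hf hg
    refine closing H N δ ε _ _ hH1 hε hδε hN8 hun ?_
    refine (bilin H N hH1 u f g hu).trans ?_
    refine mul_le_mul_of_nonneg_left ?_ (by positivity)
    calc ∑ j ∈ range (2 * H),
        (∑ m ∈ range N, ‖∑ n ∈ Ioc m (m + H), f n * zz (2 * H) j ^ n‖ ^ 2) *
        (∑ m ∈ range N, ‖∑ n ∈ Ioc m (m + 2 * H), conj (g n) * zz (2 * H) j ^ n‖ ^ 2)
        ≤ ∑ j ∈ range (2 * H), (H * (δ / 2 * N * H)) *
        (∑ m ∈ range N, ‖∑ n ∈ Ioc m (m + 2 * H), conj (g n) * zz (2 * H) j ^ n‖ ^ 2) := by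
          refine Finset.sum_le_sum fun j _ => mul_le_mul_of_nonneg_right ?_
            (Finset.sum_nonneg fun m _ => sq_nonneg _)
          exact sq_win f hf _ (zz_norm _ _) H N _ (hN₁ N hNN1 _ (zz_norm _ _))
      _ = (H * (δ / 2 * N * H)) * ∑ j ∈ range (2 * H),
        (∑ m ∈ range N, ‖∑ n ∈ Ioc m (m + 2 * H), conj (g n) * zz (2 * H) j ^ n‖ ^ 2) := by
          rw [Finset.mul_sum]
      _ ≤ (H * (δ / 2 * N * H)) * (N * ((2 * H : ℕ) * (2 * H : ℕ))) := by
          refine mul_le_mul_of_nonneg_left ?_ (by positivity)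
          refine meansq (2 * H) N (2 * H) le_rfl (fun n => conj (g n)) fun n => ?_
          rw [Complex.norm_conj]; exact hg n
      _ ≤ _ := by
          push_cast
          have : 0 ≤ δ * (N : ℝ) * H * H * (N * (2 * H * (2 * H))) := by positivity
          nlinarith
  · obtain ⟨u, hu, hun⟩ := unwind H N g f hg hf
    refine closing H N δ ε _ _ hH1 hε hδε hN8 hun ?_
    refine (bilin H N hH1 u g f hu).trans ?_
    refine mul_le_mul_of_nonneg_left ?_ (by positivity)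
    have hcj : ∀ j m, ‖∑ n ∈ Ioc m (m + 2 * H), conj (f n) * zz (2 * H) j ^ n‖ =
        ‖∑ n ∈ Ioc m (m + 2 * H), f n * (conj (zz (2 * H) j)) ^ n‖ := by
      intro j m
      rw [← Complex.norm_conj, map_sum]
      congr 1
      refine Finset.sum_congr rfl fun n _ => ?_
      rw [map_mul, Complex.conj_conj, map_pow]
    calc ∑ j ∈ range (2 * H),
        (∑ m ∈ range N, ‖∑ n ∈ Ioc m (m + H), g n * zz (2 * H) j ^ n‖ ^ 2) *
        (∑ m ∈ range N, ‖∑ n ∈ Ioc m (m + 2 * H), conj (f n) * zz (2 * H) j ^ n‖ ^ 2)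
        ≤ ∑ j ∈ range (2 * H),
        (∑ m ∈ range N, ‖∑ n ∈ Ioc m (m + H), g n * zz (2 * H) j ^ n‖ ^ 2) *
          ((2 * H : ℕ) * (δ / 2 * N * (2 * H : ℕ))) := by
          refine Finset.sum_le_sum fun j _ => mul_le_mul_of_nonneg_left ?_
            (Finset.sum_nonneg fun m _ => sq_nonneg _)
          simp_rw [hcj]
          have hz : ‖conj (zz (2 * H) j)‖ = 1 := by rw [Complex.norm_conj, zz_norm]
          exact sq_win f hf _ hz (2 * H) N _ (hN₂ N hNN2 _ hz)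
      _ = (∑ j ∈ range (2 * H),
        (∑ m ∈ range N, ‖∑ n ∈ Ioc m (m + H), g n * zz (2 * H) j ^ n‖ ^ 2)) *
          ((2 * H : ℕ) * (δ / 2 * N * (2 * H : ℕ))) := by
          rw [Finset.sum_mul]
      _ ≤ (N * ((2 * H : ℕ) * H)) * ((2 * H : ℕ) * (δ / 2 * N * (2 * H : ℕ))) := by
          refine mul_le_mul_of_nonneg_right ?_ (by positivity)
          exact meansq (2 * H) N H (by omega) g hg
      _ ≤ _ := by
          push_cast
          have : 0 ≤ δ * (N : ℝ) * H * H * (N * (2 * H * (2 * H))) := by positivity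
          nlinarith

end Pool.Agent.S7e
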