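import Pool.Agent.S7e.Ent

/-! MP_13664e_an, block D3: the entropy decrement, abstract form. -/

namespace Pool.Agent.S7e

open MeasureTheory Filter Topology Pool.Agent.Half

section cond

variable {Ω : Type*} [mΩ : MeasurableSpace Ω] {α α' β β' γ : Type*} [Fintype α] [Fintype α']
  [Fintype β] [Fintype β'] [Fintype γ]

/-- conditional entropy -/
noncomputable def cEnt (μ : Measure Ω) (X : Ω → α) (W : Ω → β) : ℝ :=
  Ent μ (fun w => (X w, W w)) - Ent μ W

variable (μ : Measure Ω) [IsProbabilityMeasure μ]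

theorem cEnt_nonneg {X : Ω → α} {W : Ω → β} (hX : FM X) (hW : FM W) : 0 ≤ cEnt μ X W := by
  unfold cEnt
  rw [sub_nonneg]
  exact ent_le_of μ _ _ (hX.pair hW) fun x y h => (Prod.ext_iff.mp h).2

theorem ent_swap {X : Ω → α} {W : Ω → β} (hX : FM X) (hW : FM W) :
    Ent μ (fun w => (X w, W w)) = Ent μ (fun w => (W w, X w)) :=
  ent_eq_of μ _ _ (hW.pair hX) (hX.pair hW) fun x y => by simp [Prod.ext_iff, and_comm]

theorem cEnt_le_log [Nonempty α] {X : Ω → α} {W : Ω → β} (hX : FM X) (hW : FM W) :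
    cEnt μ X W ≤ Real.log (Fintype.card α) := by
  have hn : (0 : ℝ) < Fintype.card α := by exact_mod_cast Fintype.card_pos
  have h := donsker μ hW hX (fun _ _ => 0) 0 (by
    intro c
    simp only [Real.exp_zero, Finset.sum_const, Finset.card_univ, nsmul_eq_mul, mul_one]
    rw [one_div, inv_mul_cancel₀ hn.ne'])
  simp only [integral_zero, add_zero] at h
  unfold cEnt
  rw [ent_swap μ hX hW]
  linarith

/-- more information on the right, less entropy -/
theorem cEnt_anti {X : Ω → α} {W : Ω → β} {V : Ω → β'} (hX : FM X) (hW : FM W) (hV : FM V)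
    (h : ∀ x y, V x = V y → W x = W y) : cEnt μ X V ≤ cEnt μ X W := by
  have h1 := ent_submod μ X W V hX hW hV
  have h2 : Ent μ (fun x => (X x, W x, V x)) = Ent μ (fun x => (X x, V x)) :=
    ent_eq_of μ _ _ (hX.pair hV) (hX.pair (hW.pair hV)) fun x y => by
      simp only [Prod.mk.injEq]
      constructor
      · rintro ⟨h1, h2⟩
        exact ⟨h1, h x y h2, h2⟩
      · rintro ⟨h1, -, h2⟩
        exact ⟨h1, h2⟩
  have h3 : Ent μ (fun x => (W x, V x)) = Ent μ V :=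
    ent_eq_of μ _ _ hV (hW.pair hV) fun x y => by
      simp only [Prod.mk.injEq]
      constructor
      · intro h2
        exact ⟨h x y h2, h2⟩
      · rintro ⟨-, h2⟩
        exact h2
  rw [h2, h3] at h1
  unfold cEnt
  linarith

/-- less information on the left, less entropy -/
theorem cEnt_mono {X : Ω → α} {X' : Ω → α'} {W : Ω → β} (hX : FM X) (hW : FM W)
    (h : ∀ x y, X x = X y → W x = W y → X' x = X' y) : cEnt μ X' W ≤ cEnt μ X W := by
  have := ent_le_of μ (fun x => (X x, W x)) (fun x => (X' x, W x)) (hX.pair hW) fun x y h1 => by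
    simp only [Prod.mk.injEq] at h1 ⊢
    exact ⟨h x y h1.1 h1.2, h1.2⟩
  unfold cEnt
  linarith

theorem cEnt_pair {X : Ω → α} {X' : Ω → α'} {W : Ω → β} (hX : FM X) (hX' : FM X') (hW : FM W) :
    cEnt μ (fun w => (X w, X' w)) W ≤ cEnt μ X W + cEnt μ X' W := by
  have h1 := ent_submod μ X W X' hX hW hX'
  have h2 : Ent μ (fun x => (X x, W x, X' x)) = Ent μ (fun x => ((X x, X' x), W x)) :=
    ent_eq_of μ _ _ ((hX.pair hX').pair hW) (hX.pair (hW.pair hX')) fun x y => by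
      simp only [Prod.mk.injEq]
      tauto
  have h3 := ent_swap μ hW hX'
  unfold cEnt
  rw [h2, h3] at h1
  linarith

theorem FM.comp {X : Ω → α} (hX : FM X) {S : Ω → Ω} (hS : Measurable S) :
    FM (fun w => X (S w)) := fun a => hS (hX a)

theorem cEnt_shift {X : Ω → α} {W : Ω → β} (hX : FM X) (hW : FM W) {S : Ω → Ω}
    (hS : MeasurePreserving S μ μ) :
    cEnt μ (fun w => X (S w)) (fun w => W (S w)) = cEnt μ X W := by
  unfold cEnt
  rw [ent_comp μ W hW hS]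
  have := ent_comp μ (fun w => (X w, W w)) (hX.pair hW) hS
  rw [this]

end cond

section star

variable {Ω : Type*} (A : MeasurableSpace Ω) [mΩ : MeasurableSpace Ω] {α α' β β' : Type*}
  [Fintype α] [Fintype α'] [Fintype β] [Fintype β'] (μ : Measure Ω) [IsProbabilityMeasure μ]

/-- conditional entropy with respect to `Y` and a sub-`σ`-algebra -/
noncomputable def hst (X : Ω → α) (Y : Ω → β) : ℝ :=
  sInf {r | ∃ (κ : Type) (_ : Fintype κ) (Q : Ω → κ), @FM Ω A κ Q ∧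
    r = cEnt μ X (fun w => (Y w, Q w))}

variable {A} in
theorem FM.le (hA : A ≤ mΩ) {κ : Type*} {Q : Ω → κ} (hQ : @FM Ω A κ Q) :
    FM Q := fun a => hA _ (hQ a)

variable {A} (hA : A ≤ mΩ)

include hA

theorem hst_bdd {X : Ω → α} {Y : Ω → β} (hX : FM X) (hY : FM Y) :
    BddBelow {r | ∃ (κ : Type) (_ : Fintype κ) (Q : Ω → κ), @FM Ω A κ Q ∧
      r = cEnt μ X (fun w => (Y w, Q w))} := by
  refine ⟨0, ?_⟩
  rintro r ⟨κ, _, Q, hQ, rfl⟩
  exact cEnt_nonneg μ hX (hY.pair (hQ.le hA))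

theorem hst_le {X : Ω → α} {Y : Ω → β} (hX : FM X) (hY : FM Y) {κ : Type} [Fintype κ] {Q : Ω → κ}
    (hQ : @FM Ω A κ Q) : hst A μ X Y ≤ cEnt μ X (fun w => (Y w, Q w)) :=
  csInf_le (hst_bdd μ hA hX hY) ⟨κ, inferInstance, Q, hQ, rfl⟩

omit hA in
theorem hst_ne (X : Ω → α) (Y : Ω → β) :
    {r | ∃ (κ : Type) (_ : Fintype κ) (Q : Ω → κ), @FM Ω A κ Q ∧
      r = cEnt μ X (fun w => (Y w, Q w))}.Nonempty := by
  refine ⟨_, Unit, inferInstance, fun _ => (), fun a => ?_, rfl⟩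
  have : (fun _ : Ω => ()) ⁻¹' {a} = Set.univ := by
    ext w
    simp
  rw [this]
  exact @MeasurableSet.univ Ω A

theorem hst_nonneg {X : Ω → α} {Y : Ω → β} (hX : FM X) (hY : FM Y) : 0 ≤ hst A μ X Y := by
  refine le_csInf (hst_ne μ X Y) ?_
  rintro r ⟨κ, _, Q, hQ, rfl⟩
  exact cEnt_nonneg μ hX (hY.pair (hQ.le hA))

omit hA in
theorem hst_near (X : Ω → α) (Y : Ω → β) {ε : ℝ} (hε : 0 < ε) :
    ∃ (κ : Type) (_ : Fintype κ) (Q : Ω → κ), @FM Ω A κ Q ∧
      cEnt μ X (fun w => (Y w, Q w)) < hst A μ X Y + ε := by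
  obtain ⟨r, ⟨κ, i, Q, hQ, rfl⟩, hr⟩ := exists_lt_of_csInf_lt (hst_ne μ X Y)
    (lt_add_of_pos_right (hst A μ X Y) hε)
  exact ⟨κ, i, Q, hQ, hr⟩

theorem hst_anti {X : Ω → α} {Y : Ω → β} {Y' : Ω → β'} (hX : FM X) (hY : FM Y) (hY' : FM Y')
    (h : ∀ x y, Y' x = Y' y → Y x = Y y) : hst A μ X Y' ≤ hst A μ X Y := by
  refine le_csInf (hst_ne μ X Y) ?_
  rintro r ⟨κ, _, Q, hQ, rfl⟩
  refine (hst_le μ hA hX hY' hQ).trans ?_
  refine cEnt_anti μ hX (hY.pair (hQ.le hA)) (hY'.pair (hQ.le hA)) fun x y h1 => ?_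
  simp only [Prod.mk.injEq] at h1 ⊢
  exact ⟨h x y h1.1, h1.2⟩

theorem hst_le_log [Nonempty α] {X : Ω → α} {Y : Ω → β} (hX : FM X) (hY : FM Y) :
    hst A μ X Y ≤ Real.log (Fintype.card α) := by
  obtain ⟨r, ⟨κ, i, Q, hQ, rfl⟩⟩ := hst_ne (A := A) μ X Y
  exact (hst_le μ hA hX hY hQ).trans (cEnt_le_log μ hX (hY.pair (hQ.le hA)))

/-- doubling -/
theorem hst_double {X : Ω → α} {X' : Ω → α'} {Y : Ω → β} (hX : FM X) (hX' : FM X') (hY : FM Y)
    {S : Ω → Ω} (hS : MeasurePreserving S μ μ) (hSA : @Measurable Ω Ω A A S)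
    (hXS : ∀ x y, X x = X y → X (S x) = X (S y) → X' x = X' y)
    (hYS : ∀ x y, Y x = Y y → Y (S x) = Y (S y)) :
    hst A μ X' Y ≤ 2 * hst A μ X Y := by
  refine le_of_forall_pos_le_add fun ε hε => ?_
  obtain ⟨κ, _, Q, hQ, hr⟩ := hst_near (A := A) μ X Y (half_pos hε)
  have hQ2 : @FM Ω A (κ × κ) (fun w => (Q w, Q (S w))) := by
    rintro ⟨a, b⟩
    have e : (fun w => (Q w, Q (S w))) ⁻¹' {(a, b)} = Q ⁻¹' {a} ∩ S ⁻¹' (Q ⁻¹' {b}) := by
      ext w
      simp [Prod.ext_iff]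
    rw [e]
    exact @MeasurableSet.inter Ω A _ _ (hQ a) (hSA (hQ b))
  have hQm : FM Q := hQ.le hA
  have hQ2m : FM (fun w => (Q w, Q (S w))) := hQ2.le hA
  have h1 := hst_le μ hA hX' hY hQ2
  have hXSm : FM (fun w => X (S w)) := hX.comp hS.measurable
  have h2 : cEnt μ X' (fun w => (Y w, (Q w, Q (S w)))) ≤
      cEnt μ (fun w => (X w, X (S w))) (fun w => (Y w, (Q w, Q (S w)))) := by
    refine cEnt_mono μ (hX.pair hXSm) (hY.pair hQ2m) fun x y h _ => ?_
    simp only [Prod.mk.injEq] at h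
    exact hXS x y h.1 h.2
  have h3 := cEnt_pair μ hX hXSm (hY.pair hQ2m)
  have h4 : cEnt μ X (fun w => (Y w, (Q w, Q (S w)))) ≤ cEnt μ X (fun w => (Y w, Q w)) := by
    refine cEnt_anti μ hX (hY.pair hQm) (hY.pair hQ2m) fun x y h => ?_
    simp only [Prod.mk.injEq] at h ⊢
    exact ⟨h.1, h.2.1⟩
  have h5 : cEnt μ (fun w => X (S w)) (fun w => (Y w, (Q w, Q (S w)))) ≤
      cEnt μ (fun w => X (S w)) (fun w => (Y (S w), Q (S w))) := by
    refine cEnt_anti μ hXSm ((hY.comp hS.measurable).pair (hQm.comp hS.measurable))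
      (hY.pair hQ2m) fun x y h => ?_
    simp only [Prod.mk.injEq] at h ⊢
    exact ⟨hYS x y h.1, h.2.2⟩
  have h6 := cEnt_shift μ hX (hY.pair hQm) hS
  rw [h6] at h5
  linarith

end star

end Pool.Agent.S7e
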