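import Pool.Agent.Half.EntQ

/-! MP_13664e_an, block D3: finite entropies (abstract part of the entropy decrement). -/

namespace Pool.Agent.S7e

open MeasureTheory Filter Topology Pool.Agent.Half

variable {Ω : Type*} [MeasurableSpace Ω] {α β γ δ : Type*} [Fintype α] [Fintype β] [Fintype γ]
  [Fintype δ]

/-- all fibres are measurable -/
def FM {α : Type*} (X : Ω → α) : Prop := ∀ a, MeasurableSet (X ⁻¹' {a})

theorem FM.pair {X : Ω → α} {Y : Ω → β} (hX : FM X) (hY : FM Y) : FM (fun w => (X w, Y w)) := by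
  rintro ⟨a, b⟩
  have : (fun w => (X w, Y w)) ⁻¹' {(a, b)} = X ⁻¹' {a} ∩ Y ⁻¹' {b} := by
    ext w
    simp [Prod.ext_iff]
  rw [this]
  exact (hX a).inter (hY b)

/-- expectation of a function of a finite valued map -/
theorem integral_fin (μ : Measure Ω) [IsProbabilityMeasure μ] {W : Ω → α} (hW : FM W)
    {E : Type*} [NormedAddCommGroup E] [NormedSpace ℝ E] [CompleteSpace E] (g : α → E) :
    ∫ w, g (W w) ∂μ = ∑ a, μ.real (W ⁻¹' {a}) • g a := by
  classical
  have h1 : ∀ w, g (W w) = ∑ a, (W ⁻¹' {a}).indicator (fun _ => g a) w := by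
    intro w
    rw [Finset.sum_eq_single (W w)]
    · rw [Set.indicator_of_mem (by simp)]
    · intro b _ hb
      rw [Set.indicator_of_notMem]
      intro h
      exact hb (by simpa using h.symm)
    · intro h
      exact absurd (Finset.mem_univ _) h
  rw [integral_congr_ae (Eventually.of_forall h1), integral_finset_sum]
  · refine Finset.sum_congr rfl fun a _ => ?_
    rw [integral_indicator_const _ (hW a)]
  · intro a _
    exact (integrable_const (g a)).indicator (hW a)

/-- `X` is uniform and independent of `Z` -/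
def UInd (μ : Measure Ω) (Y : Ω → β) (Z : Ω → γ) : Prop :=
  ∀ b c, μ.real (Y ⁻¹' {b} ∩ Z ⁻¹' {c}) = μ.real (Z ⁻¹' {c}) / Fintype.card β

theorem ent_uind (μ : Measure Ω) [IsProbabilityMeasure μ] [Nonempty β] {Y : Ω → β} {Z : Ω → γ}
    (hZ : FM Z) (h : UInd μ Y Z) :
    Ent μ (fun w => (Y w, Z w)) = Ent μ Z + Real.log (Fintype.card β) := by
  have hn : (0 : ℝ) < Fintype.card β := by exact_mod_cast Fintype.card_pos
  unfold Ent
  rw [Fintype.sum_prod_type]
  have h1 : ∀ b c, Real.negMulLog (μ.real ((fun w => (Y w, Z w)) ⁻¹' {(b, c)})) =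
      (1 / (Fintype.card β : ℝ)) * (Real.negMulLog (μ.real (Z ⁻¹' {c})) +
        μ.real (Z ⁻¹' {c}) * Real.log (Fintype.card β)) := by
    intro b c
    have e : (fun w => (Y w, Z w)) ⁻¹' {(b, c)} = Y ⁻¹' {b} ∩ Z ⁻¹' {c} := by
      ext w
      simp [Prod.ext_iff]
    rw [e, h b c]
    rcases eq_or_ne (μ.real (Z ⁻¹' {c})) 0 with h0 | h0
    · rw [h0]
      simp
    · unfold Real.negMulLog
      rw [Real.log_div h0 hn.ne']
      field_simp
      ring
  simp only [h1]
  rw [Finset.sum_const, ← Finset.mul_sum, Finset.card_univ, nsmul_eq_mul, Finset.sum_add_distrib,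
    ← Finset.sum_mul, EQ_total μ Z hZ]
  field_simp

theorem young (p q t : ℝ) (hp : 0 ≤ p) (hq : 0 < q) :
    p * t ≤ p * Real.log p - p * Real.log q - p + q * Real.exp t := by
  rcases hp.eq_or_lt with h | h
  · rw [← h]
    have := mul_pos hq (Real.exp_pos t)
    simp only [zero_mul, sub_zero, zero_add]
    linarith
  · have h1 : 0 < q * Real.exp t / p := by positivity
    have h2 := Real.log_le_sub_one_of_pos h1
    rw [Real.log_div (by positivity) h.ne', Real.log_mul hq.ne' (Real.exp_pos t).ne',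
      Real.log_exp] at h2
    have h3 := mul_le_mul_of_nonneg_left h2 h.le
    have h4 : p * (q * Real.exp t / p - 1) = q * Real.exp t - p := by
      field_simp
    rw [h4] at h3
    linarith

/-- **Donsker-Varadhan inequality**. -/
theorem donsker (μ : Measure Ω) [IsProbabilityMeasure μ] [Nonempty β] {V : Ω → γ} {Y : Ω → β}
    (hV : FM V) (hY : FM Y) (f : γ → β → ℝ) (M : ℝ)
    (hM : ∀ c, (1 / (Fintype.card β : ℝ)) * ∑ b, Real.exp (f c b) ≤ Real.exp M) :
    ∫ w, f (V w) (Y w) ∂μ ≤
      Ent μ V + Real.log (Fintype.card β) - Ent μ (fun w => (V w, Y w)) + M := by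
  have hn : (0 : ℝ) < Fintype.card β := by exact_mod_cast Fintype.card_pos
  have hVY : FM (fun w => (V w, Y w)) := hV.pair hY
  set p : γ → β → ℝ := fun c b => μ.real ((fun w => (V w, Y w)) ⁻¹' {(c, b)}) with hp
  set r : γ → ℝ := fun c => μ.real (V ⁻¹' {c}) with hr
  have hp0 : ∀ c b, 0 ≤ p c b := fun c b => measureReal_nonneg
  have hr0 : ∀ c, 0 ≤ r c := fun c => measureReal_nonneg
  have hsum : ∀ c, ∑ b, p c b = r c := by
    intro c
    rw [hp, hr]
    simp only
    rw [EQ_split μ Y hY _ (hV c)]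
    refine Finset.sum_congr rfl fun b _ => ?_
    congr 1
    ext w
    simp [Prod.ext_iff, and_comm]
  have htot : ∑ c, r c = 1 := EQ_total μ V hV
  have e1 : ∫ w, f (V w) (Y w) ∂μ = ∑ c, ∑ b, p c b * f c b := by
    have h := integral_fin μ hVY (fun x : γ × β => f x.1 x.2)
    rw [Fintype.sum_prod_type] at h
    simpa using h
  have e2 : Ent μ V + Real.log (Fintype.card β) - Ent μ (fun w => (V w, Y w)) =
      ∑ c, ∑ b, (p c b * Real.log (p c b) - p c b * Real.log (r c / Fintype.card β)) := by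
    have h1 : Ent μ (fun w => (V w, Y w)) = -∑ c, ∑ b, p c b * Real.log (p c b) := by
      unfold Ent
      rw [Fintype.sum_prod_type, ← Finset.sum_neg_distrib]
      refine Finset.sum_congr rfl fun c _ => ?_
      rw [← Finset.sum_neg_distrib]
      refine Finset.sum_congr rfl fun b _ => ?_
      unfold Real.negMulLog
      rw [neg_mul]
    have h2 : ∑ c, ∑ b, p c b * Real.log (r c / Fintype.card β) =
        -Ent μ V - Real.log (Fintype.card β) := by
      have h3 : ∀ c, ∑ b, p c b * Real.log (r c / Fintype.card β) =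
          -Real.negMulLog (r c) - r c * Real.log (Fintype.card β) := by
        intro c
        rw [← Finset.sum_mul, hsum]
        rcases eq_or_ne (r c) 0 with h0 | h0
        · rw [h0]
          simp
        · rw [Real.log_div h0 hn.ne']
          unfold Real.negMulLog
          ring
      simp only [h3]
      rw [Finset.sum_sub_distrib, Finset.sum_neg_distrib, ← Finset.sum_mul, htot, one_mul]
      rfl
    simp only [Finset.sum_sub_distrib]
    rw [h1, h2]
    ring
  rw [e1, e2]
  have key : ∀ c b, p c b * (f c b - M) ≤ p c b * Real.log (p c b) -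
      p c b * Real.log (r c / Fintype.card β) - p c b +
      r c / Fintype.card β * Real.exp (f c b - M) := by
    intro c b
    rcases (hr0 c).eq_or_lt with h0 | h0
    · have h1 : p c b = 0 := by
        have h2 : p c b ≤ r c := by
          rw [← hsum c]
          exact Finset.single_le_sum (fun b _ => hp0 c b) (Finset.mem_univ b)
        linarith [hp0 c b]
      rw [h1, ← h0]
      simp
    · exact young _ _ _ (hp0 c b) (by positivity)
  have hs := Finset.sum_le_sum fun c (_ : c ∈ Finset.univ) =>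
    Finset.sum_le_sum fun b (_ : b ∈ Finset.univ) => key c b
  have hexp : ∀ c, ∑ b, r c / Fintype.card β * Real.exp (f c b - M) ≤ r c := by
    intro c
    have h1 : ∑ b, r c / Fintype.card β * Real.exp (f c b - M) =
        r c * Real.exp (-M) * ((1 / (Fintype.card β : ℝ)) * ∑ b, Real.exp (f c b)) := by
      rw [Finset.mul_sum, Finset.mul_sum]
      refine Finset.sum_congr rfl fun b _ => ?_
      rw [sub_eq_add_neg, Real.exp_add]
      ring
    rw [h1]
    calc _ ≤ r c * Real.exp (-M) * Real.exp M :=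
          mul_le_mul_of_nonneg_left (hM c) (mul_nonneg (hr0 c) (Real.exp_pos _).le)
      _ = r c := by rw [mul_assoc, ← Real.exp_add]; simp
  simp only [mul_sub, Finset.sum_sub_distrib, Finset.sum_add_distrib] at hs
  have h3 : ∑ c, ∑ b, p c b * M = M := by
    simp only [← Finset.sum_mul, hsum, htot, one_mul]
  have h4 : ∑ c, ∑ b, p c b = 1 := by
    simp only [hsum, htot]
  have h5 : ∑ c, ∑ b, r c / Fintype.card β * Real.exp (f c b - M) ≤ 1 := by
    rw [← htot]
    exact Finset.sum_le_sum fun c _ => hexp c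
  rw [h3, h4] at hs
  simp only [Finset.sum_sub_distrib]
  linarith

/-- factorised exponential moment -/
theorem expmom {ι : Type*} [Fintype ι] [DecidableEq ι] (β : ι → Type*) [∀ i, Fintype (β i)]
    [∀ i, Nonempty (β i)] (g : ∀ i, β i → ℝ) (B ε : ℝ) (hB : ∀ i r, |g i r| ≤ B) (hε0 : 0 ≤ ε)
    (hε : ε * B ≤ 1) (hs : ∀ i, ∑ r, g i r = 0) :
    (1 / (Fintype.card (∀ i, β i) : ℝ)) * ∑ y : (∀ i, β i), Real.exp (ε * ∑ i, g i (y i)) ≤
      Real.exp (ε ^ 2 * B ^ 2 * Fintype.card ι) := by
  have h1 : ∑ y : (∀ i, β i), Real.exp (ε * ∑ i, g i (y i)) =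
      ∏ i, ∑ r, Real.exp (ε * g i r) := by
    rw [Finset.prod_univ_sum, Fintype.piFinset_univ]
    refine Finset.sum_congr rfl fun y _ => ?_
    rw [Finset.mul_sum, Real.exp_sum]
  have h2 : (Fintype.card (∀ i, β i) : ℝ) = ∏ i, (Fintype.card (β i) : ℝ) := by
    rw [Fintype.card_pi]
    push_cast
    rfl
  rw [h1, h2, one_div, ← Finset.prod_inv_distrib, ← Finset.prod_mul_distrib]
  have h3 : ∀ i, (Fintype.card (β i) : ℝ)⁻¹ * ∑ r, Real.exp (ε * g i r) ≤
      Real.exp (ε ^ 2 * B ^ 2) := by
    intro i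
    have hc : (0 : ℝ) < Fintype.card (β i) := by exact_mod_cast Fintype.card_pos
    have h4 : ∀ r, Real.exp (ε * g i r) ≤ 1 + ε * g i r + ε ^ 2 * B ^ 2 := by
      intro r
      have hB0 : 0 ≤ B := (abs_nonneg _).trans (hB i r)
      have h5 : |ε * g i r| ≤ 1 := by
        rw [abs_mul, abs_of_nonneg hε0]
        exact (mul_le_mul_of_nonneg_left (hB i r) hε0).trans hε
      have h6 := Real.abs_exp_sub_one_sub_id_le h5
      have h7 : (ε * g i r) ^ 2 ≤ ε ^ 2 * B ^ 2 := by
        rw [mul_pow]
        refine mul_le_mul_of_nonneg_left ?_ (sq_nonneg _)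
        rw [← sq_abs]
        exact pow_le_pow_left₀ (abs_nonneg _) (hB i r) 2
      have h8 := (abs_le.mp h6).2
      linarith
    have h5 : ∑ r, Real.exp (ε * g i r) ≤ Fintype.card (β i) * (1 + ε ^ 2 * B ^ 2) := by
      refine (Finset.sum_le_sum fun r _ => h4 r).trans (le_of_eq ?_)
      rw [Finset.sum_add_distrib, Finset.sum_add_distrib, ← Finset.mul_sum, hs i]
      simp
      ring
    calc _ ≤ (Fintype.card (β i) : ℝ)⁻¹ * (Fintype.card (β i) * (1 + ε ^ 2 * B ^ 2)) := by gcongr
      _ = ε ^ 2 * B ^ 2 + 1 := by field_simp; ring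
      _ ≤ _ := Real.add_one_le_exp _
  calc _ ≤ ∏ _i : ι, Real.exp (ε ^ 2 * B ^ 2) :=
        Finset.prod_le_prod (fun i _ => by positivity) fun i _ => h3 i
    _ = _ := by
        rw [Finset.prod_const, ← Real.exp_nat_mul, Finset.card_univ]
        congr 1
        ring

/-- the entropy decrement -/
theorem decr (H I L : ℕ → ℝ) (m0 : ℕ) (A : ℝ) (hL : ∀ m, 0 < L m) (hL2 : ∀ m, L (m + 1) = 2 * L m)
    (hH0 : ∀ m, 0 ≤ H m) (hstep : ∀ m, m0 ≤ m → H (m + 1) ≤ 2 * (H m - I m))
    (h0 : H m0 ≤ A * L m0) (N : ℕ) : ∑ m ∈ Finset.Ico m0 N, I m / L m ≤ A := by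
  have key : ∀ n, m0 ≤ n → ∑ m ∈ Finset.Ico m0 n, I m / L m ≤ A - H n / L n := by
    intro n hn
    induction n, hn using Nat.le_induction with
    | base =>
      have := hL m0
      rw [Finset.Ico_self, Finset.sum_empty, sub_nonneg, div_le_iff₀ this]
      exact h0
    | succ n hn ih =>
      rw [Finset.sum_Ico_succ_top hn]
      have h1 := hstep n hn
      have h2 := hL n
      have h3 : H (n + 1) / L (n + 1) ≤ H n / L n - I n / L n := by
        rw [hL2, ← sub_div, div_le_div_iff₀ (by linarith) h2]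
        nlinarith
      linarith
  rcases le_or_gt m0 N with h | h
  · have h1 := key N h
    have h2 : 0 ≤ H N / L N := div_nonneg (hH0 N) (hL N).le
    linarith
  · rw [Finset.Ico_eq_empty (by omega), Finset.sum_empty]
    have h1 := hH0 m0
    have h2 := hL m0
    nlinarith

end Pool.Agent.S7e
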