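import Pool.Agent.S7e.Corr2

/-!
S7e Kvn: a stationary sequence in an inner product space whose twisted averages all tend to zero
has correlations tending to zero in square mean (Wiener / Koopman - von Neumann, without the
spectral theorem).
-/

set_option autoImplicit false

namespace Pool.Agent.S7e

open Finset Filter Topology
open scoped ComplexConjugate

variable {E : Type*} [NormedAddCommGroup E] [InnerProductSpace ℂ E]

/-- stationary sequences -/
def Sta (v : ℕ → E) : Prop := ∀ m n : ℕ, inner ℂ (v (m + 1)) (v (n + 1)) = inner ℂ (v m) (v n)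

private theorem sta_add {v : ℕ → E} (hv : Sta v) (k m n : ℕ) :
    inner ℂ (v (m + k)) (v (n + k)) = inner ℂ (v m) (v n) := by
  induction k with
  | zero => rfl
  | succ k ih => rw [← ih, ← add_assoc, ← add_assoc, hv]

private theorem sta_norm {v : ℕ → E} (hv : Sta v) (n : ℕ) : ‖v n‖ = ‖v 0‖ := by
  have h := sta_add hv n 0 0
  rw [zero_add] at h
  rw [inner_self_eq_norm_sq_to_K, inner_self_eq_norm_sq_to_K] at h
  have h2 : ‖v n‖ ^ 2 = ‖v 0‖ ^ 2 := by exact_mod_cast h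
  exact (pow_left_inj₀ (norm_nonneg _) (norm_nonneg _) two_ne_zero).1 h2

/-- the window sum -/
private noncomputable def win (v : ℕ → E) (w : ℂ) (m H : ℕ) : E := ∑ h ∈ range H, w ^ h • v (m + h)

private theorem win_norm {v : ℕ → E} (hv : Sta v) (w : ℂ) (m H : ℕ) :
    ‖win v w m H‖ = ‖win v w 0 H‖ := by
  have h : inner ℂ (win v w m H) (win v w m H) = inner ℂ (win v w 0 H) (win v w 0 H) := by
    unfold win
    rw [sum_inner, sum_inner]
    refine Finset.sum_congr rfl fun a _ => ?_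
    rw [inner_sum, inner_sum]
    refine Finset.sum_congr rfl fun b _ => ?_
    rw [inner_smul_left, inner_smul_left, inner_smul_right, inner_smul_right]
    have := sta_add hv m (0 + a) (0 + b)
    rw [show 0 + a + m = m + a by omega, show 0 + b + m = m + b by omega] at this
    rw [this]
  rw [inner_self_eq_norm_sq_to_K, inner_self_eq_norm_sq_to_K] at h
  have h2 : ‖win v w m H‖ ^ 2 = ‖win v w 0 H‖ ^ 2 := by exact_mod_cast h
  exact (pow_left_inj₀ (norm_nonneg _) (norm_nonneg _) two_ne_zero).1 h2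

omit [InnerProductSpace ℂ E] in
private theorem shift_sum (x : ℕ → E) (B : ℝ) (hx : ∀ n, ‖x n‖ ≤ B) (H i : ℕ) :
    ‖∑ j ∈ range H, x (i + j) - ∑ j ∈ range H, x j‖ ≤ 2 * i * B := by
  induction i with
  | zero => simp
  | succ i ih =>
    have h1 : ∑ j ∈ range H, x (i + 1 + j) =
        ∑ j ∈ range H, x (i + j) + (x (i + H) - x i) := by
      have h2 := Finset.sum_range_succ (fun j => x (i + j)) H
      have h3 := Finset.sum_range_succ' (fun j => x (i + j)) H
      have h4 : ∑ j ∈ range H, x (i + 1 + j) = ∑ j ∈ range H, x (i + (j + 1)) :=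
        Finset.sum_congr rfl fun j _ => by congr 1; omega
      rw [h4]
      rw [h2, add_zero] at h3
      rw [add_sub_assoc', h3, add_sub_cancel_right]
    have h6 : ‖x (i + H) - x i‖ ≤ 2 * B :=
      (norm_sub_le _ _).trans (by linarith [hx (i + H), hx i])
    have h7 : ∑ j ∈ range H, x (i + 1 + j) - ∑ j ∈ range H, x j =
        (∑ j ∈ range H, x (i + j) - ∑ j ∈ range H, x j) + (x (i + H) - x i) := by
      rw [h1]; abel
    rw [h7]
    refine (norm_add_le _ _).trans ?_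
    push_cast
    linarith

/-- a long window against short windows -/
private theorem win_long {v : ℕ → E} (hv : Sta v) (w : ℂ) (hw : ‖w‖ = 1) (K H : ℕ) :
    (K : ℝ) * ‖win v w 0 H‖ ≤ H * ‖win v w 0 K‖ + 2 * K * K * ‖v 0‖ := by
  set x : ℕ → E := fun n => w ^ n • v n with hx
  have hxn : ∀ n, ‖x n‖ ≤ ‖v 0‖ := fun n => by
    rw [hx]
    simp only
    rw [norm_smul, norm_pow, hw, one_pow, one_mul, sta_norm hv]
  have h0 : win v w 0 H = ∑ j ∈ range H, x j := by
    unfold win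
    exact Finset.sum_congr rfl fun j _ => by rw [hx]; simp
  have h1 : ∑ i ∈ range K, ∑ j ∈ range H, x (i + j) = ∑ j ∈ range H, w ^ j • win v w j K := by
    rw [Finset.sum_comm]
    refine Finset.sum_congr rfl fun j _ => ?_
    unfold win
    rw [Finset.smul_sum]
    refine Finset.sum_congr rfl fun i _ => ?_
    rw [hx]
    simp only
    rw [smul_smul, ← pow_add, add_comm i j]
  have h2 : (K : ℂ) • win v w 0 H = ∑ i ∈ range K, ∑ j ∈ range H, x (i + j) -
      ∑ i ∈ range K, (∑ j ∈ range H, x (i + j) - ∑ j ∈ range H, x j) := by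
    rw [← Finset.sum_sub_distrib, h0]
    simp only [sub_sub_cancel]
    rw [Finset.sum_const, Finset.card_range, Nat.cast_smul_eq_nsmul]
  have h3 : ‖∑ i ∈ range K, (∑ j ∈ range H, x (i + j) - ∑ j ∈ range H, x j)‖ ≤
      2 * K * K * ‖v 0‖ := by
    refine (norm_sum_le _ _).trans ?_
    calc ∑ i ∈ range K, ‖∑ j ∈ range H, x (i + j) - ∑ j ∈ range H, x j‖
        ≤ ∑ i ∈ range K, (2 * (K : ℝ) * ‖v 0‖) := by
          refine Finset.sum_le_sum fun i hi => (shift_sum x ‖v 0‖ hxn H i).trans ?_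
          have : (i : ℝ) ≤ K := by exact_mod_cast (Finset.mem_range.1 hi).le
          exact mul_le_mul_of_nonneg_right (by linarith) (norm_nonneg _)
      _ = 2 * K * K * ‖v 0‖ := by rw [Finset.sum_const, Finset.card_range, nsmul_eq_mul]; ring
  have h4 : ‖∑ j ∈ range H, w ^ j • win v w j K‖ ≤ H * ‖win v w 0 K‖ := by
    refine (norm_sum_le _ _).trans (le_of_eq ?_)
    calc ∑ j ∈ range H, ‖w ^ j • win v w j K‖ = ∑ j ∈ range H, ‖win v w 0 K‖ := by
          refine Finset.sum_congr rfl fun j _ => ?_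
          rw [norm_smul, norm_pow, hw, one_pow, one_mul, win_norm hv]
      _ = H * ‖win v w 0 K‖ := by rw [Finset.sum_const, Finset.card_range, nsmul_eq_mul]
  calc (K : ℝ) * ‖win v w 0 H‖ = ‖(K : ℂ) • win v w 0 H‖ := by
        rw [norm_smul, Complex.norm_natCast]
    _ ≤ ‖∑ i ∈ range K, ∑ j ∈ range H, x (i + j)‖ + 2 * K * K * ‖v 0‖ := by
        rw [h2]; exact (norm_sub_le _ _).trans (by linarith)
    _ ≤ _ := by rw [h1]; exact add_le_add h4 le_rfl

private theorem pow_sub_le' (a b : ℂ) (ha : ‖a‖ = 1) (hb : ‖b‖ = 1) (n : ℕ) :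
    ‖a ^ n - b ^ n‖ ≤ n * ‖a - b‖ := by
  induction n with
  | zero => simp
  | succ n ih =>
    have h : a ^ (n + 1) - b ^ (n + 1) = a * (a ^ n - b ^ n) + (a - b) * b ^ n := by ring
    rw [h]
    refine (norm_add_le _ _).trans ?_
    rw [norm_mul, norm_mul, norm_pow, ha, hb, one_pow, one_mul, mul_one]
    push_cast
    linarith

private theorem win_close {v : ℕ → E} (hv : Sta v) (a b : ℂ) (ha : ‖a‖ = 1) (hb : ‖b‖ = 1) (K : ℕ) :
    ‖win v a 0 K‖ ≤ ‖win v b 0 K‖ + K * (K * (‖a - b‖ * ‖v 0‖)) := by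
  have h : win v a 0 K = win v b 0 K + ∑ h ∈ range K, (a ^ h - b ^ h) • v (0 + h) := by
    unfold win
    rw [← Finset.sum_add_distrib]
    exact Finset.sum_congr rfl fun j _ => by rw [sub_smul]; abel
  rw [h]
  refine (norm_add_le _ _).trans (add_le_add le_rfl ?_)
  refine (norm_sum_le _ _).trans ?_
  calc ∑ h ∈ range K, ‖(a ^ h - b ^ h) • v (0 + h)‖ ≤ ∑ h ∈ range K, ((K : ℝ) * (‖a - b‖ * ‖v 0‖)) := by
        refine Finset.sum_le_sum fun j hj => ?_
        rw [norm_smul, sta_norm hv]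
        have h1 := pow_sub_le' a b ha hb j
        have h2 : (j : ℝ) ≤ K := by exact_mod_cast (Finset.mem_range.1 hj).le
        calc ‖a ^ j - b ^ j‖ * ‖v 0‖ ≤ (K * ‖a - b‖) * ‖v 0‖ :=
              mul_le_mul_of_nonneg_right (h1.trans (mul_le_mul_of_nonneg_right h2 (norm_nonneg _)))
                (norm_nonneg _)
          _ = _ := by ring
    _ = _ := by rw [Finset.sum_const, Finset.card_range, nsmul_eq_mul]

/-- uniformity in the character -/
private theorem win_unif {v : ℕ → E} (hv : Sta v)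
    (h : ∀ w : ℂ, ‖w‖ = 1 → Tendsto (fun H : ℕ => ‖(H : ℂ)⁻¹ • ∑ h ∈ range H, w ^ h • v h‖)
      atTop (𝓝 0)) (ε : ℝ) (hε : 0 < ε) :
    ∃ H₀ : ℕ, ∀ H : ℕ, H₀ ≤ H → ∀ w : ℂ, ‖w‖ = 1 → ‖win v w 0 H‖ ≤ ε * H := by
  have key : ∀ w : ℂ, ∃ K : ℕ, 1 ≤ K ∧ (‖w‖ = 1 → ‖win v w 0 K‖ ≤ ε / 4 * K) := by
    intro w
    by_cases hw : ‖w‖ = 1
    · have h1 := (h w hw).eventually (gt_mem_nhds (show (0 : ℝ) < ε / 4 by positivity))
      obtain ⟨K₀, hK₀⟩ := Filter.eventually_atTop.1 h1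
      refine ⟨K₀ + 1, by omega, fun _ => ?_⟩
      have h2 := hK₀ (K₀ + 1) (by omega)
      have hpos : (0 : ℝ) < ((K₀ + 1 : ℕ) : ℝ) := by positivity
      rw [norm_smul, norm_inv, Complex.norm_natCast, inv_mul_lt_iff₀ hpos] at h2
      have h3 : win v w 0 (K₀ + 1) = ∑ h ∈ range (K₀ + 1), w ^ h • v h := by
        unfold win
        exact Finset.sum_congr rfl fun j _ => by rw [zero_add]
      rw [h3]
      linarith
    · exact ⟨1, le_refl _, fun h => absurd h hw⟩
  choose K hK1 hK using key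
  set B := ‖v 0‖ with hB
  have hB0 : 0 ≤ B := norm_nonneg _
  have hKpos : ∀ w, (0 : ℝ) < K w := fun w => by exact_mod_cast hK1 w
  obtain ⟨t, ht, hcov⟩ := (isCompact_sphere (0 : ℂ) 1).elim_nhds_subcover
    (fun w => Metric.ball w (ε / (4 * K w * (B + 1)))) (fun w _ => Metric.ball_mem_nhds _ (by
      have := hKpos w
      positivity))
  set A : ℕ := t.sup K with hA
  refine ⟨⌈4 * A * B / ε⌉₊, fun H hH w hw => ?_⟩
  have hwmem : w ∈ Metric.sphere (0 : ℂ) 1 := by simpa using hw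
  obtain ⟨w₀, hw₀t, hw₀⟩ : ∃ w₀ ∈ t, w ∈ Metric.ball w₀ (ε / (4 * K w₀ * (B + 1))) := by
    have := hcov hwmem
    simpa using this
  have hw₀1 : ‖w₀‖ = 1 := by simpa using ht w₀ hw₀t
  have hdist : ‖w - w₀‖ < ε / (4 * K w₀ * (B + 1)) := by
    rw [← dist_eq_norm]; exact hw₀
  have hKA : K w₀ ≤ A := Finset.le_sup hw₀t
  set k := K w₀ with hk
  have hk1 : 1 ≤ k := hK1 w₀
  have hkr : (0 : ℝ) < k := by exact_mod_cast hk1
  have hshort : ‖win v w 0 k‖ ≤ ε / 2 * k := by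
    refine (win_close hv w w₀ hw hw₀1 k).trans ?_
    have h1 := hK w₀ hw₀1
    have h2 : (k : ℝ) * (‖w - w₀‖ * B) ≤ ε / 4 := by
      calc (k : ℝ) * (‖w - w₀‖ * B) ≤ k * (ε / (4 * k * (B + 1)) * (B + 1)) :=
            mul_le_mul_of_nonneg_left (mul_le_mul hdist.le (by linarith) hB0 (by positivity)) hkr.le
        _ = ε / 4 := by field_simp
    have h3 : (k : ℝ) * (k * (‖w - w₀‖ * B)) ≤ k * (ε / 4) := mul_le_mul_of_nonneg_left h2 hkr.le
    linarith
  have hlong := win_long hv w hw k H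
  have hHA : 4 * (A : ℝ) * B ≤ ε * H := by
    have h3 : 4 * (A : ℝ) * B / ε ≤ H := (Nat.le_ceil _).trans (by exact_mod_cast hH)
    rw [div_le_iff₀ hε] at h3
    linarith
  have hkA : (k : ℝ) ≤ A := by exact_mod_cast hKA
  have hH0 : (0 : ℝ) ≤ H := Nat.cast_nonneg _
  have h4 : (k : ℝ) * ‖win v w 0 H‖ ≤ k * (ε * H) := by
    refine hlong.trans ?_
    have h5 : (H : ℝ) * ‖win v w 0 k‖ ≤ H * (ε / 2 * k) := mul_le_mul_of_nonneg_left hshort hH0
    have h6 : 2 * (k : ℝ) * k * ‖v 0‖ ≤ k * (ε / 2 * H) := by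
      have h7 : 2 * (k : ℝ) * ‖v 0‖ ≤ ε / 2 * H := by
        have : 4 * (k : ℝ) * B ≤ 4 * A * B :=
          mul_le_mul_of_nonneg_right (by linarith) hB0
        linarith
      calc 2 * (k : ℝ) * k * ‖v 0‖ = k * (2 * k * ‖v 0‖) := by ring
        _ ≤ _ := mul_le_mul_of_nonneg_left h7 hkr.le
    linarith
  exact le_of_mul_le_mul_left h4 hkr

/-- Parseval for vectors -/
private theorem parsE (Q : ℕ) (I : Finset ℕ) (hI : ∀ a ∈ I, ∀ b ∈ I, a < b + Q) (x : ℕ → E) :
    ∑ j ∈ range Q, ‖∑ n ∈ I, zz Q j ^ n • x n‖ ^ 2 = Q * ∑ n ∈ I, ‖x n‖ ^ 2 := by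
  have h1 : ((∑ j ∈ range Q, ‖∑ n ∈ I, zz Q j ^ n • x n‖ ^ 2 : ℝ) : ℂ) =
      ((Q * ∑ n ∈ I, ‖x n‖ ^ 2 : ℝ) : ℂ) := by
    push_cast
    have hsq : ∀ e : E, ((‖e‖ : ℝ) : ℂ) ^ 2 = inner ℂ e e := fun e => by
      rw [inner_self_eq_norm_sq_to_K]; rfl
    simp_rw [hsq]
    calc ∑ j ∈ range Q, inner ℂ (∑ n ∈ I, zz Q j ^ n • x n) (∑ n ∈ I, zz Q j ^ n • x n)
        = ∑ j ∈ range Q, ∑ a ∈ I, ∑ b ∈ I, inner ℂ (x a) (x b) * (zz Q j ^ b * conj (zz Q j ^ a)) := by
          refine Finset.sum_congr rfl fun j _ => ?_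
          rw [sum_inner]
          refine Finset.sum_congr rfl fun a _ => ?_
          rw [inner_sum]
          refine Finset.sum_congr rfl fun b _ => ?_
          rw [inner_smul_left, inner_smul_right]; ring
      _ = ∑ a ∈ I, ∑ b ∈ I, inner ℂ (x a) (x b) * ∑ j ∈ range Q, (zz Q j ^ b * conj (zz Q j ^ a)) := by
          rw [Finset.sum_comm]
          refine Finset.sum_congr rfl fun a _ => ?_
          rw [Finset.sum_comm]
          refine Finset.sum_congr rfl fun b _ => ?_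
          rw [Finset.mul_sum]
      _ = ∑ a ∈ I, ∑ b ∈ I, inner ℂ (x a) (x b) * (if b = a then (Q : ℂ) else 0) := by
          refine Finset.sum_congr rfl fun a ha => Finset.sum_congr rfl fun b hb => ?_
          rw [orth Q b a (hI b hb a ha) (hI a ha b hb)]
      _ = (Q : ℂ) * ∑ a ∈ I, inner ℂ (x a) (x a) := by
          rw [Finset.mul_sum]
          refine Finset.sum_congr rfl fun a ha => ?_
          rw [Finset.sum_eq_single_of_mem a ha]
          · rw [if_pos rfl]; ring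
          · intro b _ hb
            rw [if_neg hb, mul_zero]
  exact_mod_cast h1

private theorem zz_symm (Q j k : ℕ) : zz Q j ^ k = zz Q k ^ j := by
  unfold zz
  rw [← pow_mul, ← pow_mul, mul_comm j k]

/-- the Fourier coefficient of the energy -/
private theorem four {v : ℕ → E} (hv : Sta v) (H k : ℕ) (hk : k < H) :
    ∑ j ∈ range (2 * H), ((‖win v (zz (2 * H) j) 0 H‖ ^ 2 : ℝ) : ℂ) * conj (zz (2 * H) j ^ k) =
      ((2 * H : ℕ) : ℂ) * ((H - k : ℕ) * inner ℂ (v 0) (v k)) := by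
  have hsq : ∀ e : E, ((‖e‖ ^ 2 : ℝ) : ℂ) = inner ℂ e e := fun e => by
    rw [inner_self_eq_norm_sq_to_K]; push_cast; rfl
  simp_rw [hsq]
  unfold win
  calc ∑ j ∈ range (2 * H), inner ℂ (∑ h ∈ range H, zz (2 * H) j ^ h • v (0 + h))
        (∑ h ∈ range H, zz (2 * H) j ^ h • v (0 + h)) * conj (zz (2 * H) j ^ k)
      = ∑ j ∈ range (2 * H), ∑ a ∈ range H, ∑ b ∈ range H, inner ℂ (v a) (v b) *
          (zz (2 * H) j ^ b * conj (zz (2 * H) j ^ (a + k))) := by
        refine Finset.sum_congr rfl fun j _ => ?_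
        rw [sum_inner, Finset.sum_mul]
        refine Finset.sum_congr rfl fun a _ => ?_
        rw [inner_sum, Finset.sum_mul]
        refine Finset.sum_congr rfl fun b _ => ?_
        rw [inner_smul_left, inner_smul_right, zero_add, zero_add, pow_add, map_mul]; ring
    _ = ∑ a ∈ range H, ∑ b ∈ range H, inner ℂ (v a) (v b) *
          ∑ j ∈ range (2 * H), (zz (2 * H) j ^ b * conj (zz (2 * H) j ^ (a + k))) := by
        rw [Finset.sum_comm]
        refine Finset.sum_congr rfl fun a _ => ?_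
        rw [Finset.sum_comm]
        refine Finset.sum_congr rfl fun b _ => ?_
        rw [Finset.mul_sum]
    _ = ∑ a ∈ range H, ∑ b ∈ range H, inner ℂ (v a) (v b) *
          (if b = a + k then ((2 * H : ℕ) : ℂ) else 0) := by
        refine Finset.sum_congr rfl fun a ha => Finset.sum_congr rfl fun b hb => ?_
        rw [Finset.mem_range] at ha hb
        rw [orth (2 * H) b (a + k) (by omega) (by omega)]
    _ = ∑ a ∈ range H, if a < H - k then ((2 * H : ℕ) : ℂ) * inner ℂ (v 0) (v k) else 0 := by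
        refine Finset.sum_congr rfl fun a ha => ?_
        split_ifs with hak
        · have hmem : a + k ∈ range H := by rw [Finset.mem_range]; omega
          rw [Finset.sum_eq_single_of_mem (a + k) hmem]
          · rw [if_pos rfl]
            have := sta_add hv a 0 k
            rw [zero_add, add_comm k a] at this
            rw [this, mul_comm]
          · intro b _ hb
            rw [if_neg hb, mul_zero]
        · refine Finset.sum_eq_zero fun b hb => ?_
          rw [Finset.mem_range] at hb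
          rw [if_neg (by omega), mul_zero]
    _ = _ := by
        rw [← Finset.sum_filter]
        have hset : (range H).filter (fun a => a < H - k) = range (H - k) := by
          ext a
          rw [Finset.mem_filter, Finset.mem_range, Finset.mem_range]
          omega
        rw [hset, Finset.sum_const, Finset.card_range, nsmul_eq_mul]
        ring

/-- Wiener / Koopman - von Neumann for stationary sequences -/
theorem kvn {v : ℕ → E} (hv : Sta v)
    (h : ∀ w : ℂ, ‖w‖ = 1 → Tendsto (fun H : ℕ => ‖(H : ℂ)⁻¹ • ∑ h ∈ range H, w ^ h • v h‖)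
      atTop (𝓝 0)) :
    Tendsto (fun P : ℕ => (P : ℝ)⁻¹ * ∑ n ∈ range P, ‖inner ℂ (v 0) (v n)‖ ^ 2) atTop (𝓝 0) := by
  rw [Metric.tendsto_atTop]
  intro ε hε
  set B := ‖v 0‖ with hB
  have hB0 : 0 ≤ B := norm_nonneg _
  set δ : ℝ := min 1 (ε / (16 * (B ^ 2 + 1))) with hδ
  have hδ0 : 0 < δ := by positivity
  have hδ1 : δ ≤ 1 := min_le_left _ _
  have hδε : δ * (16 * (B ^ 2 + 1)) ≤ ε := by
    have : δ ≤ ε / (16 * (B ^ 2 + 1)) := min_le_right _ _
    rwa [le_div_iff₀ (by positivity)] at this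
  obtain ⟨H₀, hH₀⟩ := win_unif hv h δ hδ0
  refine ⟨H₀ + 1, fun P hP => ?_⟩
  have hP1 : 1 ≤ P := by omega
  have hPr : (0 : ℝ) < P := by exact_mod_cast hP1
  set H := 2 * P with hH
  have hHr : (0 : ℝ) < H := by rw [hH]; positivity
  set G : ℕ → ℝ := fun j => ‖win v (zz (2 * H) j) 0 H‖ ^ 2 with hG
  have hG0 : ∀ j, 0 ≤ G j := fun j => sq_nonneg _
  have hGle : ∀ j, G j ≤ (δ * H) ^ 2 := fun j =>
    pow_le_pow_left₀ (norm_nonneg _) (hH₀ H (by omega) _ (zz_norm _ _)) 2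
  have hGsum : ∑ j ∈ range (2 * H), G j = ((2 * H : ℕ) : ℝ) * (H * B ^ 2) := by
    have h1 := parsE (E := E) (2 * H) (range H) (fun a ha b hb => by
      rw [Finset.mem_range] at ha hb; omega) v
    have h2 : ∀ j ∈ range (2 * H), G j = ‖∑ n ∈ range H, zz (2 * H) j ^ n • v n‖ ^ 2 := by
      intro j _
      rw [hG]
      unfold win
      simp only [zero_add]
    rw [Finset.sum_congr rfl h2, h1]
    congr 1
    rw [Finset.sum_congr rfl (fun n _ => by rw [sta_norm hv n]), Finset.sum_const,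
      Finset.card_range, nsmul_eq_mul]
  -- Bessel
  have hbes : ∑ k ∈ range H, ‖((2 * H : ℕ) : ℂ) * ((H - k : ℕ) * inner ℂ (v 0) (v k))‖ ^ 2 ≤
      ((2 * H : ℕ) : ℝ) * ∑ j ∈ range (2 * H), G j ^ 2 := by
    have h1 := pars (2 * H) (range (2 * H)) (fun a ha b hb => by
      rw [Finset.mem_range] at ha hb; omega) (fun j => ((G j : ℝ) : ℂ))
    have h2 : ∑ j ∈ range (2 * H), ‖((G j : ℝ) : ℂ)‖ ^ 2 = ∑ j ∈ range (2 * H), G j ^ 2 :=
      Finset.sum_congr rfl fun j _ => by rw [Complex.norm_real, Real.norm_of_nonneg (hG0 j)]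
    rw [h2] at h1
    rw [← h1]
    calc ∑ k ∈ range H, ‖((2 * H : ℕ) : ℂ) * ((H - k : ℕ) * inner ℂ (v 0) (v k))‖ ^ 2
        = ∑ k ∈ range H, ‖∑ n ∈ range (2 * H), ((G n : ℝ) : ℂ) * zz (2 * H) k ^ n‖ ^ 2 := by
          refine Finset.sum_congr rfl fun k hk => ?_
          rw [← four hv H k (Finset.mem_range.1 hk), ← Complex.norm_conj, map_sum]
          congr 2
          refine Finset.sum_congr rfl fun j _ => ?_
          rw [map_mul, Complex.conj_conj, Complex.conj_ofReal, zz_symm]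
      _ ≤ ∑ k ∈ range (2 * H), ‖∑ n ∈ range (2 * H), ((G n : ℝ) : ℂ) * zz (2 * H) k ^ n‖ ^ 2 :=
          Finset.sum_le_sum_of_subset_of_nonneg (Finset.range_mono (by omega))
            fun _ _ _ => sq_nonneg _
  have hG2 : ∑ j ∈ range (2 * H), G j ^ 2 ≤ (δ * H) ^ 2 * (((2 * H : ℕ) : ℝ) * (H * B ^ 2)) := by
    rw [← hGsum, Finset.mul_sum]
    refine Finset.sum_le_sum fun j _ => ?_
    rw [sq]
    exact mul_le_mul_of_nonneg_right (hGle j) (hG0 j)
  -- the first half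
  have hhalf : (((2 * H : ℕ) : ℝ) * P) ^ 2 * ∑ k ∈ range P, ‖inner ℂ (v 0) (v k)‖ ^ 2 ≤
      ∑ k ∈ range H, ‖((2 * H : ℕ) : ℂ) * ((H - k : ℕ) * inner ℂ (v 0) (v k))‖ ^ 2 := by
    rw [Finset.mul_sum]
    calc ∑ k ∈ range P, (((2 * H : ℕ) : ℝ) * P) ^ 2 * ‖inner ℂ (v 0) (v k)‖ ^ 2
        ≤ ∑ k ∈ range P, ‖((2 * H : ℕ) : ℂ) * ((H - k : ℕ) * inner ℂ (v 0) (v k))‖ ^ 2 := by
          refine Finset.sum_le_sum fun k hk => ?_
          rw [Finset.mem_range] at hk
          have h5 : ‖((2 * H : ℕ) : ℂ) * ((H - k : ℕ) * inner ℂ (v 0) (v k))‖ =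
              ((2 * H : ℕ) : ℝ) * ((H - k : ℕ) : ℝ) * ‖inner ℂ (v 0) (v k)‖ := by
            rw [norm_mul, norm_mul, Complex.norm_natCast, Complex.norm_natCast, mul_assoc]
          rw [h5, mul_pow (((2 * H : ℕ) : ℝ) * ((H - k : ℕ) : ℝ))]
          have h1 : P ≤ H - k := by omega
          have h2 : (P : ℝ) ≤ ((H - k : ℕ) : ℝ) := by exact_mod_cast h1
          have h3 : ((2 * H : ℕ) : ℝ) * P ≤ ((2 * H : ℕ) : ℝ) * ((H - k : ℕ) : ℝ) :=
            mul_le_mul_of_nonneg_left h2 (Nat.cast_nonneg _)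
          have h4 : (0 : ℝ) ≤ ((2 * H : ℕ) : ℝ) * P := by positivity
          exact mul_le_mul_of_nonneg_right (pow_le_pow_left₀ h4 h3 2) (sq_nonneg _)
      _ ≤ _ := Finset.sum_le_sum_of_subset_of_nonneg (Finset.range_mono (by omega))
            fun _ _ _ => sq_nonneg _
  have hfin : ∑ k ∈ range P, ‖inner ℂ (v 0) (v k)‖ ^ 2 ≤ (8 * δ ^ 2 * B ^ 2) * P := by
    have h1 := hhalf.trans (hbes.trans (mul_le_mul_of_nonneg_left hG2 (by positivity)))
    have h2 : (((2 * H : ℕ) : ℝ) * P) ^ 2 * ∑ k ∈ range P, ‖inner ℂ (v 0) (v k)‖ ^ 2 ≤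
        (((2 * H : ℕ) : ℝ) * P) ^ 2 * ((8 * δ ^ 2 * B ^ 2) * P) := by
      refine h1.trans (le_of_eq ?_)
      rw [hH]
      push_cast
      ring
    exact le_of_mul_le_mul_left h2 (by positivity)
  have hnn : 0 ≤ (P : ℝ)⁻¹ * ∑ n ∈ range P, ‖inner ℂ (v 0) (v n)‖ ^ 2 :=
    mul_nonneg (by positivity) (Finset.sum_nonneg fun _ _ => sq_nonneg _)
  rw [Real.dist_eq, sub_zero, abs_of_nonneg hnn]
  calc (P : ℝ)⁻¹ * ∑ n ∈ range P, ‖inner ℂ (v 0) (v n)‖ ^ 2
      ≤ (P : ℝ)⁻¹ * ((8 * δ ^ 2 * B ^ 2) * P) := mul_le_mul_of_nonneg_left hfin (by positivity)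
    _ = 8 * δ ^ 2 * B ^ 2 := by field_simp
    _ ≤ 8 * δ * (B ^ 2 + 1) := by
        have h1 : δ ^ 2 ≤ δ := by nlinarith
        have h2 : 8 * δ ^ 2 * B ^ 2 ≤ 8 * δ * B ^ 2 :=
          mul_le_mul_of_nonneg_right (by linarith) (sq_nonneg _)
        linarith
    _ < ε := by
        have : 0 < δ * (B ^ 2 + 1) := by positivity
        linarith

end Pool.Agent.S7e
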