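import Pool.Agent.Mrd.Irr
import Pool.Agent.Mrd.Mu
import Pool.Agent.S7e.Corr

/-!
S7e Lio: the Liouville and the Moebius function are small in short intervals against every
character.
-/

set_option autoImplicit false

namespace Pool.Agent.S7e

open Finset MeasureTheory Filter Topology Pool.Agent.Mrd

private theorem sq_dvd_aux {a b d : ℕ} (ha : 0 < a) (hb : 0 < b) (hsq : Squarefree a)
    (h : d ^ 2 ∣ b ^ 2 * a) : d ∣ b := by
  have hn : b ^ 2 * a ≠ 0 := by positivity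
  have hd0 : d ≠ 0 := by
    rintro rfl
    rw [zero_pow two_ne_zero, zero_dvd_iff] at h
    exact hn h
  rw [← Nat.factorization_le_iff_dvd hd0 hb.ne']
  rw [← Nat.factorization_le_iff_dvd (pow_ne_zero 2 hd0) hn] at h
  intro p
  have hp := h p
  rw [Nat.factorization_mul (pow_ne_zero 2 hb.ne') ha.ne', Nat.factorization_pow,
    Nat.factorization_pow] at hp
  have h1 := hsq.natFactorization_le_one p
  simp only [Finsupp.coe_smul, Finsupp.coe_add, Pi.add_apply, Pi.smul_apply, smul_eq_mul] at hp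
  omega

private theorem fiber_bound (g : ℕ → ℝ) (hg : ∀ n, 0 ≤ g n) (N e : ℕ) (he : 1 ≤ e) :
    ∑ m ∈ range N, g (m / e) ≤ e * ∑ m ∈ range (N / e + 1), g m := by
  rw [← Finset.sum_fiberwise_of_maps_to (s := range N) (t := range (N / e + 1)) (g := fun m => m / e)]
  · rw [Finset.mul_sum]
    refine Finset.sum_le_sum ?_
    intro j _
    have h1 : ∑ i ∈ (range N).filter (fun i => i / e = j), g (i / e) =
        ∑ i ∈ (range N).filter (fun i => i / e = j), g j := by
      refine Finset.sum_congr rfl ?_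
      intro i hi
      rw [Finset.mem_filter] at hi
      rw [hi.2]
    rw [h1, Finset.sum_const, nsmul_eq_mul]
    refine mul_le_mul_of_nonneg_right ?_ (hg j)
    have hsub : (range N).filter (fun i => i / e = j) ⊆ Ico (j * e) (j * e + e) := by
      intro i hi
      rw [Finset.mem_filter] at hi
      rw [Finset.mem_Ico]
      have h2 := Nat.div_add_mod i e
      have h3 := Nat.mod_lt i (show 0 < e by omega)
      rw [hi.2, mul_comm] at h2
      omega
    have := Finset.card_le_card hsub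
    rw [Nat.card_Ico] at this
    have h4 : (((range N).filter (fun i => i / e = j)).card : ℝ) ≤ ((j * e + e - j * e : ℕ) : ℝ) := by
      exact_mod_cast this
    rw [Nat.add_sub_cancel_left] at h4
    exact h4
  · intro m hm
    rw [Finset.mem_range] at hm ⊢
    exact Nat.lt_succ_of_le (Nat.div_le_div_right hm.le)

private theorem sq_count (D B M : ℕ) (hD : 1 ≤ D) (hDB : D ≤ B) :
    ∑ n ∈ Icc 1 M, (((Ioc D B).filter (fun d => d ^ 2 ∣ n)).card : ℝ) ≤ M / D := by
  have h1 : ∀ n ∈ Icc 1 M, (((Ioc D B).filter (fun d => d ^ 2 ∣ n)).card : ℝ) =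
      ∑ d ∈ Ioc D B, if d ^ 2 ∣ n then (1 : ℝ) else 0 := by
    intro n _
    rw [Finset.card_filter]
    push_cast
    rfl
  rw [Finset.sum_congr rfl h1, Finset.sum_comm]
  have h2 : ∀ d ∈ Ioc D B, ∑ n ∈ Icc 1 M, (if d ^ 2 ∣ n then (1 : ℝ) else 0) ≤ M * ((d : ℝ) ^ 2)⁻¹ := by
    intro d hd
    rw [Finset.mem_Ioc] at hd
    have hdpos : (0 : ℝ) < d := by
      have : 0 < d := by omega
      exact_mod_cast this
    rw [← Finset.sum_filter, Finset.sum_const, nsmul_eq_mul, mul_one]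
    have h3 := Nat.Ioc_filter_dvd_card_eq_div M (d ^ 2)
    have h4 : Icc 1 M = Ioc 0 M := by
      ext x
      rw [Finset.mem_Icc, Finset.mem_Ioc]
      omega
    rw [h4, h3]
    refine (Nat.cast_div_le).trans ?_
    push_cast
    rw [div_eq_mul_inv]
  refine (Finset.sum_le_sum h2).trans ?_
  rw [← Finset.mul_sum, div_eq_mul_inv]
  refine mul_le_mul_of_nonneg_left ?_ (Nat.cast_nonneg M)
  have h5 := sum_Ioc_inv_sq_le_sub (α := ℝ) (k := D) (n := B) (by omega) hDB
  have h6 : (0 : ℝ) ≤ (B : ℝ)⁻¹ := by positivity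
  linarith

private theorem window (r : ℕ → ℝ) (hr : ∀ n, 0 ≤ r n) (N H : ℕ) :
    ∑ m ∈ range N, ∑ n ∈ Ioc m (m + H), r n ≤ H * ∑ n ∈ Icc 1 (N + H), r n := by
  have h1 : ∀ m ∈ range N, ∑ n ∈ Ioc m (m + H), r n =
      ∑ n ∈ Icc 1 (N + H), if n ∈ Ioc m (m + H) then r n else 0 := by
    intro m hm
    rw [Finset.mem_range] at hm
    rw [← Finset.sum_filter]
    refine Finset.sum_congr ?_ (fun _ _ => rfl)
    ext n
    rw [Finset.mem_filter, Finset.mem_Icc, Finset.mem_Ioc]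
    omega
  rw [Finset.sum_congr rfl h1, Finset.sum_comm, Finset.mul_sum]
  refine Finset.sum_le_sum ?_
  intro n _
  rw [← Finset.sum_filter, Finset.sum_const, nsmul_eq_mul]
  refine mul_le_mul_of_nonneg_right ?_ (hr n)
  have hsub : (range N).filter (fun m => n ∈ Ioc m (m + H)) ⊆ Ico (n - H) n := by
    intro m hm
    rw [Finset.mem_filter, Finset.mem_Ioc] at hm
    rw [Finset.mem_Ico]
    omega
  have h2 := Finset.card_le_card hsub
  rw [Nat.card_Ico] at h2
  have h3 : ((range N).filter (fun m => n ∈ Ioc m (m + H))).card ≤ H := by omega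
  exact_mod_cast h3

/-- the part of the sum belonging to one `d` -/
private theorem one_d (g : ℕ → ℂ) (hg : ∀ n, ‖g n‖ ≤ 1) (l : ℂ) (hl : ‖l‖ = 1) (m H e : ℕ) (he : 1 ≤ e) :
    ‖∑ n ∈ Ioc m (m + H), (if e ∣ n then l ^ n * g (n / e) else 0)‖ ≤
      ‖∑ k ∈ Ioc (m / e) (m / e + H / e), (l ^ e) ^ k * g k‖ + 1 := by
  have hepos : 0 < e := by omega
  have h1 : ∑ n ∈ Ioc m (m + H), (if e ∣ n then l ^ n * g (n / e) else 0) =
      ∑ k ∈ Ioc (m / e) ((m + H) / e), (l ^ e) ^ k * g k := by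
    rw [← Finset.sum_filter]
    symm
    refine Finset.sum_bij (fun k _ => e * k) ?_ ?_ ?_ ?_
    · intro k hk
      rw [Finset.mem_Ioc, Nat.div_lt_iff_lt_mul hepos, Nat.le_div_iff_mul_le hepos] at hk
      rw [Finset.mem_filter, Finset.mem_Ioc]
      refine ⟨?_, Dvd.intro _ rfl⟩
      rw [mul_comm e k]
      exact hk
    · intro a _ b _ h
      exact Nat.eq_of_mul_eq_mul_left hepos h
    · intro n hn
      rw [Finset.mem_filter, Finset.mem_Ioc] at hn
      obtain ⟨hn1, k, rfl⟩ := hn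
      refine ⟨k, ?_, rfl⟩
      rw [Finset.mem_Ioc, Nat.div_lt_iff_lt_mul hepos, Nat.le_div_iff_mul_le hepos, mul_comm k e]
      exact hn1
    · intro k _
      rw [Nat.mul_div_cancel_left k hepos, pow_mul]
  rw [h1, Nat.add_div hepos]
  split_ifs with h
  · rw [Finset.sum_Ioc_succ_top (Nat.le_add_right _ _)]
    refine (norm_add_le _ _).trans ?_
    refine add_le_add le_rfl ?_
    rw [norm_mul, norm_pow, norm_pow, hl, one_pow, one_pow, one_mul]
    exact hg _
  · rw [add_zero]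
    linarith


/-- transfer: `f n = ∑_{d² | n} c d g(n/d²)` -/
theorem si_sq (c g f : ℕ → ℂ) (hc : ∀ d, ‖c d‖ ≤ 1) (hg : ∀ n, ‖g n‖ ≤ 1)
    (hid : ∀ n B : ℕ, 1 ≤ n → n ≤ B →
      f n = ∑ d ∈ (Icc 1 B).filter (fun d => d ^ 2 ∣ n), c d * g (n / d ^ 2))
    (l : ℂ) (hlnorm : ‖l‖ = 1) (ε : ℝ) (hε : 0 < ε)
    (hsi : ∀ d : ℕ, 1 ≤ d → ∀ ε' : ℝ, 0 < ε' → ∃ H₀ : ℕ, ∀ H : ℕ, H₀ ≤ H → ∃ N₀ : ℕ, ∀ N : ℕ, N₀ ≤ N →
      ∑ m ∈ range N, ‖∑ n ∈ Ioc m (m + H), (l ^ (d ^ 2)) ^ n * g n‖ ≤ ε' * N * H) :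
    ∃ H₀ : ℕ, ∀ H : ℕ, H₀ ≤ H → ∃ N₀ : ℕ, ∀ N : ℕ, N₀ ≤ N →
      ∑ m ∈ range N, ‖∑ n ∈ Ioc m (m + H), l ^ n * f n‖ ≤ ε * N * H := by
  set D : ℕ := ⌈8 / ε⌉₊ + 1 with hD
  have hDpos : 1 ≤ D := by omega
  have hDR : (0 : ℝ) < D := by
    have : 0 < D := by omega
    exact_mod_cast this
  have hD8 : 8 / ε ≤ D := by
    rw [hD]
    push_cast
    linarith [Nat.le_ceil (8 / ε)]
  have hDinv : 8 ≤ ε * D := by
    rw [div_le_iff₀ hε] at hD8
    linarith
  set ε' : ℝ := ε / (8 * D) with hε'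
  have hε'pos : 0 < ε' := by positivity
  have key : ∀ d : ℕ, ∃ H₀ : ℕ, ∀ H : ℕ, H₀ ≤ H → 1 ≤ d → ∃ N₀ : ℕ, ∀ N : ℕ, N₀ ≤ N →
      ∑ m ∈ range N, ‖∑ n ∈ Ioc m (m + H), (l ^ (d ^ 2)) ^ n * g n‖ ≤ ε' * N * H := by
    intro d
    by_cases hd : 1 ≤ d
    · obtain ⟨H₀, h⟩ := hsi d hd ε' hε'pos
      exact ⟨H₀, fun H hH _ => h H hH⟩
    · exact ⟨0, fun H _ h => absurd h hd⟩
  choose H₀ hH₀ using key
  refine ⟨(∑ d ∈ Icc 1 D, d ^ 2 * H₀ d) + ⌈8 * D / ε⌉₊, ?_⟩
  intro H hH
  have hH1 : ∀ d ∈ Icc 1 D, H₀ d ≤ H / d ^ 2 := by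
    intro d hd
    have hdpos : 0 < d := (Finset.mem_Icc.1 hd).1
    rw [Nat.le_div_iff_mul_le (by positivity), mul_comm]
    have := Finset.single_le_sum (f := fun d => d ^ 2 * H₀ d) (fun _ _ => Nat.zero_le _) hd
    beta_reduce at this
    omega
  have hH2 : 8 * D ≤ ε * H := by
    have h1 : (⌈8 * D / ε⌉₊ : ℝ) ≤ H := by
      have : ⌈8 * D / ε⌉₊ ≤ H := by omega
      exact_mod_cast this
    have h2 := (Nat.le_ceil (8 * D / ε)).trans h1
    rw [div_le_iff₀ hε] at h2
    linarith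
  have hev : ∀ᶠ N : ℕ in atTop, ∀ d ∈ Icc 1 D,
      ∑ m ∈ range (N / d ^ 2 + 1), ‖∑ n ∈ Ioc m (m + H / d ^ 2), (l ^ (d ^ 2)) ^ n * g n‖ ≤
        ε' * (N / d ^ 2 + 1 : ℕ) * (H / d ^ 2 : ℕ) := by
    rw [Filter.eventually_all_finset]
    intro d hd
    have hdpos : 0 < d := (Finset.mem_Icc.1 hd).1
    obtain ⟨N₁, hN₁⟩ := hH₀ d (H / d ^ 2) (hH1 d hd) hdpos
    rw [Filter.eventually_atTop]
    refine ⟨d ^ 2 * N₁, ?_⟩
    intro N hN
    refine hN₁ (N / d ^ 2 + 1) ?_
    have : N₁ ≤ N / d ^ 2 := by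
      rw [Nat.le_div_iff_mul_le (by positivity), mul_comm]
      exact hN
    omega
  rw [Filter.eventually_atTop] at hev
  obtain ⟨N₁, hN₁⟩ := hev
  refine ⟨N₁ + H + D + 1, ?_⟩
  intro N hN
  have hNd := hN₁ N (by omega)
  set B : ℕ := N + H with hB
  have hNR : (1 : ℝ) ≤ N := by
    have : 1 ≤ N := by omega
    exact_mod_cast this
  have hHN : (H : ℝ) ≤ N := by
    have : H ≤ N := by omega
    exact_mod_cast this
  have hHR : (0 : ℝ) ≤ H := Nat.cast_nonneg H
  -- pointwise bound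
  have hpt : ∀ m ∈ range N, ‖∑ n ∈ Ioc m (m + H), l ^ n * f n‖ ≤
      (∑ d ∈ Icc 1 D, (‖∑ k ∈ Ioc (m / d ^ 2) (m / d ^ 2 + H / d ^ 2), (l ^ (d ^ 2)) ^ k * g k‖ + 1)) +
        ∑ n ∈ Ioc m (m + H), (((Ioc D B).filter (fun d => d ^ 2 ∣ n)).card : ℝ) := by
    intro m hm
    rw [Finset.mem_range] at hm
    have h1 : ∀ n ∈ Ioc m (m + H), l ^ n * f n =
        (∑ d ∈ Icc 1 D, c d *
          (if d ^ 2 ∣ n then l ^ n * g (n / d ^ 2) else 0)) +
        ∑ d ∈ (Ioc D B).filter (fun d => d ^ 2 ∣ n),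
          c d * (l ^ n * g (n / d ^ 2)) := by
      intro n hn
      rw [Finset.mem_Ioc] at hn
      rw [hid n B (by omega) (by omega), Finset.mul_sum, Finset.sum_filter, Finset.sum_filter]
      have hsplit : Icc 1 B = Icc 1 D ∪ Ioc D B := by
        ext x
        rw [Finset.mem_union, Finset.mem_Icc, Finset.mem_Icc, Finset.mem_Ioc]
        omega
      have hdisj : Disjoint (Icc 1 D) (Ioc D B) := by
        rw [Finset.disjoint_left]
        intro x hx hx'
        rw [Finset.mem_Icc] at hx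
        rw [Finset.mem_Ioc] at hx'
        omega
      rw [hsplit, Finset.sum_union hdisj]
      congr 1
      · refine Finset.sum_congr rfl ?_
        intro d _
        split_ifs
        · ring
        · ring
      · refine Finset.sum_congr rfl ?_
        intro d _
        split_ifs
        · ring
        · rfl
    rw [Finset.sum_congr rfl h1, Finset.sum_add_distrib, Finset.sum_comm]
    refine (norm_add_le _ _).trans (add_le_add ?_ ?_)
    · refine (norm_sum_le _ _).trans (Finset.sum_le_sum ?_)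
      intro d hd
      have hdpos : 0 < d := (Finset.mem_Icc.1 hd).1
      rw [← Finset.mul_sum, norm_mul]
      have h2 := one_d g hg l hlnorm m H (d ^ 2) (Nat.one_le_pow 2 d hdpos)
      calc ‖c d‖ *
            ‖∑ n ∈ Ioc m (m + H), (if d ^ 2 ∣ n then l ^ n * g (n / d ^ 2) else 0)‖
          ≤ 1 * (‖∑ k ∈ Ioc (m / d ^ 2) (m / d ^ 2 + H / d ^ 2), (l ^ (d ^ 2)) ^ k * g k‖ + 1) :=
            mul_le_mul (hc d) h2 (norm_nonneg _) zero_le_one
        _ = _ := one_mul _
    · refine (norm_sum_le _ _).trans (Finset.sum_le_sum ?_)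
      intro n _
      refine (norm_sum_le _ _).trans ?_
      have h3 : ∀ d ∈ (Ioc D B).filter (fun d => d ^ 2 ∣ n),
          ‖c d * (l ^ n * g (n / d ^ 2))‖ ≤ 1 := by
        intro d _
        rw [norm_mul, norm_mul, norm_pow, hlnorm, one_pow, one_mul]
        exact mul_le_one₀ (hc d) (norm_nonneg _) (hg _)
      refine (Finset.sum_le_sum h3).trans ?_
      rw [Finset.sum_const, nsmul_eq_mul, mul_one]
  refine (Finset.sum_le_sum hpt).trans ?_
  rw [Finset.sum_add_distrib, Finset.sum_comm]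
  have hfirst : ∑ d ∈ Icc 1 D, ∑ m ∈ range N,
      (‖∑ k ∈ Ioc (m / d ^ 2) (m / d ^ 2 + H / d ^ 2), (l ^ (d ^ 2)) ^ k * g k‖ + 1) ≤
      D * (ε' * (N * H + H) + N) := by
    have h4 : ∀ d ∈ Icc 1 D, ∑ m ∈ range N,
      (‖∑ k ∈ Ioc (m / d ^ 2) (m / d ^ 2 + H / d ^ 2), (l ^ (d ^ 2)) ^ k * g k‖ + 1) ≤
        ε' * (N * H + H) + N := by
      intro d hd
      have hdpos : 0 < d := (Finset.mem_Icc.1 hd).1
      have hd2 : 1 ≤ d ^ 2 := by
        have : 0 < d ^ 2 := by positivity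
        omega
      rw [Finset.sum_add_distrib, Finset.sum_const, Finset.card_range, nsmul_eq_mul, mul_one]
      refine add_le_add ?_ le_rfl
      have h5 := fiber_bound (fun j => ‖∑ k ∈ Ioc j (j + H / d ^ 2), (l ^ (d ^ 2)) ^ k * g k‖)
        (fun _ => norm_nonneg _) N (d ^ 2) hd2
      beta_reduce at h5
      refine h5.trans ?_
      have h6 := hNd d hd
      set e : ℕ := d ^ 2 with he
      have heR : (1 : ℝ) ≤ e := by exact_mod_cast hd2
      calc (e : ℝ) * ∑ m ∈ range (N / e + 1), ‖∑ n ∈ Ioc m (m + H / e), (l ^ e) ^ n * g n‖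
          ≤ e * (ε' * (N / e + 1 : ℕ) * (H / e : ℕ)) :=
            mul_le_mul_of_nonneg_left h6 (by positivity)
        _ = ε' * ((e * ((N / e : ℕ) : ℝ) + e) * ((H / e : ℕ) : ℝ)) := by
            push_cast
            ring
        _ ≤ ε' * ((N + e) * (H / e)) := by
            refine mul_le_mul_of_nonneg_left ?_ hε'pos.le
            have h7 : (e : ℝ) * ((N / e : ℕ) : ℝ) ≤ N := by
              exact_mod_cast Nat.mul_div_le N e
            have h8 : ((H / e : ℕ) : ℝ) ≤ H / e := Nat.cast_div_le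
            refine mul_le_mul (by linarith) h8 (Nat.cast_nonneg _) (by positivity)
        _ ≤ ε' * (N * H + H) := by
            refine mul_le_mul_of_nonneg_left ?_ hε'pos.le
            have h9 : (N + e : ℝ) * (H / e) = N * (H / e) + H := by
              field_simp
            rw [h9]
            have h10 : (H : ℝ) / e ≤ H := div_le_self hHR heR
            nlinarith
    refine (Finset.sum_le_sum h4).trans ?_
    rw [Finset.sum_const, nsmul_eq_mul, Nat.card_Icc, Nat.add_sub_cancel]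
  have hsecond : ∑ m ∈ range N, ∑ n ∈ Ioc m (m + H), (((Ioc D B).filter (fun d => d ^ 2 ∣ n)).card : ℝ) ≤
      H * ((N + H) / D) := by
    refine (window _ (fun _ => Nat.cast_nonneg _) N H).trans ?_
    refine mul_le_mul_of_nonneg_left ?_ hHR
    have := sq_count D B (N + H) hDpos (by omega)
    push_cast at this
    exact this
  refine (add_le_add hfirst hsecond).trans ?_
  have h11 : (D : ℝ) * (ε' * (N * H + H) + N) = ε / 8 * (N * H + H) + D * N := by
    rw [hε']
    field_simp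
  rw [h11]
  have h12 : (H : ℝ) ≤ N * H := by nlinarith
  have h13 : (D : ℝ) * N ≤ ε / 8 * (N * H) := by nlinarith
  have h14 : (H : ℝ) * ((N + H) / D) ≤ ε / 4 * (N * H) := by
    have h15 : ((N : ℝ) + H) / D ≤ ε / 4 * N := by
      rw [div_le_iff₀ hDR]
      nlinarith
    calc (H : ℝ) * ((N + H) / D) ≤ H * (ε / 4 * N) := mul_le_mul_of_nonneg_left h15 hHR
      _ = _ := by ring
  have h16 : 0 ≤ ε * (N * H) := by positivity
  nlinarith



private theorem lio_id (n B : ℕ) (hn : 1 ≤ n) (hB : n ≤ B) :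
    lio n = ∑ d ∈ (Icc 1 B).filter (fun d => d ^ 2 ∣ n),
      (1 : ℂ) * ((ArithmeticFunction.moebius (n / d ^ 2) : ℤ) : ℂ) := by
  obtain ⟨a, b, ha, hb, hab, hsq⟩ := Nat.sq_mul_squarefree_of_pos hn
  have hbn : b ≤ n := by
    rw [← hab]
    nlinarith [Nat.mul_le_mul hb hb]
  have hbmem : b ∈ (Icc 1 B).filter (fun d => d ^ 2 ∣ n) := by
    rw [Finset.mem_filter, Finset.mem_Icc]
    refine ⟨⟨hb, by omega⟩, ?_⟩
    rw [← hab]
    exact Dvd.intro _ rfl
  rw [Finset.sum_eq_single_of_mem b hbmem]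
  · have h1 : n / b ^ 2 = a := by
      rw [← hab]
      exact Nat.mul_div_cancel_left a (by positivity)
    rw [h1, one_mul, ArithmeticFunction.moebius_apply_of_squarefree hsq]
    have h2 : lio n = lio a := by
      rw [← hab, lio_CM.mul, pow_two, lio_CM.mul]
      have h1 : lio b * lio b = 1 := by
        unfold lio
        rw [if_neg hb.ne', ← pow_add, ← two_mul, pow_mul]
        norm_num
      rw [h1, one_mul]
    rw [h2]
    unfold lio
    rw [if_neg ha.ne']
    push_cast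
    rfl
  · intro d hd hne
    rw [Finset.mem_filter, Finset.mem_Icc] at hd
    have hdb : d ∣ b := by
      have := hd.2
      rw [← hab] at this
      exact sq_dvd_aux ha hb hsq this
    obtain ⟨k, hk⟩ := hdb
    have hk1 : k ≠ 1 := by
      rintro rfl
      rw [mul_one] at hk
      exact hne hk.symm
    have h1 : n / d ^ 2 = k ^ 2 * a := by
      rw [← hab, hk, mul_pow, mul_assoc]
      exact Nat.mul_div_cancel_left _ (by
        have : 0 < d := hd.1.1
        positivity)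
    rw [h1, one_mul]
    have : ¬ Squarefree (k ^ 2 * a) := by
      intro h
      have h2 : IsUnit k := h k (by rw [pow_two]; exact Dvd.intro _ rfl)
      exact hk1 (Nat.isUnit_iff.1 h2)
    rw [ArithmeticFunction.moebius_eq_zero_of_not_squarefree this]
    simp

/-- Moebius -/
theorem si_mu : SI (fun n => ((ArithmeticFunction.moebius n : ℤ) : ℂ)) := by
  intro l hl ε hε
  by_cases h : ∀ q : ℕ, 1 ≤ q → l ^ q ≠ 1
  · exact irr l hl h ε hε
  · push Not at h
    obtain ⟨q, hq, hlq⟩ := h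
    exact mr_mu l q hq hlq ε hε

/-- Liouville -/
theorem si_lio : SI lio := by
  intro l hl ε hε
  refine si_sq (fun _ => 1) (fun n => ((ArithmeticFunction.moebius n : ℤ) : ℂ)) lio
    (fun _ => by simp) (fun n => ?_) lio_id l hl ε hε (fun d hd ε' hε' => ?_)
  · rw [Complex.norm_intCast]
    exact_mod_cast (ArithmeticFunction.abs_moebius_le_one (n := n))
  · exact si_mu (l ^ (d ^ 2)) (by rw [norm_pow, hl, one_pow]) ε' hε'

end Pool.Agent.S7e
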