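import Pool.Agent.SgR.Rho
import Pool.Agent.Mrd.Mert

/-!
# The additive energy of the primes (S7 = MP_13664e_an, block E, helper69)

`rr P k` is the number of pairs of primes in `(P, 2P]` with difference `k`. An upper bound sieve of
dimension two gives `rr P k ≤ C (k / φ(k)) P / (log P)²`, so `∑_k (rr P k)² ≤ C P³ / (log P)⁴`.
-/

set_option autoImplicit false

namespace Pool.Agent.S7e

open Finset Pool.Agent.BrunHooley
open Pool.Agent.SgR (sift_upper card_lin)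

/-- the primes in `(P, 2P]` -/
def PP (P : ℕ) : Finset ℕ := (Ioc P (2 * P)).filter Nat.Prime

/-- number of pairs of primes in `(P, 2P]` with difference `k` -/
def rr (P k : ℕ) : ℕ := ((PP P).filter fun p => p + k ∈ PP P).card

lemma mem_PP {P p : ℕ} : p ∈ PP P ↔ (P < p ∧ p ≤ 2 * P) ∧ p.Prime := by
  rw [PP, mem_filter, mem_Ioc]

/-! ## the sieve -/

/-- the sieve condition for `n = i + b` and `n + k` -/
def AE (k b p i : ℕ) : Prop := p ∣ i + b ∨ p ∣ i + b + k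

private theorem per_AE (k b : ℕ) : Per (AE k b) := by
  intro p i
  unfold AE
  have e1 : i + p + b = i + b + p := by ring
  have e2 : i + p + b + k = i + b + k + p := by ring
  rw [e1, show i + b + p + k = i + b + k + p by ring, Nat.dvd_add_left (dvd_refl p),
    Nat.dvd_add_left (dvd_refl p)]

private theorem card_one {p b : ℕ} (hp : p.Prime) : ((range p).filter fun i => p ∣ i + b).card = 1 := by
  have h := card_lin (p := p) (a := 1) (b := b) hp (fun h => hp.one_lt.ne' (Nat.dvd_one.1 h))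
  simpa only [one_mul] using h

open Classical in
private theorem rho_AE {k b p : ℕ} (hp : p.Prime) : rho (AE k b) p = if p ∣ k then 1 else 2 := by
  unfold rho
  split_ifs with hk
  · rw [← card_one (b := b) hp]
    congr 1
    ext i
    rw [mem_filter, mem_filter]
    refine and_congr_right fun _ => ?_
    unfold AE
    rw [Nat.dvd_add_left hk, or_self]
  · have hu : ((range p).filter fun i => AE k b p i) =
        ((range p).filter fun i => p ∣ i + b) ∪ ((range p).filter fun i => p ∣ i + (b + k)) := by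
      ext i
      rw [mem_filter, mem_union, mem_filter, mem_filter]
      unfold AE
      rw [add_assoc]
      tauto
    rw [hu, card_union_of_disjoint, card_one hp, card_one hp]
    rw [disjoint_filter]
    intro i _ h1 h2
    rw [← add_assoc] at h2
    exact hk ((Nat.dvd_add_right h1).1 h2)

private theorem W_AE (k b r : ℕ) (hk : 1 ≤ k) : 0 ≤ W (AE k b) r ∧
    W (AE k b) r * (2 ^ r * Real.log 2) ^ 2 ≤ (k : ℝ) / k.totient := by
  have hpos : ∀ p ∈ Pz r, 0 ≤ 1 - (1 : ℝ) / p := by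
    intro p hp
    have h1 : (1 : ℝ) ≤ p := by exact_mod_cast (mem_filter.1 hp).2.one_le
    rw [sub_nonneg]
    exact (div_le_one (by linarith)).2 h1
  have hW0 : ∀ p ∈ Pz r, 0 ≤ 1 - (rho (AE k b) p : ℝ) / p ∨ p = 2 := by
    intro p hp
    have hpp := (mem_filter.1 hp).2
    rcases eq_or_ne p 2 with h | h
    · right; exact h
    · left
      have h3 : (3 : ℝ) ≤ p := by
        have h2 := hpp.two_le
        exact_mod_cast (by omega : 3 ≤ p)
      have h4 : (rho (AE k b) p : ℝ) ≤ 2 := by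
        rw [rho_AE hpp]
        split_ifs <;> norm_num
      rw [sub_nonneg]
      exact (div_le_one (by linarith)).2 (by linarith)
  have hW00 : ∀ p ∈ Pz r, 0 ≤ 1 - (rho (AE k b) p : ℝ) / p := by
    intro p hp
    rcases hW0 p hp with h | h
    · exact h
    · have hpp := (mem_filter.1 hp).2
      have h4 : (rho (AE k b) p : ℝ) ≤ 2 := by
        rw [rho_AE hpp]
        split_ifs <;> norm_num
      rw [h] at h4 ⊢
      push_cast
      linarith
  have hW : W (AE k b) r ≤ (∏ p ∈ Pz r, (1 - (1 : ℝ) / p)) *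
      ∏ p ∈ (Pz r).filter (fun p => ¬ p ∣ k), (1 - (1 : ℝ) / p) := by
    rw [prod_filter, ← prod_mul_distrib]
    refine prod_le_prod hW00 fun p hp => ?_
    have hpp := (mem_filter.1 hp).2
    have hp0 : (0 : ℝ) < p := by exact_mod_cast hpp.pos
    rw [rho_AE hpp]
    by_cases h : p ∣ k
    · rw [if_pos h, if_neg (not_not.2 h)]
      push_cast
      rw [mul_one]
    · rw [if_neg h, if_pos h]
      push_cast
      have h2 : (1 - (1 : ℝ) / p) * (1 - 1 / p) = 1 - 2 / p + (1 / p) ^ 2 := by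
        field_simp
        ring
      rw [h2]
      have : 0 ≤ ((1 : ℝ) / p) ^ 2 := sq_nonneg _
      linarith
  have hn : 2 ≤ 2 ^ 2 ^ r := by
    calc 2 = 2 ^ 1 := by norm_num
      _ ≤ 2 ^ 2 ^ r := Nat.pow_le_pow_right (by norm_num) Nat.one_le_two_pow
  have hlog : Real.log ((2 ^ 2 ^ r : ℕ) : ℝ) = 2 ^ r * Real.log 2 := by
    push_cast
    rw [Real.log_pow]
    push_cast
    rfl
  have hl : 0 < 2 ^ r * Real.log 2 := by
    have := Real.log_pos (by norm_num : (1 : ℝ) < 2)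
    positivity
  have h1 := prod_primes_coprime_le 1 (2 ^ 2 ^ r) le_rfl hn
  have h2 := prod_primes_coprime_le k (2 ^ 2 ^ r) hk hn
  rw [hlog] at h1 h2
  have e1 : (range (2 ^ 2 ^ r)).filter (fun p => p.Prime ∧ ¬ p ∣ 1) = Pz r := by
    ext p
    simp only [Pz, mem_filter, Nat.dvd_one]
    constructor
    · rintro ⟨h, h3, _⟩; exact ⟨h, h3⟩
    · rintro ⟨h, h3⟩; exact ⟨h, h3, h3.one_lt.ne'⟩
  have e2 : (range (2 ^ 2 ^ r)).filter (fun p => p.Prime ∧ ¬ p ∣ k) =
      (Pz r).filter (fun p => ¬ p ∣ k) := by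
    ext p
    simp only [Pz, mem_filter]
    tauto
  rw [e1, Nat.totient_one, Nat.cast_one, div_one] at h1
  rw [e2] at h2
  have hp1 : 0 ≤ ∏ p ∈ Pz r, (1 - (1 : ℝ) / p) := prod_nonneg hpos
  have hp2 : 0 ≤ ∏ p ∈ (Pz r).filter (fun p => ¬ p ∣ k), (1 - (1 : ℝ) / p) :=
    prod_nonneg fun p hp => hpos p (mem_filter.1 hp).1
  refine ⟨prod_nonneg hW00, ?_⟩
  calc W (AE k b) r * (2 ^ r * Real.log 2) ^ 2
      ≤ ((∏ p ∈ Pz r, (1 - (1 : ℝ) / p)) *
      ∏ p ∈ (Pz r).filter (fun p => ¬ p ∣ k), (1 - (1 : ℝ) / p)) * (2 ^ r * Real.log 2) ^ 2 :=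
        mul_le_mul_of_nonneg_right hW (by positivity)
    _ ≤ ((1 / (2 ^ r * Real.log 2)) * (((k : ℝ) / k.totient) / (2 ^ r * Real.log 2))) *
        (2 ^ r * Real.log 2) ^ 2 :=
        mul_le_mul_of_nonneg_right (mul_le_mul h1 h2 hp2 (by positivity)) (by positivity)
    _ = (k : ℝ) / k.totient := by
        field_simp

open Classical in
private theorem rr_sieve {P k r : ℕ} (hz : 2 ^ 2 ^ r ≤ P) : rr P k ≤ sift (AE k (P + 1)) r P := by
  unfold rr sift
  refine card_le_card_of_injOn (fun p => p - (P + 1)) ?_ ?_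
  · intro p hp
    rw [mem_coe, mem_filter] at hp
    obtain ⟨h1, h2⟩ := hp
    rw [mem_PP] at h1 h2
    obtain ⟨⟨h3, h4⟩, h5⟩ := h1
    obtain ⟨⟨h6, h7⟩, h8⟩ := h2
    have hlt : p - (P + 1) < P := by omega
    rw [mem_coe, mem_filter, mem_range]
    refine ⟨hlt, fun q hq hA => ?_⟩
    have hq1 := mem_range.1 (mem_filter.1 hq).1
    have hq2 := (mem_filter.1 hq).2
    have e : p - (P + 1) + (P + 1) = p := by omega
    rcases hA with hA | hA
    · rw [e] at hA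
      have := (Nat.prime_dvd_prime_iff_eq hq2 h5).1 hA
      omega
    · rw [e] at hA
      have := (Nat.prime_dvd_prime_iff_eq hq2 h8).1 hA
      omega
  · intro p hp q hq h
    rw [mem_coe, mem_filter, mem_PP] at hp hq
    simp only at h
    omega

private lemma rr_odd {P k : ℕ} (hP : 2 ≤ P) (hk : ¬ 2 ∣ k) : rr P k = 0 := by
  unfold rr
  rw [card_eq_zero, filter_eq_empty_iff]
  intro p hp hq
  rw [mem_PP] at hp hq
  have h1 := hp.2.eq_two_or_odd
  have h2 := hq.2.eq_two_or_odd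
  omega

private lemma rr_triv (P k : ℕ) : rr P k ≤ P := by
  unfold rr
  refine (card_filter_le _ _).trans ((card_filter_le _ _).trans ?_)
  rw [Nat.card_Ioc]
  omega

private lemma one_le_tot {k : ℕ} (hk : 1 ≤ k) : 1 ≤ (k : ℝ) / k.totient := by
  have h1 : (0 : ℝ) < k.totient := by exact_mod_cast Nat.totient_pos.2 hk
  rw [le_div_iff₀ h1, one_mul]
  exact_mod_cast Nat.totient_le k

private lemma sqrt_log : ∃ L0 : ℝ, 1 ≤ L0 ∧ ∀ L : ℝ, L0 ≤ L → L ^ 2 ≤ Real.exp (L / 2) := by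
  have h := Real.tendsto_pow_mul_exp_neg_atTop_nhds_zero 2
  have h3 := (h.eventually (gt_mem_nhds (show (0 : ℝ) < 1 / 4 by norm_num)))
  obtain ⟨T, hT⟩ := Filter.eventually_atTop.1 h3
  refine ⟨max (2 * T) 1, le_max_right _ _, fun L hL => ?_⟩
  have h4 := hT (L / 2) (by linarith [(le_max_left (2 * T) 1).trans hL])
  have h5 : (L / 2) ^ 2 = (L / 2) ^ 2 * Real.exp (-(L / 2)) * Real.exp (L / 2) := by
    rw [Real.exp_neg]
    field_simp
  have h6 : (L / 2) ^ 2 ≤ 1 / 4 * Real.exp (L / 2) := by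
    rw [h5]
    exact mul_le_mul_of_nonneg_right h4.le (Real.exp_pos _).le
  nlinarith

/-- the number of pairs of primes with a given difference -/
theorem pair_le : ∃ C : ℝ, 0 < C ∧ ∀ P k : ℕ, 2 ≤ P → 1 ≤ k →
    (rr P k : ℝ) ≤ C * ((k : ℝ) / k.totient) * (P / (Real.log P) ^ 2) := by
  obtain ⟨u, r0, hs⟩ := sift_upper 2
  obtain ⟨L1, hL1, he⟩ := sqrt_log
  have hl2 := Real.log_pos (by norm_num : (1 : ℝ) < 2)
  obtain ⟨D, hD⟩ : ∃ D : ℝ, D = 2 * (u + 2) * Real.log 2 := ⟨_, rfl⟩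
  have hDpos : 0 < D := by rw [hD]; positivity
  obtain ⟨L0, hL0⟩ : ∃ L0 : ℝ, L0 = max L1 (D * 2 ^ (r0 + 1)) := ⟨_, rfl⟩
  have hL01 : 1 ≤ L0 := by rw [hL0]; exact hL1.trans (le_max_left _ _)
  refine ⟨32 * (u + 2) ^ 2 + 1 + L0 ^ 2, by positivity, ?_⟩
  intro P k hP hk
  have ht := one_le_tot hk
  have hP0 : (0 : ℝ) < P := by exact_mod_cast (by omega : 0 < P)
  have hP1 : (1 : ℝ) < P := by exact_mod_cast (by omega : 1 < P)
  obtain ⟨L, hL⟩ : ∃ L, L = Real.log P := ⟨_, rfl⟩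
  have hLp : 0 < L := by rw [hL]; exact Real.log_pos hP1
  rw [← hL]
  rcases lt_or_ge L L0 with hlt | hge
  · -- small `P`
    have h1 : (rr P k : ℝ) ≤ P := by exact_mod_cast rr_triv P k
    have h2 : (1 : ℝ) ≤ L0 ^ 2 / L ^ 2 := by
      rw [le_div_iff₀ (by positivity), one_mul]
      exact pow_le_pow_left₀ hLp.le hlt.le 2
    calc (rr P k : ℝ) ≤ P * 1 := by rw [mul_one]; exact h1
      _ ≤ P * (L0 ^ 2 / L ^ 2) := mul_le_mul_of_nonneg_left h2 hP0.le
      _ = L0 ^ 2 * 1 * (P / L ^ 2) := by ring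
      _ ≤ (32 * (u + 2) ^ 2 + 1 + L0 ^ 2) * ((k : ℝ) / k.totient) * (P / L ^ 2) := by
        refine mul_le_mul_of_nonneg_right ?_ (by positivity)
        refine mul_le_mul ?_ ht zero_le_one (by positivity)
        have : (0 : ℝ) ≤ 32 * (u + 2) ^ 2 + 1 := by positivity
        linarith
  by_cases h2k : 2 ∣ k
  swap
  · rw [rr_odd hP h2k, Nat.cast_zero]
    positivity
  -- choice of r
  have hLL1 : L1 ≤ L := by rw [hL0] at hge; exact (le_max_left _ _).trans hge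
  have hLL2 : D * 2 ^ (r0 + 1) ≤ L := by rw [hL0] at hge; exact (le_max_right _ _).trans hge
  have hy : 2 ^ (r0 + 1) ≤ L / D := by
    rw [le_div_iff₀ hDpos]; linarith
  have hy1 : 1 ≤ L / D := (one_le_pow₀ (by norm_num)).trans hy
  obtain ⟨r, hr1, hr2⟩ := exists_nat_pow_near hy1 (by norm_num : (1 : ℝ) < 2)
  have hrr : r0 ≤ r := by
    have h1 : (2 : ℝ) ^ (r0 + 1) < 2 ^ (r + 1) := lt_of_le_of_lt hy hr2
    have h2 := (pow_lt_pow_iff_right₀ (by norm_num : (1 : ℝ) < 2)).1 h1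
    omega
  have hexp : (2 : ℝ) ^ (2 ^ r * (u + 2)) ≤ Real.exp (L / 2) := by
    rw [← Real.exp_log (pow_pos (by norm_num : (0 : ℝ) < 2) (2 ^ r * (u + 2))), Real.log_pow]
    apply Real.exp_le_exp.2
    have h7 : D * 2 ^ r ≤ L := by
      rw [le_div_iff₀ hDpos] at hr1; linarith
    rw [hD] at h7
    push_cast
    linarith
  have hexp2 : Real.exp (L / 2) ≤ P / L ^ 2 := by
    rw [le_div_iff₀ (by positivity)]
    have h1 : (P : ℝ) = Real.exp (L / 2) * Real.exp (L / 2) := by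
      rw [← Real.exp_add, add_halves, hL, Real.exp_log hP0]
    rw [h1]
    exact mul_le_mul_of_nonneg_left (he L hLL1) (Real.exp_pos _).le
  have hz : 2 ^ 2 ^ r ≤ P := by
    have h1 : (2 : ℝ) ^ 2 ^ r ≤ P := by
      calc (2 : ℝ) ^ 2 ^ r ≤ 2 ^ (2 ^ r * (u + 2)) :=
            pow_le_pow_right₀ (by norm_num) (Nat.le_mul_of_pos_right _ (by omega))
        _ ≤ P / L ^ 2 := hexp.trans hexp2
        _ ≤ P := div_le_self hP0.le (one_le_pow₀ (hL1.trans hLL1))
    exact_mod_cast h1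
  have h1 := hs r hrr (AE k (P + 1)) (per_AE k (P + 1)) (fun p hp => by
    have hpp := (mem_filter.1 hp).2
    have h2 := hpp.two_le
    rw [rho_AE hpp]
    split_ifs with h
    · omega
    · have : p ≠ 2 := by rintro rfl; exact h h2k
      omega) P
  have h2 : (rr P k : ℝ) ≤ (sift (AE k (P + 1)) r P : ℝ) := by exact_mod_cast rr_sieve hz
  obtain ⟨hW0, hW⟩ := W_AE k (P + 1) r hk
  have hT : L / (4 * (u + 2)) ≤ 2 ^ r * Real.log 2 := by
    have h3 : L < D * 2 ^ (r + 1) := by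
      rw [div_lt_iff₀ hDpos] at hr2; linarith
    rw [div_le_iff₀ (by positivity)]
    rw [hD, pow_succ] at h3
    nlinarith
  have hT2 : (L / (4 * (u + 2))) ^ 2 ≤ (2 ^ r * Real.log 2) ^ 2 :=
    pow_le_pow_left₀ (by positivity) hT 2
  have hW2 : W (AE k (P + 1)) r ≤ 16 * (u + 2) ^ 2 * ((k : ℝ) / k.totient) / L ^ 2 := by
    rw [le_div_iff₀ (by positivity)]
    have h3 : W (AE k (P + 1)) r * (L / (4 * (u + 2))) ^ 2 ≤ (k : ℝ) / k.totient :=
      (mul_le_mul_of_nonneg_left hT2 hW0).trans hW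
    have h4 : W (AE k (P + 1)) r * (L ^ 2) =
        (16 * (u + 2) ^ 2) * (W (AE k (P + 1)) r * (L / (4 * (u + 2))) ^ 2) := by
      field_simp
      norm_num
    rw [h4]
    exact mul_le_mul_of_nonneg_left h3 (by positivity)
  have herr : (2 : ℝ) ^ (2 ^ r * u) ≤ P / L ^ 2 := by
    refine le_trans ?_ (hexp.trans hexp2)
    exact pow_le_pow_right₀ (by norm_num) (Nat.mul_le_mul_left _ (by omega))
  have hq : (0 : ℝ) ≤ P / L ^ 2 := by positivity
  have hL02 : (0 : ℝ) ≤ L0 ^ 2 := by positivity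
  calc (rr P k : ℝ) ≤ 2 * P * W (AE k (P + 1)) r + 2 ^ (2 ^ r * u) := h2.trans h1
    _ ≤ 2 * P * (16 * (u + 2) ^ 2 * ((k : ℝ) / k.totient) / L ^ 2) + P / L ^ 2 :=
        add_le_add (mul_le_mul_of_nonneg_left hW2 (by positivity)) herr
    _ = (32 * (u + 2) ^ 2 * ((k : ℝ) / k.totient) + 1) * (P / L ^ 2) := by ring
    _ ≤ (32 * (u + 2) ^ 2 + 1 + L0 ^ 2) * ((k : ℝ) / k.totient) * (P / L ^ 2) := by
        refine mul_le_mul_of_nonneg_right ?_ hq
        nlinarith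

/-! ## the second moment of `k / φ(k)` -/

/-- `(1 - 1/p)^{-2} - 1` -/
private noncomputable def gg (p : ℕ) : ℝ := (1 - (1 : ℝ) / p)⁻¹ ^ 2 - 1

private lemma gg_nonneg {p : ℕ} (hp : p.Prime) : 0 ≤ gg p := by
  have h1 : (2 : ℝ) ≤ p := by exact_mod_cast hp.two_le
  have h3 : (1 : ℝ) / p ≤ 1 / 2 := one_div_le_one_div_of_le (by norm_num) h1
  have h4 : (0 : ℝ) ≤ 1 / p := by positivity
  have h2 : (1 : ℝ) ≤ (1 - (1 : ℝ) / p)⁻¹ := by
    rw [one_le_inv₀ (by linarith)]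
    linarith
  unfold gg
  nlinarith

private lemma gg_le {p : ℕ} (hp : p.Prime) : gg p / p ≤ 8 / (p : ℝ) ^ 2 := by
  have h1 : (2 : ℝ) ≤ p := by exact_mod_cast hp.two_le
  have hp0 : (0 : ℝ) < p := by linarith
  have hp1 : (0 : ℝ) < p - 1 := by linarith
  have e : gg p = (2 * p - 1) / ((p : ℝ) - 1) ^ 2 := by
    unfold gg
    have : (1 - (1 : ℝ) / p) = (p - 1) / p := by field_simp
    rw [this, inv_div]
    field_simp
    ring
  rw [e, div_div, div_le_div_iff₀ (by positivity) (by positivity)]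
  have h2 : (p : ℝ) ≤ 2 * (p - 1) := by linarith
  have h3 : (2 * (p : ℝ) - 1) * p ≤ 8 * ((p : ℝ) - 1) ^ 2 := by nlinarith
  calc (2 * (p : ℝ) - 1) * (p : ℝ) ^ 2 = ((2 * (p : ℝ) - 1) * p) * p := by ring
    _ ≤ (8 * ((p : ℝ) - 1) ^ 2) * p := mul_le_mul_of_nonneg_right h3 hp0.le
    _ = 8 * (((p : ℝ) - 1) ^ 2 * p) := by ring

private lemma tot_eq {k : ℕ} (hk : 1 ≤ k) :
    ((k : ℝ) / k.totient) ^ 2 = ∏ p ∈ k.primeFactors, (1 + gg p) := by
  have hk0 : (k : ℝ) ≠ 0 := by exact_mod_cast (by omega : k ≠ 0)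
  have h := Nat.totient_eq_mul_prod_factors k
  have h2 : (k.totient : ℝ) = k * ∏ p ∈ k.primeFactors, (1 - (p : ℝ)⁻¹) := by
    have h3 := congrArg (fun x : ℚ => (x : ℝ)) h
    push_cast at h3
    exact h3
  have h4 : (k : ℝ) / k.totient = ∏ p ∈ k.primeFactors, (1 - (1 : ℝ) / p)⁻¹ := by
    rw [h2, prod_inv_distrib, div_mul_eq_div_div, div_self hk0, one_div]
    refine congrArg _ (prod_congr rfl fun p _ => ?_)
    rw [one_div]
  rw [h4, ← prod_pow]
  refine prod_congr rfl fun p _ => ?_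
  unfold gg
  ring

theorem tot_sq (K : ℕ) : ∑ k ∈ Icc 1 K, ((k : ℝ) / k.totient) ^ 2 ≤ Real.exp 16 * K := by
  classical
  set Q : Finset ℕ := (range (K + 1)).filter Nat.Prime with hQ
  have hQp : ∀ p ∈ Q, p.Prime := fun p hp => (mem_filter.1 hp).2
  have h1 : ∀ k ∈ Icc 1 K, ((k : ℝ) / k.totient) ^ 2 =
      ∑ S ∈ Q.powerset, if S ⊆ k.primeFactors then ∏ p ∈ S, gg p else 0 := by
    intro k hk
    rw [mem_Icc] at hk
    rw [tot_eq hk.1, prod_one_add, ← sum_filter]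
    refine sum_congr ?_ fun _ _ => rfl
    ext S
    rw [mem_powerset, mem_filter, mem_powerset]
    refine ⟨fun h => ⟨fun p hp => ?_, h⟩, fun h => h.2⟩
    have h2 := Nat.mem_primeFactors.1 (h hp)
    rw [hQ, mem_filter, mem_range]
    exact ⟨by have := Nat.le_of_dvd (by omega) h2.2.1; omega, h2.1⟩
  have h2 : ∀ S ∈ Q.powerset, ∑ k ∈ Icc 1 K, (if S ⊆ k.primeFactors then ∏ p ∈ S, gg p else 0) ≤
      K * ∏ p ∈ S, (gg p / p) := by
    intro S hS
    rw [mem_powerset] at hS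
    have hg : 0 ≤ ∏ p ∈ S, gg p := prod_nonneg fun p hp => gg_nonneg (hQp p (hS hp))
    have hpos : 0 < ∏ p ∈ S, p := prod_pos fun p hp => (hQp p (hS hp)).pos
    rw [← sum_filter, sum_const, nsmul_eq_mul]
    have hc : (((Icc 1 K).filter fun k => S ⊆ k.primeFactors).card : ℝ) ≤
        K / ((∏ p ∈ S, p : ℕ) : ℝ) := by
      have hc1 : ((Icc 1 K).filter fun k => S ⊆ k.primeFactors).card ≤ K / ∏ p ∈ S, p := by
        have hc2 : ((Icc 1 K).filter fun k => S ⊆ k.primeFactors) ⊆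
            (Icc 1 (K / ∏ p ∈ S, p)).image fun m => (∏ p ∈ S, p) * m := by
          intro k hk
          rw [mem_filter, mem_Icc] at hk
          obtain ⟨⟨hk1, hk2⟩, hk3⟩ := hk
          have hd : (∏ p ∈ S, p) ∣ k :=
            Finset.prod_primes_dvd k (fun p hp => (hQp p (hS hp)).prime)
              (fun p hp => (Nat.mem_primeFactors.1 (hk3 hp)).2.1)
          obtain ⟨m, rfl⟩ := hd
          rw [mem_image]
          refine ⟨m, mem_Icc.2 ⟨?_, ?_⟩, rfl⟩
          · rcases Nat.eq_zero_or_pos m with h | h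
            · rw [h, mul_zero] at hk1
              omega
            · exact h
          · rw [Nat.le_div_iff_mul_le hpos, mul_comm]
            exact hk2
        refine (card_le_card hc2).trans (card_image_le.trans ?_)
        rw [Nat.card_Icc, Nat.add_sub_cancel]
      calc (((Icc 1 K).filter fun k => S ⊆ k.primeFactors).card : ℝ)
          ≤ ((K / ∏ p ∈ S, p : ℕ) : ℝ) := by exact_mod_cast hc1
        _ ≤ K / ((∏ p ∈ S, p : ℕ) : ℝ) := Nat.cast_div_le
    calc (((Icc 1 K).filter fun k => S ⊆ k.primeFactors).card : ℝ) * ∏ p ∈ S, gg p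
        ≤ (K / ((∏ p ∈ S, p : ℕ) : ℝ)) * ∏ p ∈ S, gg p := mul_le_mul_of_nonneg_right hc hg
      _ = K * ∏ p ∈ S, (gg p / p) := by
        rw [prod_div_distrib]
        push_cast
        ring
  calc ∑ k ∈ Icc 1 K, ((k : ℝ) / k.totient) ^ 2
      = ∑ k ∈ Icc 1 K, ∑ S ∈ Q.powerset, (if S ⊆ k.primeFactors then ∏ p ∈ S, gg p else 0) :=
        sum_congr rfl h1
    _ = ∑ S ∈ Q.powerset, ∑ k ∈ Icc 1 K, (if S ⊆ k.primeFactors then ∏ p ∈ S, gg p else 0) :=
        sum_comm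
    _ ≤ ∑ S ∈ Q.powerset, K * ∏ p ∈ S, (gg p / p) := sum_le_sum h2
    _ = K * ∏ p ∈ Q, (1 + gg p / p) := by rw [← mul_sum, prod_one_add]
    _ ≤ K * Real.exp (∑ p ∈ Q, gg p / p) := by
        refine mul_le_mul_of_nonneg_left ?_ (Nat.cast_nonneg K)
        rw [Real.exp_sum]
        refine prod_le_prod (fun p hp => ?_) fun p _ => ?_
        · have := gg_nonneg (hQp p hp)
          positivity
        · rw [add_comm]
          exact Real.add_one_le_exp _
    _ ≤ K * Real.exp 16 := by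
        refine mul_le_mul_of_nonneg_left (Real.exp_le_exp.2 ?_) (Nat.cast_nonneg K)
        calc ∑ p ∈ Q, gg p / p ≤ ∑ p ∈ Q, 8 / (p : ℝ) ^ 2 :=
              sum_le_sum fun p hp => gg_le (hQp p hp)
          _ ≤ ∑ p ∈ Ioc 1 (K + 1), 8 / (p : ℝ) ^ 2 := by
              refine sum_le_sum_of_subset_of_nonneg ?_ fun p _ _ => by positivity
              intro p hp
              rw [hQ, mem_filter, mem_range] at hp
              rw [mem_Ioc]
              exact ⟨hp.2.one_lt, by omega⟩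
          _ ≤ 16 := by
              have h3 : ∀ n : ℕ, ∑ p ∈ Ioc 1 (n + 1), 8 / (p : ℝ) ^ 2 ≤ 8 - 8 / ((n : ℝ) + 1) := by
                intro n
                induction n with
                | zero => simp
                | succ n ih =>
                  rw [← Finset.insert_Ioc_right_eq_Ioc_add_one (by omega), sum_insert (by simp)]
                  have h4 : (8 : ℝ) / ((n + 1 + 1 : ℕ) : ℝ) ^ 2 ≤
                      8 / ((n : ℝ) + 1) - 8 / ((n : ℝ) + 1 + 1) := by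
                    push_cast
                    rw [div_sub_div _ _ (by positivity) (by positivity),
                      div_le_div_iff₀ (by positivity) (by positivity)]
                    nlinarith [sq_nonneg ((n : ℝ) + 1 + 1)]
                  push_cast at h4 ⊢
                  linarith
              have h4 := h3 K
              have h5 : 0 ≤ 8 / ((K : ℝ) + 1) := by positivity
              linarith
    _ = Real.exp 16 * K := mul_comm _ _

/-! ## the energy -/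

theorem energy : ∃ C : ℝ, 0 < C ∧ ∀ P : ℕ, 2 ≤ P →
    ∑ k ∈ Icc 1 P, (rr P k : ℝ) ^ 2 ≤ C * (P : ℝ) ^ 3 / (Real.log P) ^ 4 := by
  obtain ⟨C, hC, h⟩ := pair_le
  refine ⟨C ^ 2 * Real.exp 16, by positivity, fun P hP => ?_⟩
  have h1 : ∀ k ∈ Icc 1 P, (rr P k : ℝ) ^ 2 ≤
      C ^ 2 * (P / (Real.log P) ^ 2) ^ 2 * ((k : ℝ) / k.totient) ^ 2 := by
    intro k hk
    rw [mem_Icc] at hk
    have h2 := pow_le_pow_left₀ (Nat.cast_nonneg _) (h P k hP hk.1) 2
    refine h2.trans (le_of_eq ?_)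
    ring
  calc ∑ k ∈ Icc 1 P, (rr P k : ℝ) ^ 2
      ≤ ∑ k ∈ Icc 1 P, C ^ 2 * (P / (Real.log P) ^ 2) ^ 2 * ((k : ℝ) / k.totient) ^ 2 :=
        sum_le_sum h1
    _ = C ^ 2 * (P / (Real.log P) ^ 2) ^ 2 * ∑ k ∈ Icc 1 P, ((k : ℝ) / k.totient) ^ 2 := by
        rw [mul_sum]
    _ ≤ C ^ 2 * (P / (Real.log P) ^ 2) ^ 2 * (Real.exp 16 * P) :=
        mul_le_mul_of_nonneg_left (tot_sq P) (by positivity)
    _ = C ^ 2 * Real.exp 16 * (P : ℝ) ^ 3 / (Real.log P) ^ 4 := by ring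

/-! ## use of the energy -/

private lemma upper (P : ℕ) (G : ℕ → ℝ) :
    ∑ q ∈ PP P, ∑ p ∈ (PP P).filter (fun p => q < p), G (p - q) =
      ∑ k ∈ Icc 1 P, (rr P k : ℝ) * G k := by
  have h1 : ∀ q ∈ PP P, ∑ p ∈ (PP P).filter (fun p => q < p), G (p - q) =
      ∑ k ∈ Icc 1 P, if q + k ∈ PP P then G k else 0 := by
    intro q hq
    rw [← sum_filter]
    refine sum_nbij' (fun p => p - q) (fun k => q + k) ?_ ?_ ?_ ?_ ?_
    · intro p hp
      rw [mem_filter] at hp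
      have h2 := (mem_PP.1 hp.1).1
      have h3 := (mem_PP.1 hq).1
      have e : q + (p - q) = p := by omega
      rw [mem_filter, mem_Icc, e]
      exact ⟨by omega, hp.1⟩
    · intro k hk
      rw [mem_filter, mem_Icc] at hk
      rw [mem_filter]
      exact ⟨hk.2, by omega⟩
    · intro p hp
      rw [mem_filter] at hp
      omega
    · intro k hk
      omega
    · intro p _
      rfl
  rw [sum_congr rfl h1, sum_comm]
  refine sum_congr rfl fun k _ => ?_
  rw [← sum_filter, sum_const, nsmul_eq_mul]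
  rfl

private lemma sq_le (P : ℕ) (F : ℤ → ℝ) (s : ℤ) (hs : s = 1 ∨ s = -1) :
    ∑ k ∈ Icc 1 P, F (s * k) ^ 2 ≤ ∑ k ∈ Icc (-(P : ℤ)) P, F k ^ 2 := by
  have h1 : ∑ k ∈ Icc 1 P, F (s * k) ^ 2 =
      ∑ k ∈ (Icc 1 P).image (fun k : ℕ => s * (k : ℤ)), F k ^ 2 := by
    rw [sum_image]
    intro a _ b _ hab
    have hs0 : s ≠ 0 := by rcases hs with h | h <;> rw [h] <;> norm_num
    exact_mod_cast mul_left_cancel₀ hs0 hab
  rw [h1]
  refine sum_le_sum_of_subset_of_nonneg ?_ fun _ _ _ => sq_nonneg _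
  intro k hk
  rw [mem_image] at hk
  obtain ⟨a, ha, rfl⟩ := hk
  rw [mem_Icc] at ha ⊢
  rcases hs with h | h <;> rw [h] <;> constructor <;> omega

/-- `∑ F(p - q)` over the pairs of primes of a subset of `(P, 2P]` -/
theorem use : ∃ C : ℝ, 0 < C ∧ ∀ P : ℕ, 2 ≤ P → ∀ S ⊆ PP P, ∀ F : ℤ → ℝ, (∀ k, 0 ≤ F k) →
    (∀ k, F k ≤ 1) → ∑ p ∈ S, ∑ q ∈ S, F ((p : ℤ) - q) ≤ C * (P / Real.log P) +
      C * ((P : ℝ) ^ 2 / (Real.log P) ^ 2) *
        Real.sqrt ((∑ k ∈ Icc (-(P : ℤ)) P, F k ^ 2) / P) := by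
  obtain ⟨C, hC, hE⟩ := energy
  obtain ⟨C', hC', hpi⟩ := Pool.Agent.Mrd.cheb_pi
  refine ⟨4 * C' + 2 * Real.sqrt C, by positivity, fun P hP S hS F hF0 hF1 => ?_⟩
  have hP0 : (0 : ℝ) < P := by exact_mod_cast (by omega : 0 < P)
  have hP1 : (1 : ℝ) < P := by exact_mod_cast (by omega : 1 < P)
  obtain ⟨L, hL⟩ : ∃ L, L = Real.log P := ⟨_, rfl⟩
  have hLp : 0 < L := by rw [hL]; exact Real.log_pos hP1
  obtain ⟨T, hT⟩ : ∃ T, T = ∑ k ∈ Icc (-(P : ℤ)) P, F k ^ 2 := ⟨_, rfl⟩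
  have hT0 : 0 ≤ T := by rw [hT]; exact sum_nonneg fun _ _ => sq_nonneg _
  rw [← hL, ← hT]
  -- the diagonal
  have hcard : ((PP P).card : ℝ) ≤ 4 * C' * (P / L) := by
    have h1 : (PP P).card ≤ (Pool.Agent.Mrd.pr 0 (2 * P : ℝ)).card := by
      refine card_le_card fun p hp => ?_
      rw [mem_PP] at hp
      rw [Pool.Agent.Mrd.pr, mem_filter, mem_Ioc, Nat.floor_zero]
      refine ⟨⟨by omega, Nat.le_floor ?_⟩, hp.2⟩
      exact_mod_cast hp.1.2
    have h2 := hpi (2 * P) (by linarith)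
    have h3 : L ≤ Real.log (2 * P) := by
      rw [hL]
      exact Real.log_le_log hP0 (by linarith)
    calc ((PP P).card : ℝ) ≤ ((Pool.Agent.Mrd.pr 0 (2 * P : ℝ)).card : ℝ) := by exact_mod_cast h1
      _ ≤ C' * (2 * P) / Real.log (2 * P) := h2
      _ ≤ C' * (2 * P) / L := div_le_div_of_nonneg_left (by positivity) hLp h3
      _ ≤ 4 * C' * (P / L) := by
        rw [mul_div_assoc, mul_div_assoc]
        have : 0 ≤ C' * (P / L) := by positivity
        linarith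
  -- the off diagonal terms
  have hoff : ∀ s : ℤ, s = 1 ∨ s = -1 → ∑ k ∈ Icc 1 P, (rr P k : ℝ) * F (s * k) ≤
      Real.sqrt C * ((P : ℝ) ^ 2 / L ^ 2) * Real.sqrt (T / P) := by
    intro s hs
    have h1 := Real.sum_mul_le_sqrt_mul_sqrt (Icc 1 P) (fun k => (rr P k : ℝ)) (fun k => F (s * k))
    refine h1.trans ?_
    have h2 : Real.sqrt (∑ k ∈ Icc 1 P, (rr P k : ℝ) ^ 2) ≤
        Real.sqrt (C * (P : ℝ) ^ 3 / L ^ 4) := by
      refine Real.sqrt_le_sqrt ?_
      rw [hL]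
      exact hE P hP
    have h3 : Real.sqrt (∑ k ∈ Icc 1 P, F (s * k) ^ 2) ≤ Real.sqrt T := by
      refine Real.sqrt_le_sqrt ?_
      rw [hT]
      exact sq_le P F s hs
    calc Real.sqrt (∑ k ∈ Icc 1 P, (rr P k : ℝ) ^ 2) * Real.sqrt (∑ k ∈ Icc 1 P, F (s * k) ^ 2)
        ≤ Real.sqrt (C * (P : ℝ) ^ 3 / L ^ 4) * Real.sqrt T :=
          mul_le_mul h2 h3 (Real.sqrt_nonneg _) (Real.sqrt_nonneg _)
      _ = Real.sqrt (C * ((P : ℝ) ^ 2 / L ^ 2) ^ 2 * (T / P)) := by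
          rw [← Real.sqrt_mul (by positivity)]
          congr 1
          field_simp
      _ = Real.sqrt C * ((P : ℝ) ^ 2 / L ^ 2) * Real.sqrt (T / P) := by
          rw [Real.sqrt_mul (by positivity), Real.sqrt_mul hC.le,
            Real.sqrt_sq (by positivity)]
  -- the sum over all pairs
  have h1 : ∑ p ∈ S, ∑ q ∈ S, F ((p : ℤ) - q) ≤ ∑ p ∈ PP P, ∑ q ∈ PP P, F ((p : ℤ) - q) :=
    (sum_le_sum fun p _ => sum_le_sum_of_subset_of_nonneg hS fun _ _ _ => hF0 _).trans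
      (sum_le_sum_of_subset_of_nonneg hS fun _ _ _ => sum_nonneg fun _ _ => hF0 _)
  have h2 : ∑ p ∈ PP P, ∑ q ∈ PP P, F ((p : ℤ) - q) ≤
      ∑ q ∈ PP P, (∑ p ∈ (PP P).filter (fun p => q < p), F (1 * ((p - q : ℕ) : ℤ)) + F 0) +
        ∑ q ∈ PP P, ∑ p ∈ (PP P).filter (fun p => q < p), F (-1 * ((p - q : ℕ) : ℤ)) := by
    have h3 : ∀ p ∈ PP P, ∑ q ∈ PP P, F ((p : ℤ) - q) ≤
        (∑ q ∈ (PP P).filter (fun q => q < p), F ((p : ℤ) - q) + F 0) +
          ∑ q ∈ (PP P).filter (fun q => p < q), F (-1 * ((q - p : ℕ) : ℤ)) := by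
      intro p hp
      have h4 : ∑ q ∈ PP P, F ((p : ℤ) - q) = ∑ q ∈ PP P, ((if q < p then F ((p : ℤ) - q) else 0) +
          (if q = p then F ((p : ℤ) - q) else 0) + (if p < q then F ((p : ℤ) - q) else 0)) := by
        refine sum_congr rfl fun q _ => ?_
        rcases lt_trichotomy q p with h | h | h
        · rw [if_pos h, if_neg h.ne, if_neg h.le.not_gt]; ring
        · rw [if_neg (by omega), if_pos h, if_neg (by omega)]; ring
        · rw [if_neg h.le.not_gt, if_neg h.ne', if_pos h]; ring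
      rw [h4, sum_add_distrib, sum_add_distrib, ← sum_filter, ← sum_filter, ← sum_filter]
      refine add_le_add (add_le_add le_rfl ?_) (le_of_eq ?_)
      · rw [sum_filter, sum_ite_eq' (PP P) p, if_pos hp, sub_self]
      · refine sum_congr rfl fun q hq => ?_
        rw [mem_filter] at hq
        congr 1
        rw [Nat.cast_sub hq.2.le]
        ring
    refine (sum_le_sum h3).trans (le_of_eq ?_)
    rw [sum_add_distrib]
    congr 1
    rw [sum_add_distrib, sum_add_distrib]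
    congr 1
    have h5 : ∀ q ∈ PP P, ∑ p ∈ (PP P).filter (fun p => q < p), F (1 * ((p - q : ℕ) : ℤ)) =
        ∑ p ∈ PP P, if q < p then F ((p : ℤ) - q) else 0 := by
      intro q _
      rw [← sum_filter]
      refine sum_congr rfl fun p hp => ?_
      rw [mem_filter] at hp
      rw [Nat.cast_sub hp.2.le, one_mul]
    have h6 : ∀ p ∈ PP P, ∑ q ∈ (PP P).filter (fun q => q < p), F ((p : ℤ) - q) =
        ∑ q ∈ PP P, if q < p then F ((p : ℤ) - q) else 0 := by
      intro p _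
      rw [← sum_filter]
    rw [sum_congr rfl h5, sum_congr rfl h6, sum_comm]
  have h3 := upper P (fun k => F (1 * (k : ℤ)))
  have h4 := upper P (fun k => F (-1 * (k : ℤ)))
  have h5 := hoff 1 (Or.inl rfl)
  have h6 := hoff (-1) (Or.inr rfl)
  have h7 : ∑ q ∈ PP P, (F 0 : ℝ) ≤ 4 * C' * (P / L) := by
    rw [sum_const, nsmul_eq_mul]
    calc ((PP P).card : ℝ) * F 0 ≤ (PP P).card * 1 :=
          mul_le_mul_of_nonneg_left (hF1 0) (Nat.cast_nonneg _)
      _ ≤ 4 * C' * (P / L) := by rw [mul_one]; exact hcard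
  rw [sum_add_distrib, h3, h4] at h2
  have hA : 0 ≤ (P : ℝ) / L := by positivity
  have hB : 0 ≤ ((P : ℝ) ^ 2 / L ^ 2) * Real.sqrt (T / P) := by positivity
  have hC0 : 0 ≤ Real.sqrt C := Real.sqrt_nonneg C
  calc ∑ p ∈ S, ∑ q ∈ S, F ((p : ℤ) - q)
      ≤ 4 * C' * (P / L) + 2 * (Real.sqrt C * ((P : ℝ) ^ 2 / L ^ 2) * Real.sqrt (T / P)) := by
        linarith [h1.trans h2]
    _ = 4 * C' * (P / L) + 2 * Real.sqrt C * (((P : ℝ) ^ 2 / L ^ 2) * Real.sqrt (T / P)) := by ring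
    _ ≤ (4 * C' + 2 * Real.sqrt C) * (P / L) +
        (4 * C' + 2 * Real.sqrt C) * (((P : ℝ) ^ 2 / L ^ 2) * Real.sqrt (T / P)) := by
        refine add_le_add (mul_le_mul_of_nonneg_right (by linarith) hA)
          (mul_le_mul_of_nonneg_right (by linarith) hB)
    _ = _ := by ring

/-- the same for complex functions -/
theorem use_norm : ∃ C : ℝ, 0 < C ∧ ∀ P : ℕ, 2 ≤ P → ∀ S ⊆ PP P, ∀ c : ℤ → ℂ,
    (∀ k, ‖c k‖ ≤ 1) → ‖∑ p ∈ S, ∑ q ∈ S, c ((p : ℤ) - q)‖ ≤ C * (P / Real.log P) +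
      C * ((P : ℝ) ^ 2 / (Real.log P) ^ 2) *
        Real.sqrt ((∑ k ∈ Icc (-(P : ℤ)) P, ‖c k‖ ^ 2) / P) := by
  obtain ⟨C, hC, h⟩ := use
  refine ⟨C, hC, fun P hP S hS c hc => ?_⟩
  exact ((norm_sum_le _ _).trans (sum_le_sum fun p _ => norm_sum_le _ _)).trans
    (h P hP S hS (fun k => ‖c k‖) (fun _ => norm_nonneg _) hc)

end Pool.Agent.S7e
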